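import Pool.Agent.Helper157.RF.EDefs
set_option autoImplicit false
open MeasureTheory Set Filter H262RU
open scoped ENNReal NNReal BigOperators

namespace RFE

variable {X : Type*} [MeasurableSpace X]

theorem cs_weight {α : Type*} [MeasurableSpace α] (μ : Measure α) (K ω y : α → ℝ≥0∞)
    (hK : Measurable K) (hω : Measurable ω) (hy : Measurable y)
    (h0 : ∀ᵐ x ∂μ, ω x ≠ 0) (h1 : ∀ᵐ x ∂μ, ω x ≠ ⊤) :
    (∫⁻ x, K x * y x ∂μ) ^ 2 ≤ (∫⁻ x, K x * (ω x)⁻¹ ∂μ) * (∫⁻ x, K x * ω x * y x ^ 2 ∂μ) := by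
  have hsq : ∀ a : ℝ≥0∞, (a ^ (1 / 2 : ℝ)) ^ (2 : ℝ) = a := by
    intro a
    rw [← ENNReal.rpow_mul]
    norm_num
  have hsq' : ∀ a : ℝ≥0∞, (a ^ (1 / 2 : ℝ)) ^ 2 = a := by
    intro a
    rw [← ENNReal.rpow_natCast, ← ENNReal.rpow_mul]
    norm_num
  have hsq2 : ∀ a : ℝ≥0∞, (a ^ 2) ^ (1 / 2 : ℝ) = a := by
    intro a
    rw [← ENNReal.rpow_natCast, ← ENNReal.rpow_mul]
    norm_num
  have hm1 : Measurable (fun x => K x * (ω x)⁻¹) := by fun_prop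
  have hm2 : Measurable (fun x => K x * ω x * y x ^ 2) := by fun_prop
  have hae : ∫⁻ x, K x * y x ∂μ =
      ∫⁻ x, ((fun x => (K x * (ω x)⁻¹) ^ (1 / 2 : ℝ)) *
        (fun x => (K x * ω x * y x ^ 2) ^ (1 / 2 : ℝ))) x ∂μ := by
    apply lintegral_congr_ae
    filter_upwards [h0, h1] with x hx0 hx1
    rw [Pi.mul_apply, ← ENNReal.mul_rpow_of_nonneg _ _ (by norm_num)]
    have : K x * (ω x)⁻¹ * (K x * ω x * y x ^ 2) = (K x * y x) ^ 2 := by
      calc K x * (ω x)⁻¹ * (K x * ω x * y x ^ 2) = ((ω x)⁻¹ * ω x) * (K x * y x) ^ 2 := by ring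
        _ = _ := by rw [ENNReal.inv_mul_cancel hx0 hx1, one_mul]
    rw [this, hsq2]
  have h := ENNReal.lintegral_mul_le_Lp_mul_Lq μ (Real.HolderConjugate.two_two)
    (f := fun x => (K x * (ω x)⁻¹) ^ (1 / 2 : ℝ))
    (g := fun x => (K x * ω x * y x ^ 2) ^ (1 / 2 : ℝ))
    (hm1.pow_const _).aemeasurable (hm2.pow_const _).aemeasurable
  rw [← hae] at h
  simp only [hsq] at h
  calc (∫⁻ x, K x * y x ∂μ) ^ 2
      ≤ ((∫⁻ x, K x * (ω x)⁻¹ ∂μ) ^ (1 / 2 : ℝ) *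
          (∫⁻ x, K x * ω x * y x ^ 2 ∂μ) ^ (1 / 2 : ℝ)) ^ 2 := by gcongr
    _ = _ := by rw [mul_pow, hsq', hsq']

/-- weighted Schur test -/
theorem schurW {α β : Type*} [MeasurableSpace α] [MeasurableSpace β] (μ : Measure α)
    (ν : Measure β) [SFinite μ] [SFinite ν] (K : α → β → ℝ≥0∞)
    (hK : Measurable (Function.uncurry K)) (θ q : α → ℝ≥0∞) (p ω : β → ℝ≥0∞)
    (hθ : Measurable θ) (hq : Measurable q) (hp : Measurable p) (hω : Measurable ω)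
    (hp0 : ∀ᵐ y ∂ν, p y ≠ 0) (hp1 : ∀ᵐ y ∂ν, p y ≠ ⊤) (C1 C2 : ℝ≥0∞)
    (h1 : ∀ᵐ x ∂μ, ∫⁻ y, K x y * p y ∂ν ≤ C1 * q x)
    (h2 : ∀ᵐ y ∂ν, ∫⁻ x, K x y * (q x * θ x) ∂μ ≤ C2 * (p y * ω y))
    (f : β → ℝ≥0∞) (hf : Measurable f) :
    ∫⁻ x, θ x * (∫⁻ y, K x y * f y ∂ν) ^ 2 ∂μ ≤ C1 * C2 * ∫⁻ y, ω y * f y ^ 2 ∂ν := by
  have hKx : ∀ x, Measurable (K x) := fun x => hK.comp measurable_prodMk_left
  have hKy : ∀ y, Measurable (fun x => K x y) := fun y => hK.comp measurable_prodMk_right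
  have hm : Measurable (Function.uncurry fun (x : α) (y : β) =>
      (q x * θ x) * (K x y * ((p y)⁻¹ * f y ^ 2))) := by
    have e : (Function.uncurry fun (x : α) (y : β) =>
        (q x * θ x) * (K x y * ((p y)⁻¹ * f y ^ 2))) =
        fun z : α × β => (q z.1 * θ z.1) * (Function.uncurry K z * ((p z.2)⁻¹ * f z.2 ^ 2)) := rfl
    rw [e]
    have m1 : Measurable (fun z : α × β => q z.1 * θ z.1) :=
      (hq.comp measurable_fst).mul (hθ.comp measurable_fst)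
    have m2 : Measurable (fun z : α × β => (p z.2)⁻¹ * f z.2 ^ 2) :=
      ((hp.comp measurable_snd).inv).mul ((hf.comp measurable_snd).pow_const 2)
    exact m1.mul (hK.mul m2)
  calc ∫⁻ x, θ x * (∫⁻ y, K x y * f y ∂ν) ^ 2 ∂μ
      ≤ ∫⁻ x, C1 * ∫⁻ y, (q x * θ x) * (K x y * ((p y)⁻¹ * f y ^ 2)) ∂ν ∂μ := by
        apply lintegral_mono_ae
        filter_upwards [h1] with x hx
        have hcs := cs_weight ν (K x) (fun y => (p y)⁻¹) f (hKx x) hp.inv hf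
          (by filter_upwards [hp1] with y hy; exact ENNReal.inv_ne_zero.2 hy)
          (by filter_upwards [hp0] with y hy; exact ENNReal.inv_ne_top.2 hy)
        simp only [inv_inv] at hcs
        have e1 : ∫⁻ y, K x y * (p y)⁻¹ * f y ^ 2 ∂ν = ∫⁻ y, K x y * ((p y)⁻¹ * f y ^ 2) ∂ν := by
          simp only [mul_assoc]
        rw [e1] at hcs
        have e2 : Measurable (fun y => K x y * ((p y)⁻¹ * f y ^ 2)) :=
          (hKx x).mul (hp.inv.mul (hf.pow_const 2))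
        rw [lintegral_const_mul _ e2]
        calc θ x * (∫⁻ y, K x y * f y ∂ν) ^ 2
            ≤ θ x * ((∫⁻ y, K x y * p y ∂ν) * ∫⁻ y, K x y * ((p y)⁻¹ * f y ^ 2) ∂ν) := by gcongr
          _ ≤ θ x * ((C1 * q x) * ∫⁻ y, K x y * ((p y)⁻¹ * f y ^ 2) ∂ν) := by gcongr
          _ = _ := by ring
    _ = C1 * ∫⁻ x, ∫⁻ y, (q x * θ x) * (K x y * ((p y)⁻¹ * f y ^ 2)) ∂ν ∂μ := by
        rw [lintegral_const_mul]
        exact hm.lintegral_prod_right'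
    _ = C1 * ∫⁻ y, ∫⁻ x, (q x * θ x) * (K x y * ((p y)⁻¹ * f y ^ 2)) ∂μ ∂ν := by
        rw [lintegral_lintegral_swap hm.aemeasurable]
    _ ≤ C1 * ∫⁻ y, C2 * (ω y * f y ^ 2) ∂ν := by
        apply mul_le_mul_right
        apply lintegral_mono_ae
        filter_upwards [h2, hp0, hp1] with y hy hy0 hy1
        have e1 : ∫⁻ x, (q x * θ x) * (K x y * ((p y)⁻¹ * f y ^ 2)) ∂μ =
            (∫⁻ x, K x y * (q x * θ x) ∂μ) * ((p y)⁻¹ * f y ^ 2) := by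
          have e2 : Measurable (fun x => K x y * (q x * θ x)) := (hKy y).mul (hq.mul hθ)
          rw [← lintegral_mul_const _ e2]
          congr 1
          funext x
          ring
        rw [e1]
        calc (∫⁻ x, K x y * (q x * θ x) ∂μ) * ((p y)⁻¹ * f y ^ 2)
            ≤ (C2 * (p y * ω y)) * ((p y)⁻¹ * f y ^ 2) := by gcongr
          _ = ((p y)⁻¹ * p y) * (C2 * (ω y * f y ^ 2)) := by ring
          _ = _ := by rw [ENNReal.inv_mul_cancel hy0 hy1, one_mul]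
    _ = _ := by
        have e2 : Measurable (fun y => ω y * f y ^ 2) := hω.mul (hf.pow_const 2)
        rw [lintegral_const_mul _ e2, mul_assoc]

end RFE
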