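import Pool.Agent.Helper157.RF.EDefs
set_option autoImplicit false
open MeasureTheory Set Filter H262RU
open scoped ENNReal NNReal BigOperators

namespace RFE

variable {X : Type*} [MeasurableSpace X]

/-- TARGET: the points `v_l` of one colour carry a small Carleson measure -/
theorem embed_small (T : TS X) (b m : ℕ) (C0 : ℝ) (hC0 : 1 ≤ C0) (ε : ℝ) (hε : 0 < ε) :
    ∃ r0 : ℝ, 1 ≤ r0 ∧ ∀ r : ℝ, r0 ≤ r → ∃ P0 K0 : ℝ, 1 ≤ P0 ∧ 1 ≤ K0 ∧
    ∀ (ι κ : Type) [Fintype ι] [DecidableEq κ] (W : ι → X) (A : ι → ℝ)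
      (own : X → ι) (col : ι → κ), Fam T b m C0 W A own →
      ∀ P K2 : ℝ, P0 ≤ P → K0 ≤ K2 → Sep T W A col P K2 →
      ∀ (v : ι → X), (∀ l, r ^ 2 * T.s (W l) ≤ 2 → r * T.s (W l) / 4 ≤ T.s (v l) ∧
        T.d (v l) (W l) ≤ 4 * r * T.s (W l)) →
      ∀ (c : κ) (z : X) (ρ : ℝ), 0 < ρ →
      ∑ l ∈ Finset.univ.filter (fun l => col l = c ∧ r ^ 2 * T.s (W l) ≤ 2 ∧ T.d (v l) z < ρ),
        T.s (W l) ^ T.n ≤ ε * ρ ^ T.n := by
  have hn := T.n_pos
  have hn0 : T.n ≠ 0 := by omega
  have hcσ := T.cσ_pos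
  have hCσ := T.Cσ_pos
  set H : ℝ := max 1 ((3 * C0 * 132 ^ T.n / ε) ^ 2) with hHdef
  have hH1 : 1 ≤ H := le_max_left _ _
  have hHs : 3 * C0 * 132 ^ T.n / ε ≤ Real.sqrt H := by
    rw [show 3 * C0 * 132 ^ T.n / ε = Real.sqrt ((3 * C0 * 132 ^ T.n / ε) ^ 2) from
      (Real.sqrt_sq (by positivity)).symm]
    exact Real.sqrt_le_sqrt (le_max_right _ _)
  have hHsp : 0 < Real.sqrt H := Real.sqrt_pos.mpr (by linarith)
  have hHb : C0 / Real.sqrt H * 132 ^ T.n ≤ ε / 3 := by
    rw [div_mul_eq_mul_div, div_le_iff₀ hHsp]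
    have h1 := mul_le_mul_of_nonneg_left hHs (by positivity : (0:ℝ) ≤ ε / 3)
    calc C0 * 132 ^ T.n = ε / 3 * (3 * C0 * 132 ^ T.n / ε) := by field_simp
      _ ≤ _ := h1
  refine ⟨max (max 8 C0) (24 / ε), le_trans (by norm_num) (le_trans (le_max_left (8:ℝ) C0)
    (le_max_left _ _)), ?_⟩
  intro r hr
  have hr8 : 8 ≤ r := le_trans (le_trans (le_max_left (8:ℝ) C0) (le_max_left _ _)) hr
  have hrC : C0 ≤ r := le_trans (le_trans (le_max_right (8:ℝ) C0) (le_max_left _ _)) hr
  have hrε : 24 / ε ≤ r := le_trans (le_max_right _ _) hr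
  have hr0 : 0 < r := by linarith
  have h8r : (8 / r) ^ T.n ≤ ε / 3 := by
    have h1 : 8 / r ≤ 1 := by rw [div_le_one hr0]; exact hr8
    calc (8 / r) ^ T.n ≤ 8 / r := pow_le_of_le_one (by positivity) h1 hn0
      _ ≤ ε / 3 := by
        rw [div_le_iff₀ hr0]
        rw [div_le_iff₀ hε] at hrε
        linarith
  set K0 : ℝ := max 12800 (3 * (T.Cσ / T.cσ) * 12800 / ε) with hK0def
  have hK0 : 12800 ≤ K0 := le_max_left _ _
  have hK0' : 3 * (T.Cσ / T.cσ) * 12800 / ε ≤ K0 := le_max_right _ _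
  have hK0p : 0 < K0 := by linarith
  have hKb : T.Cσ / T.cσ * (12800 / K0) ^ T.n ≤ ε / 3 := by
    have h1 : 12800 / K0 ≤ 1 := by rw [div_le_one hK0p]; exact hK0
    calc T.Cσ / T.cσ * (12800 / K0) ^ T.n ≤ T.Cσ / T.cσ * (12800 / K0) := by
          gcongr
          exact pow_le_of_le_one (by positivity) h1 hn0
      _ ≤ ε / 3 := by
        rw [mul_div_assoc', div_le_iff₀ hK0p]
        rw [div_le_iff₀ hε] at hK0'
        linarith
  refine ⟨H, K0, hH1, by linarith, ?_⟩
  intro ι κ _ _ W A own col hF P K2 hP hK2 hSep v hv c z ρ hρ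
  classical
  set S0 := Finset.univ.filter (fun l => col l = c ∧ r ^ 2 * T.s (W l) ≤ 2 ∧ T.d (v l) z < ρ)
    with hS0
  have hmem : ∀ l ∈ S0, col l = c ∧ r * T.s (W l) < 8 * ρ ∧ T.d (W l) z < 132 * ρ ∧
      C0 * T.s (W l) ≤ 132 * ρ := by
    intro l hl
    rw [hS0, Finset.mem_filter] at hl
    obtain ⟨-, hcol, hl2, hlz⟩ := hl
    obtain ⟨hv1, hv2⟩ := hv l hl2
    have h1 := T.s_le (v l) z
    have h2 : r * T.s (W l) < 8 * ρ := by linarith
    have h3 := T.tri (W l) (v l) z
    rw [T.d_symm (W l) (v l)] at h3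
    have h4 := hF.s_pos l
    refine ⟨hcol, h2, by nlinarith, ?_⟩
    have h5 : C0 * T.s (W l) ≤ r * T.s (W l) := mul_le_mul_of_nonneg_right hrC h4.le
    linarith
  obtain ⟨B, hB0, hBA, hBH⟩ := hF.pack z (132 * ρ) (by positivity)
  have hBA' : ∀ l ∈ S0, B ≤ A l := fun l hl =>
    hBA l (hmem l hl).2.2.1 (hmem l hl).2.2.2
  have hsplit := Finset.sum_filter_add_sum_filter_not S0 (fun l => H * B ≤ A l)
    (fun l => T.s (W l) ^ T.n)
  have hsnn : ∀ l, 0 ≤ T.s (W l) ^ T.n := fun l => pow_nonneg (T.s_nonneg _) _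
  have hpart1 : ∑ l ∈ S0.filter (fun l => H * B ≤ A l), T.s (W l) ^ T.n ≤ ε / 3 * ρ ^ T.n := by
    calc ∑ l ∈ S0.filter (fun l => H * B ≤ A l), T.s (W l) ^ T.n
        ≤ ∑ l ∈ Finset.univ.filter (fun l => T.d (W l) z < 132 * ρ ∧
            C0 * T.s (W l) ≤ 132 * ρ ∧ H * B ≤ A l), T.s (W l) ^ T.n := by
          apply Finset.sum_le_sum_of_subset_of_nonneg
          · intro l hl
            rw [Finset.mem_filter] at hl ⊢
            exact ⟨Finset.mem_univ _, (hmem l hl.1).2.2.1, (hmem l hl.1).2.2.2, hl.2⟩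
          · intro l _ _
            exact hsnn l
      _ ≤ C0 / Real.sqrt H * (132 * ρ) ^ T.n := hBH H hH1
      _ = (C0 / Real.sqrt H * 132 ^ T.n) * ρ ^ T.n := by rw [mul_pow]; ring
      _ ≤ ε / 3 * ρ ^ T.n := by gcongr
  set S2 := S0.filter (fun l => ¬ H * B ≤ A l) with hS2
  have hpart2 : ∑ l ∈ S2, T.s (W l) ^ T.n ≤ ε / 3 * ρ ^ T.n := by
    by_cases hnt : S2.Nontrivial
    · -- separation
      have hsep : ∀ i ∈ S2, ∀ l ∈ S2, i ≠ l →
          K0 * max (T.s (W i)) (T.s (W l)) ≤ T.d (W i) (W l) := by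
        intro i hi l hl hil
        rw [hS2, Finset.mem_filter, not_le] at hi hl
        by_contra hcon
        push Not at hcon
        have hmaxnn : 0 ≤ max (T.s (W i)) (T.s (W l)) := le_trans (T.s_nonneg _) (le_max_left _ _)
        have h1 : T.d (W i) (W l) < K2 * max (T.s (W i)) (T.s (W l)) :=
          lt_of_lt_of_le hcon (mul_le_mul_of_nonneg_right hK2 hmaxnn)
        have hcc : col i = col l := by rw [(hmem i hi.1).1, (hmem l hl.1).1]
        have hBi := hBA' i hi.1
        have hBl := hBA' l hl.1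
        have hPp : 0 < P := by linarith
        rcases hSep i l hil hcc h1 with h2 | h2
        · have : H * B ≤ P * A i := mul_le_mul hP hBi hB0.le hPp.le
          linarith [hl.2]
        · have : H * B ≤ P * A l := mul_le_mul hP hBl hB0.le hPp.le
          linarith [hi.2]
      have hsmall : ∀ l ∈ S2, K0 * T.s (W l) ≤ 2 ∧ K0 * T.s (W l) ≤ 1056 * ρ := by
        intro l hl
        obtain ⟨i, hi, hil⟩ := hnt.exists_ne l
        have h1 := hsep i hi l hl hil
        have h2 : K0 * T.s (W l) ≤ K0 * max (T.s (W i)) (T.s (W l)) :=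
          mul_le_mul_of_nonneg_left (le_max_right _ _) hK0p.le
        have h3 := T.d_le (W i) (W l)
        have h4 := T.tri (W i) z (W l)
        have hi0 := (Finset.mem_filter.mp hi).1
        have hl0 := (Finset.mem_filter.mp hl).1
        have h5 := (hmem i hi0).2.2.1
        have h6 := (hmem l hl0).2.2.1
        rw [T.d_symm z (W l)] at h4
        exact ⟨by linarith, by linarith⟩
      set k : ℝ := K0 / 16 with hk
      have hkp : 0 < k := by positivity
      have hk2 : 2 ≤ k := by rw [hk]; linarith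
      have hQm : ∀ l, MeasurableSet {ζ | T.d ζ (W l) < k * T.s (W l)} := fun l =>
        measurableSet_lt (T.d_meas _) measurable_const
      have hdisj : (S2 : Set ι).PairwiseDisjoint (fun l => {ζ | T.d ζ (W l) < k * T.s (W l)}) := by
        intro i hi l hl hil
        rw [Function.onFun, Set.disjoint_left]
        intro ζ h1 h2
        simp only [Set.mem_ofPred_eq] at h1 h2
        have h3 := hsep i hi l hl hil
        have h4 := T.tri (W i) ζ (W l)
        rw [T.d_symm (W i) ζ] at h4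
        have h5 : T.s (W i) ≤ max (T.s (W i)) (T.s (W l)) := le_max_left _ _
        have h6 : T.s (W l) ≤ max (T.s (W i)) (T.s (W l)) := le_max_right _ _
        have h7 : 0 < max (T.s (W i)) (T.s (W l)) := lt_of_lt_of_le (hF.s_pos i) h5
        have h8 : k * T.s (W i) ≤ k * max (T.s (W i)) (T.s (W l)) :=
          mul_le_mul_of_nonneg_left h5 hkp.le
        have h9 : k * T.s (W l) ≤ k * max (T.s (W i)) (T.s (W l)) :=
          mul_le_mul_of_nonneg_left h6 hkp.le
        have h10 : K0 * max (T.s (W i)) (T.s (W l)) = 16 * (k * max (T.s (W i)) (T.s (W l))) := by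
          rw [hk]; ring
        have h11 : 0 < k * max (T.s (W i)) (T.s (W l)) := mul_pos hkp h7
        linarith
      have hsub : (⋃ l ∈ S2, {ζ | T.d ζ (W l) < k * T.s (W l)}) ⊆ {ζ | T.d ζ z < 800 * ρ} := by
        intro ζ hζ
        simp only [Set.mem_iUnion, Set.mem_ofPred_eq, exists_prop] at hζ ⊢
        obtain ⟨l, hl, hζl⟩ := hζ
        have hl0 := (Finset.mem_filter.mp hl).1
        have h1 := (hmem l hl0).2.2.1
        have h2 := (hsmall l hl).2
        have h3 := T.tri ζ (W l) z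
        have h4 : k * T.s (W l) = K0 * T.s (W l) / 16 := by rw [hk]; ring
        linarith
      have hmeas : ∑ l ∈ S2, ENNReal.ofReal (T.cσ * (k * T.s (W l)) ^ T.n) ≤
          ENNReal.ofReal (T.Cσ * (800 * ρ) ^ T.n) := by
        calc ∑ l ∈ S2, ENNReal.ofReal (T.cσ * (k * T.s (W l)) ^ T.n)
            ≤ ∑ l ∈ S2, T.σ {ζ | T.d ζ (W l) < k * T.s (W l)} := by
              apply Finset.sum_le_sum
              intro l hl
              apply T.σ_ge (W l) _ (hF.s_pos l)
              · exact mul_le_mul_of_nonneg_right hk2 (T.s_nonneg _)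
              · have h2 := (hsmall l hl).1
                have h4 : k * T.s (W l) = K0 * T.s (W l) / 16 := by rw [hk]; ring
                linarith
          _ = T.σ (⋃ l ∈ S2, {ζ | T.d ζ (W l) < k * T.s (W l)}) :=
              (measure_biUnion_finset hdisj (fun l _ => hQm l)).symm
          _ ≤ T.σ {ζ | T.d ζ z < 800 * ρ} := measure_mono hsub
          _ ≤ _ := T.σ_le z _ (by positivity)
      have hnn : ∀ l ∈ S2, 0 ≤ T.cσ * (k * T.s (W l)) ^ T.n := by
        intro l _
        have := T.s_nonneg (W l)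
        positivity
      rw [← ENNReal.ofReal_sum_of_nonneg hnn, ENNReal.ofReal_le_ofReal_iff (by positivity)] at hmeas
      have h1 : ∑ l ∈ S2, T.cσ * (k * T.s (W l)) ^ T.n =
          T.cσ * k ^ T.n * ∑ l ∈ S2, T.s (W l) ^ T.n := by
        rw [Finset.mul_sum]
        apply Finset.sum_congr rfl
        intro l _
        rw [mul_pow]; ring
      rw [h1] at hmeas
      have hpos : 0 < T.cσ * k ^ T.n := by positivity
      have h2 : ∑ l ∈ S2, T.s (W l) ^ T.n ≤ T.Cσ * (800 * ρ) ^ T.n / (T.cσ * k ^ T.n) := by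
        rw [le_div_iff₀ hpos]; linarith
      calc ∑ l ∈ S2, T.s (W l) ^ T.n ≤ T.Cσ * (800 * ρ) ^ T.n / (T.cσ * k ^ T.n) := h2
        _ = (T.Cσ / T.cσ * (12800 / K0) ^ T.n) * ρ ^ T.n := by
            have h3 : 12800 / K0 = 800 / k := by rw [hk]; field_simp; norm_num
            have hkn : k ^ T.n ≠ 0 := by positivity
            have hc0 : T.cσ ≠ 0 := hcσ.ne'
            rw [h3]
            clear_value k
            rw [div_pow 800 k, mul_pow]
            rw [div_mul_div_comm, div_mul_eq_mul_div]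
            congr 1
            ring
        _ ≤ ε / 3 * ρ ^ T.n := by gcongr
    · -- at most one element
      have hnt : (S2 : Set ι).Subsingleton := Set.not_nontrivial_iff.mp hnt
      rcases S2.eq_empty_or_nonempty with he | ⟨l, hl⟩
      · rw [he, Finset.sum_empty]; positivity
      · have hS : S2 = {l} := by
          apply Finset.eq_singleton_iff_unique_mem.mpr
          exact ⟨hl, fun x hx => hnt hx hl⟩
        rw [hS, Finset.sum_singleton]
        have hl0 := (Finset.mem_filter.mp hl).1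
        have h1 := (hmem l hl0).2.1
        have h2 : T.s (W l) ≤ 8 / r * ρ := by
          rw [div_mul_eq_mul_div, le_div_iff₀ hr0]; linarith
        calc T.s (W l) ^ T.n ≤ (8 / r * ρ) ^ T.n := pow_le_pow_left₀ (T.s_nonneg _) h2 _
          _ = (8 / r) ^ T.n * ρ ^ T.n := mul_pow _ _ _
          _ ≤ ε / 3 * ρ ^ T.n := by gcongr
  rw [← hsplit]
  have hρn : 0 ≤ ε / 3 * ρ ^ T.n := by positivity
  calc _ ≤ ε / 3 * ρ ^ T.n + ε / 3 * ρ ^ T.n := add_le_add hpart1 hpart2
    _ ≤ ε * ρ ^ T.n := by linarith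

end RFE
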