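import Pool.Agent.Helper157.RF.EDefs
set_option autoImplicit false
open MeasureTheory Set Filter H262RU
open scoped ENNReal NNReal BigOperators

namespace RFE

variable {X : Type*} [MeasurableSpace X]

theorem frV (T : TS X) (p : ℕ) (hp : 1 ≤ p) : ∃ C : ℝ, 0 < C ∧ ∀ (z : X) (ρ : ℝ), 0 < ρ →
    ∫⁻ w in {w | ρ ≤ T.d w z}, ENNReal.ofReal (1 / T.d w z ^ (T.n + 1 + p)) ∂T.V ≤
      ENNReal.ofReal (C / ρ ^ p) := by
  have hCV := T.CV_pos
  refine ⟨2 ^ (T.n + 1 + p) * (2 ^ (T.n + 1 + p + 1) * T.CV), by positivity, fun z ρ hρ => ?_⟩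
  have h := T.tail T.V (T.n + 1) (T.n + 1 + p) (by omega) T.CV T.CV_pos.le z ρ hρ
    (fun r hr => T.V_le z r (by linarith))
  have hms : MeasurableSet {w | ρ ≤ T.d w z} := measurableSet_le measurable_const (T.d_meas z)
  have hpt : ∀ w ∈ {w | ρ ≤ T.d w z}, ENNReal.ofReal (1 / T.d w z ^ (T.n + 1 + p)) ≤
      ENNReal.ofReal (2 ^ (T.n + 1 + p) / ρ ^ (T.n + 1 + p)) *
        ENNReal.ofReal ((ρ / (ρ + T.d w z)) ^ (T.n + 1 + p)) := by
    intro w hw
    have hw' : ρ ≤ T.d w z := hw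
    have hd : 0 < T.d w z := hρ.trans_le hw'
    rw [← ENNReal.ofReal_mul (by positivity)]
    apply ENNReal.ofReal_le_ofReal
    rw [← div_pow, ← mul_pow, ← one_div_pow]
    apply pow_le_pow_left₀ (by positivity)
    rw [div_mul_div_comm, div_le_div_iff₀ hd (by positivity)]
    nlinarith
  calc ∫⁻ w in {w | ρ ≤ T.d w z}, ENNReal.ofReal (1 / T.d w z ^ (T.n + 1 + p)) ∂T.V
      ≤ ∫⁻ w in {w | ρ ≤ T.d w z}, ENNReal.ofReal (2 ^ (T.n + 1 + p) / ρ ^ (T.n + 1 + p)) *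
        ENNReal.ofReal ((ρ / (ρ + T.d w z)) ^ (T.n + 1 + p)) ∂T.V := setLIntegral_mono' hms hpt
    _ ≤ ∫⁻ w, ENNReal.ofReal (2 ^ (T.n + 1 + p) / ρ ^ (T.n + 1 + p)) *
        ENNReal.ofReal ((ρ / (ρ + T.d w z)) ^ (T.n + 1 + p)) ∂T.V := setLIntegral_le_lintegral _ _
    _ = ENNReal.ofReal (2 ^ (T.n + 1 + p) / ρ ^ (T.n + 1 + p)) *
        ∫⁻ w, ENNReal.ofReal ((ρ / (ρ + T.d w z)) ^ (T.n + 1 + p)) ∂T.V :=
          lintegral_const_mul' _ _ ENNReal.ofReal_ne_top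
    _ ≤ ENNReal.ofReal (2 ^ (T.n + 1 + p) / ρ ^ (T.n + 1 + p)) *
        ENNReal.ofReal (2 ^ (T.n + 1 + p + 1) * T.CV * ρ ^ (T.n + 1)) := by gcongr
    _ = _ := by
        rw [← ENNReal.ofReal_mul (by positivity)]
        congr 1
        rw [pow_add ρ (T.n + 1) p]
        field_simp

/-- row integrals, sources at distance at least `R s(z)` -/
theorem k_row (T : TS X) (al : ℕ) (hal : 1 ≤ al) : ∃ C : ℝ, 0 < C ∧ ∀ (z : X) (R : ℝ),
    0 < T.s z → 0 < R →
    ∫⁻ w in {w | R * T.s z ≤ T.d z w}, kk T (al - 1) (T.n + 1 + al) z w ∂T.V ≤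
      ENNReal.ofReal (C / (R * T.s z)) := by
  obtain ⟨C, hC, h⟩ := frV T 1 le_rfl
  refine ⟨2 ^ (al - 1) * C, by positivity, fun z R hz hR => ?_⟩
  have hρ : 0 < R * T.s z := by positivity
  have h1 := h z (R * T.s z) hρ
  have hset : {w | R * T.s z ≤ T.d z w} = {w | R * T.s z ≤ T.d w z} := by
    ext w
    simp only [Set.mem_ofPred_eq, T.d_symm z w]
  have hms : MeasurableSet {w | R * T.s z ≤ T.d w z} :=
    measurableSet_le measurable_const (T.d_meas z)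
  rw [hset]
  have hpt : ∀ w ∈ {w | R * T.s z ≤ T.d w z}, kk T (al - 1) (T.n + 1 + al) z w ≤
      ENNReal.ofReal (2 ^ (al - 1)) * ENNReal.ofReal (1 / T.d w z ^ (T.n + 1 + 1)) := by
    intro w hw
    have hw' : R * T.s z ≤ T.d w z := hw
    have hd : 0 < T.d w z := hρ.trans_le hw'
    unfold kk
    rw [← ENNReal.ofReal_mul (by positivity)]
    apply ENNReal.ofReal_le_ofReal
    rw [T.d_symm z w]
    have hs : T.s w ^ (al - 1) ≤ (2 * T.d w z) ^ (al - 1) :=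
      pow_le_pow_left₀ (T.s_nonneg w) (T.s_le w z) _
    have hexp : T.n + 1 + al = (al - 1) + (T.n + 1 + 1) := by omega
    rw [hexp, pow_add, mul_one_div, div_le_div_iff₀ (by positivity) (by positivity)]
    calc T.s w ^ (al - 1) * T.d w z ^ (T.n + 1 + 1)
        ≤ (2 * T.d w z) ^ (al - 1) * T.d w z ^ (T.n + 1 + 1) := by gcongr
      _ = _ := by rw [mul_pow]; ring
  calc ∫⁻ w in {w | R * T.s z ≤ T.d w z}, kk T (al - 1) (T.n + 1 + al) z w ∂T.V
      ≤ ∫⁻ w in {w | R * T.s z ≤ T.d w z}, ENNReal.ofReal (2 ^ (al - 1)) *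
        ENNReal.ofReal (1 / T.d w z ^ (T.n + 1 + 1)) ∂T.V := setLIntegral_mono' hms hpt
    _ = ENNReal.ofReal (2 ^ (al - 1)) * ∫⁻ w in {w | R * T.s z ≤ T.d w z},
        ENNReal.ofReal (1 / T.d w z ^ (T.n + 1 + 1)) ∂T.V :=
          lintegral_const_mul' _ _ ENNReal.ofReal_ne_top
    _ ≤ ENNReal.ofReal (2 ^ (al - 1)) * ENNReal.ofReal (C / (R * T.s z) ^ 1) := by gcongr
    _ = _ := by
        rw [← ENNReal.ofReal_mul (by positivity), pow_one]
        congr 1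
        ring

/-- row integrals, sources with `R s(w) ≤ d(z,w)` -/
theorem k_row' (T : TS X) (al : ℕ) (hal : 2 ≤ al) : ∃ C : ℝ, 0 < C ∧ ∀ (z : X) (R : ℝ),
    0 < T.s z → 1 ≤ R →
    ∫⁻ w in {w | R * T.s w ≤ T.d z w}, kk T (al - 1) (T.n + 1 + al) z w ∂T.V ≤
      ENNReal.ofReal (C / (R * T.s z)) := by
  obtain ⟨C, hC, h⟩ := frV T 1 le_rfl
  refine ⟨2 ^ (al - 2) * 2 * C, by positivity, fun z R hz hR => ?_⟩
  have hR0 : 0 < R := by linarith
  have hρ : 0 < T.s z / 2 := by positivity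
  have h1 := h z (T.s z / 2) hρ
  have hms : MeasurableSet {w | R * T.s w ≤ T.d z w} := by
    have e : {w | R * T.s w ≤ T.d z w} = {w | R * T.s w ≤ T.d w z} := by
      ext w
      simp only [Set.mem_ofPred_eq, T.d_symm z w]
    rw [e]
    exact measurableSet_le (measurable_const.mul T.s_meas) (T.d_meas z)
  have hsub : {w | R * T.s w ≤ T.d z w} ⊆ {w | T.s z / 2 ≤ T.d w z} := by
    intro w _
    have := T.s_le z w
    show T.s z / 2 ≤ T.d w z
    rw [T.d_symm w z]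
    linarith
  have hpt : ∀ w ∈ {w | R * T.s w ≤ T.d z w}, kk T (al - 1) (T.n + 1 + al) z w ≤
      ENNReal.ofReal (2 ^ (al - 2) / R) * ENNReal.ofReal (1 / T.d w z ^ (T.n + 1 + 1)) := by
    intro w hw
    have hw' : R * T.s w ≤ T.d w z := by
      have : R * T.s w ≤ T.d z w := hw
      rwa [T.d_symm z w] at this
    have hd : 0 < T.d w z := hρ.trans_le (hsub hw)
    unfold kk
    rw [← ENNReal.ofReal_mul (by positivity)]
    apply ENNReal.ofReal_le_ofReal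
    rw [T.d_symm z w]
    have hs0 := T.s_nonneg w
    have hs : T.s w ^ (al - 2) ≤ (2 * T.d w z) ^ (al - 2) :=
      pow_le_pow_left₀ hs0 (T.s_le w z) _
    have hs2 : T.s w ≤ T.d w z / R := by
      rw [le_div_iff₀ hR0]
      linarith
    have hexp : T.n + 1 + al = (al - 2) + 1 + (T.n + 1 + 1) := by omega
    have hexp2 : al - 1 = (al - 2) + 1 := by omega
    have e1 : T.s w ^ (al - 1) = T.s w ^ (al - 2) * T.s w := by rw [hexp2, pow_succ]
    have e2 : T.d w z ^ (T.n + 1 + al) =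
        T.d w z ^ (al - 2) * T.d w z * T.d w z ^ (T.n + 1 + 1) := by
      rw [hexp, pow_add, pow_succ]
    rw [e1, e2, div_mul_div_comm, div_le_div_iff₀ (by positivity) (by positivity)]
    calc T.s w ^ (al - 2) * T.s w * (R * T.d w z ^ (T.n + 1 + 1))
        ≤ (2 * T.d w z) ^ (al - 2) * (T.d w z / R) * (R * T.d w z ^ (T.n + 1 + 1)) := by gcongr
      _ = _ := by
        rw [mul_pow]
        field_simp
  calc ∫⁻ w in {w | R * T.s w ≤ T.d z w}, kk T (al - 1) (T.n + 1 + al) z w ∂T.V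
      ≤ ∫⁻ w in {w | R * T.s w ≤ T.d z w}, ENNReal.ofReal (2 ^ (al - 2) / R) *
        ENNReal.ofReal (1 / T.d w z ^ (T.n + 1 + 1)) ∂T.V := setLIntegral_mono' hms hpt
    _ ≤ ∫⁻ w in {w | T.s z / 2 ≤ T.d w z}, ENNReal.ofReal (2 ^ (al - 2) / R) *
        ENNReal.ofReal (1 / T.d w z ^ (T.n + 1 + 1)) ∂T.V := lintegral_mono_set hsub
    _ = ENNReal.ofReal (2 ^ (al - 2) / R) * ∫⁻ w in {w | T.s z / 2 ≤ T.d w z},
        ENNReal.ofReal (1 / T.d w z ^ (T.n + 1 + 1)) ∂T.V :=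
          lintegral_const_mul' _ _ ENNReal.ofReal_ne_top
    _ ≤ ENNReal.ofReal (2 ^ (al - 2) / R) * ENNReal.ofReal (C / (T.s z / 2) ^ 1) := by gcongr
    _ = _ := by
        rw [← ENNReal.ofReal_mul (by positivity), pow_one]
        congr 1
        field_simp

/-- column integrals -/
theorem k_col (T : TS X) (al : ℕ) (hal : 1 ≤ al) : ∃ C : ℝ, 0 < C ∧ ∀ (w : X) (R : ℝ),
    0 < T.s w → 0 < R →
    ∫⁻ z in {z | R * T.s w ≤ T.d z w}, kk T al (T.n + 1 + al) z w ∂T.V ≤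
      ENNReal.ofReal (C / R ^ al) := by
  obtain ⟨C, hC, h⟩ := frV T al hal
  refine ⟨C, hC, fun w R hw hR => ?_⟩
  have hρ : 0 < R * T.s w := by positivity
  have h1 := h w (R * T.s w) hρ
  calc ∫⁻ z in {z | R * T.s w ≤ T.d z w}, kk T al (T.n + 1 + al) z w ∂T.V
      = ∫⁻ z in {z | R * T.s w ≤ T.d z w}, ENNReal.ofReal (T.s w ^ al) *
        ENNReal.ofReal (1 / T.d z w ^ (T.n + 1 + al)) ∂T.V := by
        refine lintegral_congr fun z => ?_
        unfold kk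
        rw [← ENNReal.ofReal_mul (by positivity), mul_one_div]
    _ = ENNReal.ofReal (T.s w ^ al) * ∫⁻ z in {z | R * T.s w ≤ T.d z w},
        ENNReal.ofReal (1 / T.d z w ^ (T.n + 1 + al)) ∂T.V :=
          lintegral_const_mul' _ _ ENNReal.ofReal_ne_top
    _ ≤ ENNReal.ofReal (T.s w ^ al) * ENNReal.ofReal (C / (R * T.s w) ^ al) := by gcongr
    _ = _ := by
        rw [← ENNReal.ofReal_mul (by positivity), mul_pow]
        congr 1
        field_simp

/-- integral of a power of kap over V -/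
theorem int_kapV (T : TS X) (p : ℕ) (hp : T.n + 2 ≤ p) : ∃ C : ℝ, 0 < C ∧ ∀ w : X, 0 < T.s w →
    ∫⁻ z, ENNReal.ofReal (T.kap w z ^ p) ∂T.V ≤ ENNReal.ofReal (C * T.s w ^ (T.n + 1)) := by
  have hCV := T.CV_pos
  refine ⟨3 ^ p * (2 ^ (p + 1) * T.CV), by positivity, fun w hw => ?_⟩
  have h := T.tail T.V (T.n + 1) p (by omega) T.CV T.CV_pos.le w (T.s w) hw
    (fun r hr => T.V_le w r (by linarith))
  calc ∫⁻ z, ENNReal.ofReal (T.kap w z ^ p) ∂T.V
      ≤ ∫⁻ z, ENNReal.ofReal (3 ^ p) * ENNReal.ofReal ((T.s w / (T.s w + T.d z w)) ^ p) ∂T.V := by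
        apply lintegral_mono
        intro z
        simp only
        rw [← ENNReal.ofReal_mul (by positivity)]
        apply ENNReal.ofReal_le_ofReal
        rw [← mul_pow]
        exact pow_le_pow_left₀ (TS.kap_nonneg _ _) (T.kap_le_reg hw z) p
    _ = ENNReal.ofReal (3 ^ p) * ∫⁻ z, ENNReal.ofReal ((T.s w / (T.s w + T.d z w)) ^ p) ∂T.V :=
        lintegral_const_mul' _ _ ENNReal.ofReal_ne_top
    _ ≤ ENNReal.ofReal (3 ^ p) * ENNReal.ofReal (2 ^ (p + 1) * T.CV * T.s w ^ (T.n + 1)) := by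
        gcongr
    _ = _ := by
        rw [← ENNReal.ofReal_mul (by positivity)]; congr 1; ring

end RFE
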