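import Pool.Agent.Helper157.RF.E1
import Pool.Agent.Helper157.RF.E2
set_option autoImplicit false
open MeasureTheory Set Filter H262RU
open scoped ENNReal NNReal BigOperators

namespace RFE

variable {X : Type*} [MeasurableSpace X]


theorem partI_meas (T : TS X) (hd : Measurable (Function.uncurry T.d)) (p q : ℕ) :
    Measurable (Function.uncurry (kk T p q)) := by
  unfold kk
  apply Measurable.ennreal_ofReal
  exact ((T.s_meas.comp measurable_snd).pow_const p).div (hd.pow_const q)

theorem partI_sq (a b c : ℝ≥0∞) : (a + b + c) ^ 2 ≤ 9 * (a ^ 2 + b ^ 2 + c ^ 2) := by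
  have h1 : a + b + c ≤ 3 * max a (max b c) := by
    have e : (3 : ℝ≥0∞) * max a (max b c) = max a (max b c) + max a (max b c) + max a (max b c) := by
      ring
    rw [e]
    gcongr
    · exact le_max_left _ _
    · exact (le_max_left _ _).trans (le_max_right _ _)
    · exact (le_max_right _ _).trans (le_max_right _ _)
  have h2 : (max a (max b c)) ^ 2 ≤ a ^ 2 + b ^ 2 + c ^ 2 := by
    rcases max_choice a (max b c) with h | h
    · rw [h, add_assoc]; exact le_self_add
    · rw [h]
      rcases max_choice b c with h' | h'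
      · rw [h']
        calc b ^ 2 ≤ a ^ 2 + b ^ 2 := le_add_self
          _ ≤ _ := le_self_add
      · rw [h']; exact le_add_self
  calc (a + b + c) ^ 2 ≤ (3 * max a (max b c)) ^ 2 := by gcongr
    _ = 9 * (max a (max b c)) ^ 2 := by ring
    _ ≤ _ := by gcongr

theorem partI_add3 (μ : Measure X) (f g h : X → ℝ≥0∞) (hf : Measurable f) (hg : Measurable g)
    (hh : Measurable h) (a b c : ℝ≥0∞) :
    ∫⁻ w, (a * f w + b * g w + c * h w) ∂μ =
      a * ∫⁻ w, f w ∂μ + b * ∫⁻ w, g w ∂μ + c * ∫⁻ w, h w ∂μ := by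
  have m1 : Measurable (fun w => a * f w) := hf.const_mul a
  have m2 : Measurable (fun w => b * g w) := hg.const_mul b
  have m12 : Measurable (fun w => a * f w + b * g w) := m1.add m2
  rw [lintegral_add_left m12, lintegral_add_left m1, lintegral_const_mul _ hf,
    lintegral_const_mul _ hg, lintegral_const_mul _ hh]

theorem partI_gen (T : TS X) (hd : Measurable (Function.uncurry T.d))
    (hV : ∀ᵐ w ∂T.V, 0 < T.s w) (al : ℕ) (hal : 1 ≤ al) (P : X → X → Prop)
    [∀ z w, Decidable (P z w)]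
    (hP : MeasurableSet {q : X × X | P q.1 q.2}) (c1 c2 : ℝ)
    (hrow : ∀ z, 0 < T.s z → ∫⁻ w in {w | P z w}, kk T (al - 1) (T.n + 1 + al) z w ∂T.V ≤
      ENNReal.ofReal (c1 / T.s z))
    (hcol : ∀ w, 0 < T.s w → ∫⁻ z in {z | P z w}, kk T al (T.n + 1 + al) z w ∂T.V ≤
      ENNReal.ofReal c2)
    (y : X → ℝ≥0∞) (hy : Measurable y) :
    ∫⁻ z, ENNReal.ofReal (T.s z) *
        (∫⁻ w, (if P z w then kk T al (T.n + 1 + al) z w else 0) * y w ∂T.V) ^ 2 ∂T.V ≤
      ENNReal.ofReal c1 * ENNReal.ofReal c2 * nrm T y := by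
  have hs : Measurable (fun z => ENNReal.ofReal (T.s z)) := T.s_meas.ennreal_ofReal
  have hK : Measurable (Function.uncurry
      (fun z w => if P z w then kk T al (T.n + 1 + al) z w else 0)) := by
    exact Measurable.ite hP (partI_meas T hd al (T.n + 1 + al)) measurable_const
  have hPz : ∀ z, MeasurableSet {w | P z w} := fun z =>
    measurable_prodMk_left (x := z) hP
  have hPw : ∀ w, MeasurableSet {z | P z w} := fun w =>
    measurable_prodMk_right (y := w) hP
  unfold nrm
  refine schurW T.V T.V (fun z w => if P z w then kk T al (T.n + 1 + al) z w else 0) hK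
    (fun z => ENNReal.ofReal (T.s z)) (fun z => (ENNReal.ofReal (T.s z))⁻¹)
    (fun z => (ENNReal.ofReal (T.s z))⁻¹) (fun z => ENNReal.ofReal (T.s z)) hs hs.inv hs.inv hs
    ?_ ?_ _ _ ?_ ?_ y hy
  · exact Eventually.of_forall fun z => ENNReal.inv_ne_zero.2 ENNReal.ofReal_ne_top
  · filter_upwards [hV] with z hz
    rw [Ne, ENNReal.inv_eq_top, ENNReal.ofReal_eq_zero, not_le]
    exact hz
  · filter_upwards [hV] with z hz
    have e1 : ∫⁻ w, (if P z w then kk T al (T.n + 1 + al) z w else 0) *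
        (ENNReal.ofReal (T.s w))⁻¹ ∂T.V =
        ∫⁻ w in {w | P z w}, kk T (al - 1) (T.n + 1 + al) z w ∂T.V := by
      rw [← lintegral_indicator (hPz z)]
      apply lintegral_congr_ae
      filter_upwards [hV] with w hw
      by_cases h : P z w
      · rw [if_pos h, indicator_of_mem (by exact h)]
        unfold kk
        rw [← ENNReal.ofReal_inv_of_pos hw, ← ENNReal.ofReal_mul (by
          have := T.d_nonneg z w
          positivity)]
        congr 1
        obtain ⟨k, rfl⟩ : ∃ k, al = k + 1 := ⟨al - 1, by omega⟩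
        simp only [Nat.add_sub_cancel]
        field_simp
        ring
      · rw [if_neg h, indicator_of_notMem (by exact h), zero_mul]
    rw [e1]
    refine (hrow z hz).trans (le_of_eq ?_)
    rw [ENNReal.ofReal_div_of_pos hz, div_eq_mul_inv]
  · filter_upwards [hV] with w hw
    have e1 : ∫⁻ z, (if P z w then kk T al (T.n + 1 + al) z w else 0) *
        ((ENNReal.ofReal (T.s z))⁻¹ * ENNReal.ofReal (T.s z)) ∂T.V =
        ∫⁻ z in {z | P z w}, kk T al (T.n + 1 + al) z w ∂T.V := by
      rw [← lintegral_indicator (hPw w)]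
      apply lintegral_congr_ae
      filter_upwards [hV] with z hz
      rw [ENNReal.inv_mul_cancel (by simpa using hz) ENNReal.ofReal_ne_top, mul_one]
      by_cases h : P z w
      · rw [if_pos h, indicator_of_mem (by exact h)]
      · rw [if_neg h, indicator_of_notMem (by exact h)]
    rw [e1, ENNReal.inv_mul_cancel (by simpa using hw) ENNReal.ofReal_ne_top, mul_one]
    exact hcol w hw

/-- TARGET: part I with a bounded multiplier `χ` that is small on near pairs -/
theorem partI (T : TS X) (hd : Measurable (Function.uncurry T.d))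
    (hV : ∀ᵐ w ∂T.V, 0 < T.s w) (al : ℕ) (hal : 2 ≤ al) : ∃ C : ℝ, 0 < C ∧
    ∀ (χ : X → X → ℝ≥0∞), Measurable (Function.uncurry χ) → ∀ (B ε : ℝ≥0∞) (R : ℝ), 1 ≤ R →
    (∀ z w, 0 < T.s z → 0 < T.s w → χ z w ≤ B) →
    (∀ z w, 0 < T.s z → 0 < T.s w → T.d z w < R * T.s z → T.d z w < R * T.s w → χ z w ≤ ε) →
    ∀ y : X → ℝ≥0∞, Measurable y →
    ∫⁻ z, ENNReal.ofReal (T.s z) *
        (∫⁻ w, kk T al (T.n + 1 + al) z w * χ z w * y w ∂T.V) ^ 2 ∂T.V ≤
      ENNReal.ofReal C * (ε ^ 2 + B ^ 2 * ENNReal.ofReal (1 / R)) * nrm T y := by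
  obtain ⟨Cr, hCr, hr⟩ := k_row T al (by omega)
  obtain ⟨Cr', hCr', hr'⟩ := k_row' T al hal
  obtain ⟨Cc, hCc, hc⟩ := k_col T al (by omega)
  have hD : 0 < Cc * 2 ^ al := by positivity
  refine ⟨9 * (Cc * 2 ^ al) * (2 * Cr) + 9 * (Cc * 2 ^ al) * Cr + 9 * (Cc * 2 ^ al) * Cr',
    by positivity, ?_⟩
  intro χ hχ B ε R hR hB hε y hy
  have hR0 : 0 < R := by linarith
  have hcol : ∀ (P : X → X → Prop) (w : X), 0 < T.s w →
      ∫⁻ z in {z | P z w}, kk T al (T.n + 1 + al) z w ∂T.V ≤ ENNReal.ofReal (Cc * 2 ^ al) := by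
    intro P w hw
    have h1 := hc w (1 / 2) hw (by norm_num)
    have e : Cc / (1 / 2) ^ al = Cc * 2 ^ al := by
      rw [div_pow, one_pow]
      field_simp
    rw [e] at h1
    refine (lintegral_mono_set ?_).trans h1
    intro z _
    have := T.s_le' z w
    simp only [mem_ofPred_eq]
    linarith
  set K : X → X → ℝ≥0∞ := fun z w => kk T al (T.n + 1 + al) z w with hK
  have g1 := partI_gen T hd hV al (by omega) (fun _ _ => True) MeasurableSet.univ (2 * Cr)
    (Cc * 2 ^ al) (by
      intro z hz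
      have h1 := hr z (1 / 2) hz (by norm_num)
      have e : Cr / (1 / 2 * T.s z) = 2 * Cr / T.s z := by field_simp
      rw [e] at h1
      refine (lintegral_mono_set ?_).trans h1
      intro w _
      have := T.s_le z w
      simp only [mem_ofPred_eq]
      linarith) (hcol _) y hy
  have m2 : MeasurableSet {q : X × X | R * T.s q.1 ≤ T.d q.1 q.2} :=
    measurableSet_le ((T.s_meas.comp measurable_fst).const_mul R) hd
  have m3 : MeasurableSet {q : X × X | R * T.s q.2 ≤ T.d q.1 q.2} :=
    measurableSet_le ((T.s_meas.comp measurable_snd).const_mul R) hd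
  have g2 := partI_gen T hd hV al (by omega) (fun z w => R * T.s z ≤ T.d z w) m2 (Cr / R)
    (Cc * 2 ^ al) (by
      intro z hz
      have h1 := hr z R hz hR0
      have e : Cr / (R * T.s z) = Cr / R / T.s z := by field_simp
      rw [e] at h1
      exact h1) (hcol _) y hy
  have g3 := partI_gen T hd hV al (by omega) (fun z w => R * T.s w ≤ T.d z w) m3 (Cr' / R)
    (Cc * 2 ^ al) (by
      intro z hz
      have h1 := hr' z R hz hR
      have e : Cr' / (R * T.s z) = Cr' / R / T.s z := by field_simp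
      rw [e] at h1
      exact h1) (hcol _) y hy
  have mK : Measurable (Function.uncurry K) := partI_meas T hd al (T.n + 1 + al)
  have mk1 : Measurable (Function.uncurry (fun z w => (if True then K z w else 0) * y w)) := by
    simp only [if_true]
    exact mK.mul (hy.comp measurable_snd)
  have mk2 : Measurable (Function.uncurry
      (fun z w => (if R * T.s z ≤ T.d z w then K z w else 0) * y w)) :=
    (Measurable.ite m2 mK measurable_const).mul (hy.comp measurable_snd)
  have mk3 : Measurable (Function.uncurry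
      (fun z w => (if R * T.s w ≤ T.d z w then K z w else 0) * y w)) :=
    (Measurable.ite m3 mK measurable_const).mul (hy.comp measurable_snd)
  have mz : ∀ {f : X → X → ℝ≥0∞}, Measurable (Function.uncurry f) → ∀ z, Measurable (f z) :=
    fun hf z => hf.comp measurable_prodMk_left
  set I1 : X → ℝ≥0∞ := fun z => ∫⁻ w, (if True then K z w else 0) * y w ∂T.V with hI1
  set I2 : X → ℝ≥0∞ := fun z => ∫⁻ w, (if R * T.s z ≤ T.d z w then K z w else 0) * y w ∂T.V
    with hI2
  set I3 : X → ℝ≥0∞ := fun z => ∫⁻ w, (if R * T.s w ≤ T.d z w then K z w else 0) * y w ∂T.V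
    with hI3
  have mI1 : Measurable I1 := mk1.lintegral_prod_right'
  have mI2 : Measurable I2 := mk2.lintegral_prod_right'
  have mI3 : Measurable I3 := mk3.lintegral_prod_right'
  have hs : Measurable (fun z => ENNReal.ofReal (T.s z)) := T.s_meas.ennreal_ofReal
  have hpt : ∀ z, 0 < T.s z → ∫⁻ w, K z w * χ z w * y w ∂T.V ≤
      ε * I1 z + B * I2 z + B * I3 z := by
    intro z hz
    have e0 := partI_add3 T.V _ _ _ (mz mk1 z) (mz mk2 z) (mz mk3 z) ε B B
    refine le_trans ?_ (le_of_eq e0)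
    apply lintegral_mono_ae
    filter_upwards [hV] with w hw
    by_cases c1 : R * T.s z ≤ T.d z w
    · calc K z w * χ z w * y w ≤ K z w * B * y w := by
            gcongr
            exact hB z w hz hw
        _ = B * ((if R * T.s z ≤ T.d z w then K z w else 0) * y w) := by
            rw [if_pos c1]; ring
        _ ≤ ε * ((if True then K z w else 0) * y w) +
            B * ((if R * T.s z ≤ T.d z w then K z w else 0) * y w) := le_add_self
        _ ≤ _ := le_self_add
    · by_cases c2 : R * T.s w ≤ T.d z w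
      · calc K z w * χ z w * y w ≤ K z w * B * y w := by
              gcongr
              exact hB z w hz hw
          _ = B * ((if R * T.s w ≤ T.d z w then K z w else 0) * y w) := by
              rw [if_pos c2]; ring
          _ ≤ _ := le_add_self
      · calc K z w * χ z w * y w ≤ K z w * ε * y w := by
              gcongr
              exact hε z w hz hw (not_le.1 c1) (not_le.1 c2)
          _ = ε * ((if True then K z w else 0) * y w) := by
              rw [if_pos trivial]; ring
          _ ≤ ε * ((if True then K z w else 0) * y w) +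
            B * ((if R * T.s z ≤ T.d z w then K z w else 0) * y w) := le_self_add
          _ ≤ _ := le_self_add
  have hfin : ∫⁻ z, ENNReal.ofReal (T.s z) * (∫⁻ w, K z w * χ z w * y w ∂T.V) ^ 2 ∂T.V ≤
      9 * ε ^ 2 * (∫⁻ z, ENNReal.ofReal (T.s z) * I1 z ^ 2 ∂T.V) +
      9 * B ^ 2 * (∫⁻ z, ENNReal.ofReal (T.s z) * I2 z ^ 2 ∂T.V) +
      9 * B ^ 2 * (∫⁻ z, ENNReal.ofReal (T.s z) * I3 z ^ 2 ∂T.V) := by
    have e0 := partI_add3 T.V (fun z => ENNReal.ofReal (T.s z) * I1 z ^ 2)
      (fun z => ENNReal.ofReal (T.s z) * I2 z ^ 2) (fun z => ENNReal.ofReal (T.s z) * I3 z ^ 2)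
      (hs.mul (mI1.pow_const 2)) (hs.mul (mI2.pow_const 2)) (hs.mul (mI3.pow_const 2))
      (9 * ε ^ 2) (9 * B ^ 2) (9 * B ^ 2)
    refine le_trans ?_ (le_of_eq e0)
    apply lintegral_mono_ae
    filter_upwards [hV] with z hz
    calc ENNReal.ofReal (T.s z) * (∫⁻ w, K z w * χ z w * y w ∂T.V) ^ 2 ≤
          ENNReal.ofReal (T.s z) * (ε * I1 z + B * I2 z + B * I3 z) ^ 2 := by
          gcongr
          exact hpt z hz
      _ ≤ ENNReal.ofReal (T.s z) * (9 * ((ε * I1 z) ^ 2 + (B * I2 z) ^ 2 + (B * I3 z) ^ 2)) := by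
          gcongr
          exact partI_sq _ _ _
      _ = _ := by ring
  refine hfin.trans ?_
  have e2 : ENNReal.ofReal (Cr / R) = ENNReal.ofReal Cr * ENNReal.ofReal (1 / R) := by
    rw [← ENNReal.ofReal_mul hCr.le]
    congr 1
    ring
  have e3 : ENNReal.ofReal (Cr' / R) = ENNReal.ofReal Cr' * ENNReal.ofReal (1 / R) := by
    rw [← ENNReal.ofReal_mul hCr'.le]
    congr 1
    ring
  rw [e2] at g2
  rw [e3] at g3
  have e9 : ENNReal.ofReal 9 = 9 := by simp
  have eC : ENNReal.ofReal (9 * (Cc * 2 ^ al) * (2 * Cr) + 9 * (Cc * 2 ^ al) * Cr +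
      9 * (Cc * 2 ^ al) * Cr') = 9 * ENNReal.ofReal (Cc * 2 ^ al) * ENNReal.ofReal (2 * Cr) +
      9 * ENNReal.ofReal (Cc * 2 ^ al) * ENNReal.ofReal Cr +
      9 * ENNReal.ofReal (Cc * 2 ^ al) * ENNReal.ofReal Cr' := by
    rw [ENNReal.ofReal_add (by positivity) (by positivity),
      ENNReal.ofReal_add (by positivity) (by positivity),
      ENNReal.ofReal_mul (by positivity), ENNReal.ofReal_mul (p := 9) (by positivity),
      ENNReal.ofReal_mul (p := 9 * (Cc * 2 ^ al)) (q := Cr) (by positivity),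
      ENNReal.ofReal_mul (p := 9) (by positivity),
      ENNReal.ofReal_mul (p := 9 * (Cc * 2 ^ al)) (q := Cr') (by positivity),
      ENNReal.ofReal_mul (p := 9) (by positivity), e9]
  rw [eC]
  set u := ENNReal.ofReal (Cc * 2 ^ al)
  set a := ENNReal.ofReal (2 * Cr)
  set b := ENNReal.ofReal Cr
  set c := ENNReal.ofReal Cr'
  set ρ := ENNReal.ofReal (1 / R)
  set N := nrm T y
  calc 9 * ε ^ 2 * (∫⁻ z, ENNReal.ofReal (T.s z) * I1 z ^ 2 ∂T.V) +
      9 * B ^ 2 * (∫⁻ z, ENNReal.ofReal (T.s z) * I2 z ^ 2 ∂T.V) +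
      9 * B ^ 2 * (∫⁻ z, ENNReal.ofReal (T.s z) * I3 z ^ 2 ∂T.V) ≤
      9 * ε ^ 2 * (a * u * N) + 9 * B ^ 2 * (b * ρ * u * N) + 9 * B ^ 2 * (c * ρ * u * N) :=
        add_le_add (add_le_add (mul_le_mul' le_rfl g1) (mul_le_mul' le_rfl g2))
          (mul_le_mul' le_rfl g3)
    _ ≤ (9 * ε ^ 2 * (a * u * N) + 9 * B ^ 2 * (b * ρ * u * N) + 9 * B ^ 2 * (c * ρ * u * N)) +
        (9 * B ^ 2 * ρ * (a * u * N) + 9 * ε ^ 2 * (b * u * N) + 9 * ε ^ 2 * (c * u * N)) :=
        le_self_add
    _ = _ := by ring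

end RFE
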