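import Pool.Agent.Helper157.RF.E2
set_option autoImplicit false
open MeasureTheory Set Filter H262RU
open scoped ENNReal NNReal BigOperators

namespace RFE

variable {X : Type*} [MeasurableSpace X]

section facts
variable (T : TS X) {ι : Type} [Fintype ι] {b m : ℕ} {C0 : ℝ} {W : ι → X} {A : ι → ℝ}
  {own : X → ι}

theorem aw_pos (hF : Fam T b m C0 W A own) (z : X) : 0 < aw T b W A z := by
  unfold aw
  exact Finset.sum_pos (fun i _ => mul_pos (hF.A_pos i) (pow_pos (TS.kap_pos (hF.s_pos i) z) b))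
    ⟨own z, Finset.mem_univ _⟩

theorem om_nonneg (hF : Fam T b m C0 W A own) (l : ι) (z : X) : 0 ≤ om T b m W A l z := by
  unfold om
  exact div_nonneg (mul_nonneg (hF.A_pos l).le (pow_nonneg (TS.kap_nonneg _ _) _))
    (aw_pos T hF z).le

/-- if only boxes with `kap ≤ κ0` are counted -/
theorem sum_om_small_aux (hF : Fam T b m C0 W A own) (hm : b ≤ m) (κ0 : ℝ) (hκ : 0 ≤ κ0)
    (S : Finset ι) (z : X) (hS : ∀ l ∈ S, T.kap (W l) z ≤ κ0) :
    ∑ l ∈ S, om T b m W A l z ≤ κ0 ^ (m - b) := by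
  have ha := aw_pos T hF z
  unfold om
  rw [← Finset.sum_div, div_le_iff₀ ha]
  calc ∑ i ∈ S, A i * T.kap (W i) z ^ m ≤ ∑ i ∈ S, κ0 ^ (m - b) * (A i * T.kap (W i) z ^ b) := by
        refine Finset.sum_le_sum fun i hi => ?_
        have h1 : T.kap (W i) z ^ m = T.kap (W i) z ^ (m - b) * T.kap (W i) z ^ b := by
          rw [← pow_add]; congr 1; omega
        have h2 : T.kap (W i) z ^ (m - b) ≤ κ0 ^ (m - b) :=
          pow_le_pow_left₀ (TS.kap_nonneg _ _) (hS i hi) _
        rw [h1]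
        have h3 : 0 ≤ A i * T.kap (W i) z ^ b :=
          mul_nonneg (hF.A_pos i).le (pow_nonneg (TS.kap_nonneg _ _) _)
        calc A i * (T.kap (W i) z ^ (m - b) * T.kap (W i) z ^ b)
            = T.kap (W i) z ^ (m - b) * (A i * T.kap (W i) z ^ b) := by ring
          _ ≤ _ := mul_le_mul_of_nonneg_right h2 h3
    _ = κ0 ^ (m - b) * ∑ i ∈ S, (A i * T.kap (W i) z ^ b) := by rw [Finset.mul_sum]
    _ ≤ κ0 ^ (m - b) * aw T b W A z := by
        refine mul_le_mul_of_nonneg_left ?_ (pow_nonneg hκ _)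
        unfold aw
        exact Finset.sum_le_sum_of_subset_of_nonneg (Finset.subset_univ S) fun i _ _ =>
          mul_nonneg (hF.A_pos i).le (pow_nonneg (TS.kap_nonneg _ _) _)

theorem om_le_kap (hF : Fam T b m C0 W A own) (hm : b ≤ m) (l : ι) (z : X) :
    om T b m W A l z ≤ T.kap (W l) z ^ (m - b) := by
  have := sum_om_small_aux T hF hm (T.kap (W l) z) (TS.kap_nonneg _ _) {l} z
    (by intro i hi; rw [Finset.mem_singleton.1 hi])
  simpa using this

theorem sum_om_le (hF : Fam T b m C0 W A own) (hm : b ≤ m) (z : X) :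
    ∑ l, om T b m W A l z ≤ 2 ^ (m - b) :=
  sum_om_small_aux T hF hm 2 (by norm_num) Finset.univ z fun l _ => TS.kap_le_two _ _

/-- if only boxes with `kap ≤ κ0` are counted -/
theorem sum_om_small (hF : Fam T b m C0 W A own) (hm : b ≤ m) (κ0 : ℝ) (hκ : 0 ≤ κ0)
    (S : Finset ι) (z : X) (hS : ∀ l ∈ S, T.kap (W l) z ≤ κ0) :
    ∑ l ∈ S, om T b m W A l z ≤ κ0 ^ (m - b) :=
  sum_om_small_aux T hF hm κ0 hκ S z hS

theorem om_meas (b m : ℕ) (W : ι → X) (A : ι → ℝ) (l : ι) :
    Measurable (fun z => om T b m W A l z) := by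
  have hk : ∀ i, Measurable fun z => T.kap (W i) z := by
    intro i
    unfold TS.kap
    exact measurable_const.div (T.d_meas (W i))
  unfold om aw
  exact (measurable_const.mul ((hk l).pow_const m)).div
    (Finset.measurable_sum _ fun i _ => measurable_const.mul ((hk i).pow_const b))

end facts


/-- integral of `om_l (K_l + r) s / d^2` -/
theorem int_om (T : TS X) (b m : ℕ) (hm : b + T.n + 2 ≤ m) : ∃ C : ℝ, 0 < C ∧
    ∀ (ι : Type) [Fintype ι] (C0 : ℝ) (W : ι → X) (A : ι → ℝ) (own : X → ι),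
    Fam T b m C0 W A own → ∀ (l : ι) (r : ℝ), 0 ≤ r →
    ∫⁻ z, ENNReal.ofReal (om T b m W A l z * (T.d z (W l) / T.s (W l) + r) /
      T.d z (W l) ^ 2 * T.s z) ∂T.V ≤ ENNReal.ofReal (C * (1 + r) * T.s (W l) ^ T.n) := by
  obtain ⟨C, hC, hI⟩ := int_kapV T (m - b) (by omega)
  refine ⟨4 * C, by positivity, ?_⟩
  intro ι _ C0 W A own hF l r hr
  have hs := hF.s_pos l
  set c : ℝ := 4 * (1 + r) / T.s (W l) with hc
  have hc0 : 0 ≤ c := by positivity
  calc ∫⁻ z, ENNReal.ofReal (om T b m W A l z * (T.d z (W l) / T.s (W l) + r) /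
      T.d z (W l) ^ 2 * T.s z) ∂T.V
      ≤ ∫⁻ z, ENNReal.ofReal c * ENNReal.ofReal (T.kap (W l) z ^ (m - b)) ∂T.V := by
        refine lintegral_mono fun z => ?_
        rw [← ENNReal.ofReal_mul hc0]
        refine ENNReal.ofReal_le_ofReal ?_
        have hd := TS.d_pos hs z
        have h1 : T.s z ≤ 2 * T.d z (W l) := T.s_le z (W l)
        have h2 : T.s (W l) ≤ 2 * T.d z (W l) := T.s_le' z (W l)
        have h3 := om_le_kap T hF (by omega) l z
        have h4 := om_nonneg T hF l z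
        have h5 : (T.d z (W l) / T.s (W l) + r) / T.d z (W l) ^ 2 * T.s z ≤ c := by
          have e1 : (T.d z (W l) / T.s (W l) + r) / T.d z (W l) ^ 2 * T.s z ≤
              (T.d z (W l) / T.s (W l) + r) / T.d z (W l) ^ 2 * (2 * T.d z (W l)) :=
            mul_le_mul_of_nonneg_left h1 (by positivity)
          have e2 : (T.d z (W l) / T.s (W l) + r) / T.d z (W l) ^ 2 * (2 * T.d z (W l)) =
              2 / T.s (W l) + 2 * r / T.d z (W l) := by
            field_simp
          have e3 : 2 * r / T.d z (W l) ≤ 4 * r / T.s (W l) := by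
            rw [div_le_div_iff₀ hd hs]
            nlinarith
          have e4 : c = 4 / T.s (W l) + 4 * r / T.s (W l) := by
            rw [hc]; ring
          have e5 : 2 / T.s (W l) ≤ 4 / T.s (W l) :=
            div_le_div_of_nonneg_right (by norm_num) hs.le
          linarith
        have h6 : 0 ≤ (T.d z (W l) / T.s (W l) + r) / T.d z (W l) ^ 2 * T.s z :=
          mul_nonneg (by positivity) (T.s_nonneg z)
        calc om T b m W A l z * (T.d z (W l) / T.s (W l) + r) / T.d z (W l) ^ 2 * T.s z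
            = om T b m W A l z * ((T.d z (W l) / T.s (W l) + r) / T.d z (W l) ^ 2 * T.s z) := by
              ring
          _ ≤ T.kap (W l) z ^ (m - b) * c :=
              mul_le_mul h3 h5 h6 (pow_nonneg (TS.kap_nonneg _ _) _)
          _ = c * T.kap (W l) z ^ (m - b) := mul_comm _ _
    _ = ENNReal.ofReal c * ∫⁻ z, ENNReal.ofReal (T.kap (W l) z ^ (m - b)) ∂T.V :=
        lintegral_const_mul' _ _ ENNReal.ofReal_ne_top
    _ ≤ ENNReal.ofReal c * ENNReal.ofReal (C * T.s (W l) ^ (T.n + 1)) :=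
        mul_le_mul_right (hI (W l) hs) _
    _ = ENNReal.ofReal (4 * C * (1 + r) * T.s (W l) ^ T.n) := by
        rw [← ENNReal.ofReal_mul hc0]
        congr 1
        rw [hc]
        field_simp
        ring

end RFE
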