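import Pool.Agent.Helper157.RF.EDefs
set_option autoImplicit false
open MeasureTheory Set Filter H262RU
open scoped ENNReal NNReal BigOperators

namespace RFE

variable {X : Type*} [MeasurableSpace X]

/-- sum of a lacunary finite family -/
theorem lac_sum {ι : Type*} (S : Finset ι) (f : ι → ℝ) (P : ℝ) (hP : 2 ≤ P) (Mx : ℝ)
    (hM0 : 0 ≤ Mx) (h0 : ∀ i ∈ S, 0 < f i) (hM : ∀ i ∈ S, f i ≤ Mx)
    (hsep : ∀ i ∈ S, ∀ j ∈ S, i ≠ j → P * f i < f j ∨ P * f j < f i) :
    ∑ i ∈ S, f i ≤ 2 * Mx := by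
  classical
  induction S using Finset.strongInduction generalizing Mx with
  | H S ih =>
    rcases S.eq_empty_or_nonempty with he | hne
    · rw [he, Finset.sum_empty]
      positivity
    · obtain ⟨i0, hi0, hmax⟩ := Finset.exists_max_image S f hne
      have hf0 := h0 i0 hi0
      have h1 : ∀ j ∈ S.erase i0, f j ≤ f i0 / 2 := by
        intro j hj
        have hjS := Finset.mem_of_mem_erase hj
        have hne' := Finset.ne_of_mem_erase hj
        have hfj := h0 j hjS
        rcases hsep j hjS i0 hi0 hne' with h | h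
        · nlinarith
        · have := hmax j hjS
          nlinarith
      have h2 := ih (S.erase i0) (Finset.erase_ssubset hi0) (f i0 / 2) (by positivity)
        (fun i hi => h0 i (Finset.mem_of_mem_erase hi)) h1
        (fun i hi j hj hij => hsep i (Finset.mem_of_mem_erase hi) j (Finset.mem_of_mem_erase hj) hij)
      rw [← Finset.add_sum_erase S f hi0]
      have := hM i0 hi0
      linarith

/-- column sums over the boxes -/
theorem col_sum (T : TS X) (al : ℕ) (hal : 1 ≤ al) (C0 : ℝ) : ∃ C : ℝ, 0 < C ∧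
    ∀ (ι : Type) [Fintype ι] (W : ι → X),
    (∀ i, 0 < T.s (W i)) →
    (∀ (z : X) (ρ : ℝ), 0 < ρ →
      ∑ l ∈ Finset.univ.filter (fun l => T.d (W l) z < ρ), T.s (W l) ^ T.n ≤ C0 * ρ ^ T.n) →
    ∀ w, 0 < T.s w →
    ∑ l, T.s (W l) ^ T.n * (T.s w ^ al / T.d w (W l) ^ (T.n + al)) ≤ C := by
  classical
  refine ⟨max C0 0 * 2 ^ (T.n + al) * 2 + 1, by positivity, ?_⟩
  intro ι _ W hW hcarl w hw
  obtain ⟨h, hh⟩ : ∃ h, h = T.s w / 2 := ⟨_, rfl⟩
  have hh0 : 0 < h := by rw [hh]; positivity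
  have hsw : T.s w = 2 * h := by rw [hh]; ring
  have hD : ∀ l, h ≤ T.d w (W l) := by
    intro l
    have := T.s_le w (W l)
    rw [hh]
    linarith
  have hex : ∀ l, ∃ j : ℕ, 2 ^ j * h ≤ T.d w (W l) ∧ T.d w (W l) < 2 ^ (j + 1) * h := by
    intro l
    have h1 : 1 ≤ T.d w (W l) / h := by
      rw [le_div_iff₀ hh0, one_mul]
      exact hD l
    obtain ⟨j, hj1, hj2⟩ := exists_nat_pow_near h1 (one_lt_two)
    rw [le_div_iff₀ hh0] at hj1
    rw [div_lt_iff₀ hh0] at hj2
    exact ⟨j, hj1, hj2⟩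
  choose jj hj1 hj2 using hex
  obtain ⟨J, hJ⟩ : ∃ J, J = Finset.univ.sup jj + 1 := ⟨_, rfl⟩
  have hmaps : ∀ l ∈ (Finset.univ : Finset ι), jj l ∈ Finset.range J := by
    intro l _
    rw [Finset.mem_range, hJ]
    exact Nat.lt_succ_of_le (Finset.le_sup (f := jj) (Finset.mem_univ l))
  rw [← Finset.sum_fiberwise_of_maps_to hmaps]
  have hC0 : 0 ≤ max C0 0 := le_max_right _ _
  have hstep : ∀ j ∈ Finset.range J,
      ∑ l ∈ Finset.univ.filter (fun l => jj l = j),
        T.s (W l) ^ T.n * (T.s w ^ al / T.d w (W l) ^ (T.n + al)) ≤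
      max C0 0 * 2 ^ (T.n + al) * (1 / 2 : ℝ) ^ j := by
    intro j _
    have hpos : 0 < 2 ^ j * h := by positivity
    have h1 : ∑ l ∈ Finset.univ.filter (fun l => jj l = j),
        T.s (W l) ^ T.n * (T.s w ^ al / T.d w (W l) ^ (T.n + al)) ≤
        ∑ l ∈ Finset.univ.filter (fun l => jj l = j),
        T.s (W l) ^ T.n * (T.s w ^ al / (2 ^ j * h) ^ (T.n + al)) := by
      refine Finset.sum_le_sum (fun l hl => ?_)
      rw [Finset.mem_filter] at hl
      have h2 := hj1 l
      rw [hl.2] at h2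
      have h3 := hW l
      gcongr
    have h2 : ∑ l ∈ Finset.univ.filter (fun l => jj l = j),
        T.s (W l) ^ T.n * (T.s w ^ al / (2 ^ j * h) ^ (T.n + al)) =
        (T.s w ^ al / (2 ^ j * h) ^ (T.n + al)) *
          ∑ l ∈ Finset.univ.filter (fun l => jj l = j), T.s (W l) ^ T.n := by
      rw [Finset.mul_sum]
      exact Finset.sum_congr rfl (fun l _ => mul_comm _ _)
    have h3 : ∑ l ∈ Finset.univ.filter (fun l => jj l = j), T.s (W l) ^ T.n ≤
        ∑ l ∈ Finset.univ.filter (fun l => T.d (W l) w < 2 ^ (j + 1) * h), T.s (W l) ^ T.n := by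
      refine Finset.sum_le_sum_of_subset_of_nonneg ?_ (fun l _ _ => by
        have := hW l
        positivity)
      intro l hl
      rw [Finset.mem_filter] at hl ⊢
      refine ⟨hl.1, ?_⟩
      have h4 := hj2 l
      rw [hl.2] at h4
      rw [T.d_symm]
      exact h4
    have h4 := hcarl w (2 ^ (j + 1) * h) (by positivity)
    have h5 : C0 * (2 ^ (j + 1) * h) ^ T.n ≤ max C0 0 * (2 ^ (j + 1) * h) ^ T.n :=
      mul_le_mul_of_nonneg_right (le_max_left _ _) (by positivity)
    have h6 : 0 ≤ T.s w ^ al / (2 ^ j * h) ^ (T.n + al) := by positivity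
    have h7 := mul_le_mul_of_nonneg_left ((h3.trans h4).trans h5) h6
    rw [h2] at h1
    refine (h1.trans h7).trans ?_
    have h8 : T.s w ^ al / (2 ^ j * h) ^ (T.n + al) * (max C0 0 * (2 ^ (j + 1) * h) ^ T.n) =
        max C0 0 * 2 ^ (T.n + al) * ((1 / 2 : ℝ) ^ j) ^ al := by
      rw [hsw, pow_add (2 ^ j * h), mul_pow, mul_pow (2 ^ j) h T.n, mul_pow (2 ^ j) h al,
        mul_pow (2 ^ (j + 1)) h T.n, pow_succ, mul_pow (2 ^ j) 2 T.n, pow_add, one_div, inv_pow,
        inv_pow]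
      field_simp
    rw [h8]
    have h9 : ((1 / 2 : ℝ) ^ j) ^ al ≤ (1 / 2 : ℝ) ^ j := by
      have h10 : (1 / 2 : ℝ) ^ j ≤ 1 := pow_le_one₀ (by norm_num) (by norm_num)
      exact pow_le_of_le_one (by positivity) h10 (by omega)
    exact mul_le_mul_of_nonneg_left h9 (by positivity)
  refine (Finset.sum_le_sum hstep).trans ?_
  rw [← Finset.mul_sum]
  have hgeo : ∑ j ∈ Finset.range J, (1 / 2 : ℝ) ^ j ≤ 2 := by
    have h1 : Summable (fun j : ℕ => (1 / 2 : ℝ) ^ j) :=
      summable_geometric_of_lt_one (by norm_num) (by norm_num)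
    have h2 := h1.sum_le_tsum (Finset.range J) (fun j _ => by positivity)
    rw [tsum_geometric_two] at h2
    exact h2
  have h11 := mul_le_mul_of_nonneg_left hgeo
    (show 0 ≤ max C0 0 * 2 ^ (T.n + al) by positivity)
  linarith

end RFE
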