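import Pool.Agent.Helper157.RF.E4
import Pool.Agent.Helper157.RF.E5
set_option autoImplicit false
open MeasureTheory Set Filter H262RU
open scoped ENNReal NNReal BigOperators

namespace RFE

variable {X : Type*} [MeasurableSpace X]


/-- TARGET -/
theorem chi_small (T : TS X) (b m : ℕ) (hb : 1 ≤ b) (hm : b + 1 ≤ m) (C0 : ℝ) (hC0 : 1 ≤ C0)
    (R : ℝ) (hR : 1 ≤ R) (ε : ℝ) (hε : 0 < ε) : ∃ P0 K0 : ℝ, 1 ≤ P0 ∧ 1 ≤ K0 ∧
    ∀ (ι κ : Type) [Fintype ι] [DecidableEq ι] [DecidableEq κ] (W : ι → X) (A : ι → ℝ)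
      (own : X → ι) (col : ι → κ), Fam T b m C0 W A own →
      ∀ P K2 : ℝ, P0 ≤ P → K0 ≤ K2 → Sep T W A col P K2 →
      ∀ z w, 0 < T.s z → 0 < T.s w → T.d z w < R * T.s z → T.d z w < R * T.s w →
        chi T b m W A own col z w ≤ ENNReal.ofReal ε := by
  classical
  -- constants
  set c0 : ℝ := 4 * (2 * R + 1) with hc0
  have hc0p : 1 ≤ c0 := by rw [hc0]; linarith
  set c1 : ℝ := c0 ^ b with hc1
  have hc1p : 1 ≤ c1 := one_le_pow₀ hc0p
  set R1 : ℝ := max 1 (2 / ε) with hR1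
  have hR1p : 1 ≤ R1 := le_max_left _ _
  have hR1e : 2 / ε ≤ R1 := le_max_right _ _
  have hR1i : 1 / R1 ≤ ε / 2 := by
    rw [div_le_iff₀ (by linarith)]
    rw [div_le_iff₀ hε] at hR1e
    linarith
  set c3 : ℝ := 4 * (2 * R * C0 + C0) with hc3
  have hc3p : 1 ≤ c3 := by rw [hc3]; nlinarith
  set c2 : ℝ := R1 ^ b * c1 * C0 with hc2
  have hR1b : 1 ≤ R1 ^ b := one_le_pow₀ hR1p
  set c4 : ℝ := 2 ^ (m + 2) * c1 * C0 ^ b / ε with hc4
  have hC0b : 1 ≤ C0 ^ b := one_le_pow₀ hC0
  refine ⟨max 2 (max c2 c4), 8 * (R1 + c3) + 1, le_trans (by norm_num) (le_max_left _ _), by linarith, ?_⟩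
  intro ι κ _ _ _ W A own col hF P K2 hP hK2 hSep z w hz hw hzw1 hzw2
  have hP2 : 2 ≤ P := (le_max_left _ _).trans hP
  have hPc2 : c2 ≤ P := ((le_max_left _ _).trans (le_max_right _ _)).trans hP
  have hPc4 : c4 ≤ P := ((le_max_right _ _).trans (le_max_right _ _)).trans hP
  have hPpos : 0 < P := by linarith
  set i := own w with hi
  have hsi : 0 < T.s (W i) := hF.s_pos i
  have hAi : 0 < A i := hF.A_pos i
  have hnear : T.d w (W i) ≤ C0 * T.s (W i) := hF.near w hw
  have hsw : T.s w ≤ 2 * C0 * T.s (W i) := by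
    have := T.s_le w (W i)
    linarith
  -- comparison
  have hcmp1 : ∀ j, T.kap (W j) w ≤ c0 * T.kap (W j) z := by
    intro j
    exact TS.kap_comp' (hF.s_pos j) (by linarith) hzw2.le
  have hcmp2 : ∀ j, T.kap (W j) z ≤ c0 * T.kap (W j) w := by
    intro j
    refine TS.kap_comp' (hF.s_pos j) (by linarith) ?_
    rw [T.d_symm]; exact hzw1.le
  have haw1 : aw T b W A w ≤ c1 * aw T b W A z := by
    unfold aw
    rw [Finset.mul_sum]
    apply Finset.sum_le_sum
    intro j _
    have h1 : T.kap (W j) w ^ b ≤ (c0 * T.kap (W j) z) ^ b :=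
      pow_le_pow_left₀ (TS.kap_nonneg _ _) (hcmp1 j) b
    rw [mul_pow] at h1
    have h2 := mul_le_mul_of_nonneg_left h1 (hF.A_pos j).le
    calc _ ≤ _ := h2
      _ = _ := by rw [hc1]; ring
  have haw2 : aw T b W A z ≤ c1 * aw T b W A w := by
    unfold aw
    rw [Finset.mul_sum]
    apply Finset.sum_le_sum
    intro j _
    have h1 : T.kap (W j) z ^ b ≤ (c0 * T.kap (W j) w) ^ b :=
      pow_le_pow_left₀ (TS.kap_nonneg _ _) (hcmp2 j) b
    rw [mul_pow] at h1
    have h2 := mul_le_mul_of_nonneg_left h1 (hF.A_pos j).le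
    calc _ ≤ _ := h2
      _ = _ := by rw [hc1]; ring
  have hawi : aw T b W A w ≤ C0 * A i := hF.a_le w hw
  have hazpos : 0 < aw T b W A z := aw_pos T hF z
  have hazle : aw T b W A z ≤ c1 * (C0 * A i) :=
    haw2.trans (mul_le_mul_of_nonneg_left hawi (by linarith))
  have hsingle : ∀ (j : ι) (y : X), A j * T.kap (W j) y ^ b ≤ aw T b W A y := by
    intro j y
    unfold aw
    exact Finset.single_le_sum (f := fun i => A i * T.kap (W i) y ^ b)
      (fun k _ => mul_nonneg (hF.A_pos k).le (pow_nonneg (TS.kap_nonneg _ _) _)) (Finset.mem_univ j)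
  have hkapi : 1 / C0 ≤ T.kap (W i) w := by
    unfold TS.kap
    rw [div_le_div_iff₀ (by linarith) (TS.d_pos hsi w)]
    linarith
  have hawlow : A i ≤ C0 ^ b * aw T b W A w := by
    have h1 : (1 / C0) ^ b ≤ T.kap (W i) w ^ b := pow_le_pow_left₀ (by positivity) hkapi b
    have h2 := hsingle i w
    have h3 : A i * (1 / C0) ^ b ≤ aw T b W A w :=
      (mul_le_mul_of_nonneg_left h1 hAi.le).trans h2
    have h4 : (1 / C0) ^ b = 1 / C0 ^ b := by rw [div_pow, one_pow]
    rw [h4, mul_one_div, div_le_iff₀ (by positivity)] at h3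
    linarith
  have hazlow : A i ≤ C0 ^ b * c1 * aw T b W A z := by
    refine hawlow.trans ?_
    rw [mul_assoc]
    exact mul_le_mul_of_nonneg_left haw1 (by positivity)
  -- distance of z to W_i
  have hdzi : T.d z (W i) ≤ c3 * T.s (W i) := by
    have h1 := T.tri z w (W i)
    have h2 : R * T.s w ≤ R * (2 * C0 * T.s (W i)) := mul_le_mul_of_nonneg_left hsw (by linarith)
    rw [hc3]
    nlinarith
  -- the sets
  let L : Finset ι := Finset.univ.filter (fun l => col l = col i ∧ l ≠ i)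
  let Far : Finset ι := L.filter (fun l => T.kap (W l) z ≤ 1 / R1)
  let Nr : Finset ι := L.filter (fun l => ¬ T.kap (W l) z ≤ 1 / R1)
  have homnn : ∀ l, 0 ≤ om T b m W A l z := by
    intro l
    unfold om
    exact div_nonneg (mul_nonneg (hF.A_pos l).le (pow_nonneg (TS.kap_nonneg _ _) _)) hazpos.le
  have hchi : chi T b m W A own col z w = ENNReal.ofReal (∑ l ∈ L, om T b m W A l z) := by
    unfold chi
    rw [ENNReal.ofReal_sum_of_nonneg (fun l _ => homnn l), Finset.sum_filter]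
  rw [hchi]
  apply ENNReal.ofReal_le_ofReal
  rw [← Finset.sum_filter_add_sum_filter_not L (fun l => T.kap (W l) z ≤ 1 / R1)]
  have hfar : ∑ l ∈ Far, om T b m W A l z ≤ ε / 2 := by
    have h1 := sum_om_small T hF (by omega : b ≤ m) (1 / R1) (by positivity) Far z
      (fun l hl => (Finset.mem_filter.1 hl).2)
    refine h1.trans ?_
    refine le_trans ?_ hR1i
    have h2 : 1 / R1 ≤ 1 := by
      rw [div_le_one (by linarith)]; exact hR1p
    exact pow_le_of_le_one (by positivity) h2 (by omega)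
  have hNr : ∀ l ∈ Nr, col l = col i ∧ l ≠ i ∧ T.d z (W l) < R1 * T.s (W l) := by
    intro l hl
    have h1 := Finset.mem_filter.1 hl
    have h2 := (Finset.mem_filter.1 h1.1).2
    refine ⟨h2.1, h2.2, ?_⟩
    have h3 := h1.2
    push Not at h3
    unfold TS.kap at h3
    rw [div_lt_div_iff₀ (by linarith) (TS.d_pos (hF.s_pos l) z)] at h3
    linarith
  have hNrA : ∀ l ∈ Nr, P * A l < A i := by
    intro l hl
    obtain ⟨hcol, hne, hd⟩ := hNr l hl
    have hsl : 0 < T.s (W l) := hF.s_pos l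
    have hAl : 0 < A l := hF.A_pos l
    have hk : 1 / R1 ≤ T.kap (W l) z := by
      have h1 := (Finset.mem_filter.1 hl).2
      push Not at h1
      exact h1.le
    have h1 : (1 / R1) ^ b ≤ T.kap (W l) z ^ b := pow_le_pow_left₀ (by positivity) hk b
    have h3 : A l * (1 / R1) ^ b ≤ c1 * (C0 * A i) :=
      (mul_le_mul_of_nonneg_left h1 hAl.le).trans ((hsingle l z).trans hazle)
    have h4 : (1 / R1) ^ b = 1 / R1 ^ b := by rw [div_pow, one_pow]
    rw [h4, mul_one_div, div_le_iff₀ (by positivity)] at h3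
    have h5 : A l ≤ c2 * A i := by
      calc A l ≤ _ := h3
        _ = c2 * A i := by rw [hc2]; ring
    have h6 : T.d (W i) (W l) < K2 * max (T.s (W i)) (T.s (W l)) := by
      have h7 := T.tri (W i) z (W l)
      rw [T.d_symm (W i) z] at h7
      have h8 : T.s (W i) ≤ max (T.s (W i)) (T.s (W l)) := le_max_left _ _
      have h9 : T.s (W l) ≤ max (T.s (W i)) (T.s (W l)) := le_max_right _ _
      have h10 : c3 * T.s (W i) ≤ c3 * max (T.s (W i)) (T.s (W l)) :=
        mul_le_mul_of_nonneg_left h8 (by linarith)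
      have h11 : R1 * T.s (W l) ≤ R1 * max (T.s (W i)) (T.s (W l)) :=
        mul_le_mul_of_nonneg_left h9 (by linarith)
      have hmx : 0 < max (T.s (W i)) (T.s (W l)) := lt_of_lt_of_le hsi h8
      have h12 : (8 * (R1 + c3) + 1) * max (T.s (W i)) (T.s (W l)) ≤ K2 * max (T.s (W i)) (T.s (W l)) :=
        mul_le_mul_of_nonneg_right hK2 hmx.le
      nlinarith
    rcases hSep i l (Ne.symm hne) hcol.symm h6 with h7 | h7
    · exfalso
      have h8 : c2 * A i ≤ P * A i := mul_le_mul_of_nonneg_right hPc2 hAi.le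
      linarith
    · exact h7
  have hNrsum : ∑ l ∈ Nr, A l ≤ 2 * (A i / P) := by
    refine lac_sum Nr A P hP2 (A i / P) (by positivity) (fun l _ => hF.A_pos l) ?_ ?_
    · intro l hl
      rw [le_div_iff₀ hPpos]
      have := hNrA l hl
      linarith
    · intro l hl l' hl' hne
      obtain ⟨hcol, _, hd⟩ := hNr l hl
      obtain ⟨hcol', _, hd'⟩ := hNr l' hl'
      refine hSep l l' hne (hcol.trans hcol'.symm) ?_
      have h7 := T.tri (W l) z (W l')
      rw [T.d_symm (W l) z] at h7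
      have h8 : T.s (W l) ≤ max (T.s (W l)) (T.s (W l')) := le_max_left _ _
      have h9 : T.s (W l') ≤ max (T.s (W l)) (T.s (W l')) := le_max_right _ _
      have h10 : R1 * T.s (W l) ≤ R1 * max (T.s (W l)) (T.s (W l')) :=
        mul_le_mul_of_nonneg_left h8 (by linarith)
      have h11 : R1 * T.s (W l') ≤ R1 * max (T.s (W l)) (T.s (W l')) :=
        mul_le_mul_of_nonneg_left h9 (by linarith)
      have hmx : 0 < max (T.s (W l)) (T.s (W l')) := lt_of_lt_of_le (hF.s_pos l) h8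
      have h12 : (8 * (R1 + c3) + 1) * max (T.s (W l)) (T.s (W l')) ≤ K2 * max (T.s (W l)) (T.s (W l')) :=
        mul_le_mul_of_nonneg_right hK2 hmx.le
      nlinarith
  have hnr : ∑ l ∈ Nr, om T b m W A l z ≤ ε / 2 := by
    have h1 : ∀ l ∈ Nr, om T b m W A l z ≤ A l * (2 ^ m / aw T b W A z) := by
      intro l _
      unfold om
      rw [mul_div_assoc]
      apply mul_le_mul_of_nonneg_left _ (hF.A_pos l).le
      apply div_le_div_of_nonneg_right _ hazpos.le
      exact pow_le_pow_left₀ (TS.kap_nonneg _ _) (TS.kap_le_two _ _) m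
    refine (Finset.sum_le_sum h1).trans ?_
    rw [← Finset.sum_mul]
    have h2 : (∑ l ∈ Nr, A l) * (2 ^ m / aw T b W A z) ≤ 2 * (A i / P) * (2 ^ m / aw T b W A z) :=
      mul_le_mul_of_nonneg_right hNrsum (by positivity)
    refine h2.trans ?_
    have h3 : 2 * (A i / P) * (2 ^ m / aw T b W A z) = (2 ^ (m + 1) * A i) / (P * aw T b W A z) := by
      rw [pow_succ]; field_simp
    rw [h3, div_le_iff₀ (by positivity)]
    rw [hc4, div_le_iff₀ hε] at hPc4
    have h4 : 2 ^ (m + 1) * A i ≤ 2 ^ (m + 1) * (C0 ^ b * c1 * aw T b W A z) :=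
      mul_le_mul_of_nonneg_left hazlow (by positivity)
    have h5 : 2 ^ (m + 2) * c1 * C0 ^ b * aw T b W A z ≤ P * ε * aw T b W A z :=
      mul_le_mul_of_nonneg_right hPc4 hazpos.le
    have h6 : (2 : ℝ) ^ (m + 2) = 2 * 2 ^ (m + 1) := by rw [pow_succ 2 (m + 1)]; ring
    rw [h6] at h5
    nlinarith
  have : ε = ε / 2 + ε / 2 := by ring
  rw [this]
  exact add_le_add hfar hnr

end RFE
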