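import Pool.Agent.Helper157.RF.E1
import Pool.Agent.Helper157.RF.E2
import Pool.Agent.Helper157.RF.E5
set_option autoImplicit false
open MeasureTheory Set Filter H262RU
open scoped ENNReal NNReal BigOperators

namespace RFE

variable {X : Type*} [MeasurableSpace X]


theorem psi_bound_one (T : TS X) (hV : ∀ᵐ w ∂T.V, 0 < T.s w) (al : ℕ) (hal : 1 ≤ al) (C1 : ℝ)
    (hC1 : 0 < C1)
    (hfr : ∀ (z : X) (ρ : ℝ), 0 < ρ →
      ∫⁻ w in {w | ρ ≤ T.d w z}, ENNReal.ofReal (1 / T.d w z ^ (T.n + 1 + 1)) ∂T.V ≤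
        ENNReal.ofReal (C1 / ρ ^ 1))
    (wl : X) (hwl : 0 < T.s wl) (R : ℝ) (hR : 1 ≤ R) (y : X → ℝ≥0∞) (hy : Measurable y) :
    Psi T al R wl y ^ 2 ≤ ENNReal.ofReal (2 ^ (al - 1) * C1 / R) *
      ∫⁻ w, ENNReal.ofReal (T.s w ^ al / T.d w wl ^ (T.n + al)) *
        (ENNReal.ofReal (T.s w) * y w ^ 2) ∂T.V := by
  have hdm : Measurable (fun w => T.d w wl) := T.d_meas wl
  have hsm := T.s_meas
  have hd : ∀ w, 0 < T.d w wl := fun w => TS.d_pos hwl w
  have hK : Measurable fun w => ENNReal.ofReal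
      (T.s w ^ al / T.d w wl ^ (T.n + al) * Real.sqrt (T.s wl / T.d w wl)) :=
    (((hsm.pow_const _).div (hdm.pow_const _)).mul (measurable_const.div hdm).sqrt).ennreal_ofReal
  have hω : Measurable fun w => ENNReal.ofReal (T.s w * Real.sqrt (T.d w wl / T.s wl)) :=
    (hsm.mul (hdm.div measurable_const).sqrt).ennreal_ofReal
  obtain ⟨B, hB⟩ : ∃ B : Set X, B = {w | R * T.s wl ≤ T.d w wl} := ⟨_, rfl⟩
  have hV' : ∀ᵐ w ∂(T.V.restrict B), 0 < T.s w := ae_restrict_of_ae hV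
  have hcs := cs_weight (T.V.restrict B) _ _ y hK hω hy (by
    filter_upwards [hV'] with w hw
    rw [Ne, ENNReal.ofReal_eq_zero, not_le]
    exact mul_pos hw (Real.sqrt_pos.2 (div_pos (hd w) hwl)))
    (Filter.Eventually.of_forall fun w => ENNReal.ofReal_ne_top)
  have hPsi : Psi T al R wl y = ∫⁻ w, ENNReal.ofReal
      (T.s w ^ al / T.d w wl ^ (T.n + al) * Real.sqrt (T.s wl / T.d w wl)) * y w
        ∂(T.V.restrict B) := by
    unfold Psi
    rw [hB]
  rw [hPsi]
  refine hcs.trans ?_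
  have hsq : ∀ w, Real.sqrt (T.s wl / T.d w wl) * Real.sqrt (T.d w wl / T.s wl) = 1 := by
    intro w
    rw [← Real.sqrt_mul (div_pos hwl (hd w)).le, div_mul_div_comm, mul_comm (T.d w wl) (T.s wl),
      div_self (mul_pos hwl (hd w)).ne', Real.sqrt_one]
  refine mul_le_mul' ?_ ?_
  · have h1 : ∀ᵐ w ∂(T.V.restrict B), ENNReal.ofReal
        (T.s w ^ al / T.d w wl ^ (T.n + al) * Real.sqrt (T.s wl / T.d w wl)) *
        (ENNReal.ofReal (T.s w * Real.sqrt (T.d w wl / T.s wl)))⁻¹ ≤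
        ENNReal.ofReal (2 ^ (al - 1) * T.s wl) *
          ENNReal.ofReal (1 / T.d w wl ^ (T.n + 1 + 1)) := by
      filter_upwards [hV'] with w hw
      have hq : 0 < Real.sqrt (T.d w wl / T.s wl) := Real.sqrt_pos.2 (div_pos (hd w) hwl)
      have hx := hd w
      rw [← ENNReal.ofReal_inv_of_pos (mul_pos hw hq), ← ENNReal.ofReal_mul (by positivity),
        ← ENNReal.ofReal_mul (by positivity)]
      refine ENNReal.ofReal_le_ofReal ?_
      have h2 : (Real.sqrt (T.d w wl / T.s wl))⁻¹ = Real.sqrt (T.s wl / T.d w wl) := by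
        rw [← Real.sqrt_inv, inv_div]
      have h3 : Real.sqrt (T.s wl / T.d w wl) * Real.sqrt (T.s wl / T.d w wl) =
          T.s wl / T.d w wl := Real.mul_self_sqrt (div_pos hwl hx).le
      obtain ⟨k, hk⟩ : ∃ k, al = k + 1 := ⟨al - 1, by omega⟩
      have h4 : T.s w ^ al / T.d w wl ^ (T.n + al) * Real.sqrt (T.s wl / T.d w wl) *
          (T.s w * Real.sqrt (T.d w wl / T.s wl))⁻¹ =
          T.s w ^ k / T.d w wl ^ (T.n + al) * (T.s wl / T.d w wl) := by
        rw [mul_inv, h2]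
        have : T.s w ^ al / T.d w wl ^ (T.n + al) * Real.sqrt (T.s wl / T.d w wl) *
          ((T.s w)⁻¹ * Real.sqrt (T.s wl / T.d w wl)) =
          T.s w ^ al * (T.s w)⁻¹ / T.d w wl ^ (T.n + al) *
            (Real.sqrt (T.s wl / T.d w wl) * Real.sqrt (T.s wl / T.d w wl)) := by ring
        rw [this, h3, hk, pow_succ, mul_assoc, mul_inv_cancel₀ hw.ne', mul_one]
      rw [h4]
      have h5 : T.s w ^ k ≤ 2 ^ k * T.d w wl ^ k := by
        rw [← mul_pow]
        exact pow_le_pow_left₀ hw.le (T.s_le w wl) k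
      have h6 : 2 ^ (al - 1) * T.s wl * (1 / T.d w wl ^ (T.n + 1 + 1)) =
          (2 ^ k * T.d w wl ^ k) / T.d w wl ^ (T.n + al) * (T.s wl / T.d w wl) := by
        rw [hk, Nat.add_sub_cancel]
        field_simp
        ring
      rw [h6]
      gcongr
    refine (lintegral_mono_ae h1).trans ?_
    have hm1 : Measurable fun w => ENNReal.ofReal (1 / T.d w wl ^ (T.n + 1 + 1)) :=
      (measurable_const.div (hdm.pow_const _)).ennreal_ofReal
    rw [lintegral_const_mul _ hm1, hB]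
    refine (mul_le_mul' le_rfl (hfr wl (R * T.s wl) (by positivity))).trans (le_of_eq ?_)
    rw [← ENNReal.ofReal_mul (by positivity)]
    congr 1
    have : R ≠ 0 := by positivity
    field_simp
  · refine le_trans ?_ (setLIntegral_le_lintegral B _)
    refine lintegral_mono fun w => ?_
    rw [← mul_assoc]
    refine mul_le_mul' (le_of_eq ?_) le_rfl
    have hx := hd w
    have hs0 := T.s_nonneg w
    rw [← ENNReal.ofReal_mul (by positivity), ← ENNReal.ofReal_mul (by positivity)]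
    congr 1
    have : T.s w ^ al / T.d w wl ^ (T.n + al) * Real.sqrt (T.s wl / T.d w wl) *
        (T.s w * Real.sqrt (T.d w wl / T.s wl)) = T.s w ^ al / T.d w wl ^ (T.n + al) * T.s w *
          (Real.sqrt (T.s wl / T.d w wl) * Real.sqrt (T.d w wl / T.s wl)) := by ring
    rw [this, hsq, mul_one]

/-- TARGET -/
theorem psi_bound (T : TS X) (hV : ∀ᵐ w ∂T.V, 0 < T.s w) (al : ℕ) (hal : 1 ≤ al) (C0 : ℝ) :
    ∃ C : ℝ, 0 < C ∧
    ∀ (ι : Type) [Fintype ι] (W : ι → X),
    (∀ i, 0 < T.s (W i)) →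
    (∀ (z : X) (ρ : ℝ), 0 < ρ →
      ∑ l ∈ Finset.univ.filter (fun l => T.d (W l) z < ρ), T.s (W l) ^ T.n ≤ C0 * ρ ^ T.n) →
    ∀ (R : ℝ), 1 ≤ R → ∀ y : X → ℝ≥0∞, Measurable y →
    ∑ l, ENNReal.ofReal (T.s (W l) ^ T.n) * Psi T al R (W l) y ^ 2 ≤
      ENNReal.ofReal (C / R) * nrm T y := by
  obtain ⟨C1, hC1, hfr⟩ := frV T 1 le_rfl
  obtain ⟨C2, hC2, hcol⟩ := col_sum T al hal C0
  refine ⟨2 ^ (al - 1) * C1 * C2, by positivity, ?_⟩
  intro ι _ W hW hcarl R hR y hy
  have hR0 : 0 < R := by linarith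
  have h1 : ∀ l ∈ (Finset.univ : Finset ι), ENNReal.ofReal (T.s (W l) ^ T.n) *
      Psi T al R (W l) y ^ 2 ≤ ENNReal.ofReal (2 ^ (al - 1) * C1 / R) *
        ∫⁻ w, ENNReal.ofReal (T.s (W l) ^ T.n * (T.s w ^ al / T.d w (W l) ^ (T.n + al))) *
          (ENNReal.ofReal (T.s w) * y w ^ 2) ∂T.V := by
    intro l _
    have hm : Measurable fun w => ENNReal.ofReal (T.s w ^ al / T.d w (W l) ^ (T.n + al)) *
        (ENNReal.ofReal (T.s w) * y w ^ 2) :=
      (((T.s_meas.pow_const _).div ((T.d_meas (W l)).pow_const _)).ennreal_ofReal).mul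
        (T.s_meas.ennreal_ofReal.mul (hy.pow_const 2))
    refine (mul_le_mul' le_rfl (psi_bound_one T hV al hal C1 hC1 hfr (W l) (hW l) R hR y hy)).trans
      (le_of_eq ?_)
    rw [mul_left_comm, ← lintegral_const_mul _ hm]
    congr 1
    refine lintegral_congr fun w => ?_
    rw [ENNReal.ofReal_mul (pow_nonneg (hW l).le _), mul_assoc]
  refine (Finset.sum_le_sum h1).trans ?_
  rw [← Finset.mul_sum, ← lintegral_finsetSum']
  · have h2 : ∫⁻ w, ∑ l, ENNReal.ofReal (T.s (W l) ^ T.n *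
        (T.s w ^ al / T.d w (W l) ^ (T.n + al))) * (ENNReal.ofReal (T.s w) * y w ^ 2) ∂T.V ≤
        ENNReal.ofReal C2 * nrm T y := by
      unfold nrm
      have hm2 : Measurable fun w => ENNReal.ofReal (T.s w) * y w ^ 2 :=
        T.s_meas.ennreal_ofReal.mul (hy.pow_const 2)
      rw [← lintegral_const_mul _ hm2]
      refine lintegral_mono_ae ?_
      filter_upwards [hV] with w hw
      rw [← Finset.sum_mul]
      refine mul_le_mul' ?_ le_rfl
      rw [← ENNReal.ofReal_sum_of_nonneg]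
      · exact ENNReal.ofReal_le_ofReal (hcol ι W hW hcarl w hw)
      · intro l _
        have := TS.d_pos (hW l) w
        have := hW l
        positivity
    refine (mul_le_mul' le_rfl h2).trans (le_of_eq ?_)
    rw [← mul_assoc, ← ENNReal.ofReal_mul (by positivity)]
    congr 2
    ring
  · intro l _
    exact ((measurable_const.mul
      ((T.s_meas.pow_const _).div ((T.d_meas (W l)).pow_const _))).ennreal_ofReal.mul
        (T.s_meas.ennreal_ofReal.mul (hy.pow_const 2))).aemeasurable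

end RFE
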