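import Pool.Agent.Helper157.RF.E1
import Pool.Agent.Helper157.RF.E5
set_option autoImplicit false
open MeasureTheory Set Filter H262RU
open scoped ENNReal NNReal BigOperators

namespace RFE

variable {X : Type*} [MeasurableSpace X]


lemma El_bound_aw (T : TS X) {ι : Type*} [Fintype ι] (b : ℕ) (W : ι → X) (A : ι → ℝ)
    (hA : ∀ i, 0 < A i) (z : X) (i : ι) : A i * T.kap (W i) z ^ b ≤ aw T b W A z := by
  unfold aw
  exact Finset.single_le_sum (f := fun i => A i * T.kap (W i) z ^ b)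
    (fun j _ => mul_nonneg (hA j).le (pow_nonneg (TS.kap_nonneg _ _) _)) (Finset.mem_univ i)

lemma El_bound_small (T : TS X) (b m : ℕ) (C0 R r Q P K2 : ℝ) (hC0 : 1 ≤ C0) (hr : 8 * C0 < r)
    (hR : 0 < R) (hQ : 32 * C0 ≤ Q) (hP1 : C0 * (132 * C0) ^ m * Q ^ b ≤ P)
    (hP2 : C0 * R ^ b ≤ P) (hK2 : 4 * (C0 + R) < K2)
    {ι κ : Type} [Fintype ι] (W : ι → X) (A : ι → ℝ)
    (own : X → ι) (col : ι → κ) (F : Fam T b m C0 W A own) (S : Sep T W A col P K2)
    (l : ι) (v w : X) (hv1 : r * T.s (W l) / 4 ≤ T.s v) (hv2 : T.d v (W l) ≤ 4 * r * T.s (W l))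
    (hw : 0 < T.s w) (hcol : col (own w) = col l) (hne : own w ≠ l)
    (hd : T.d w (W l) < R * T.s (W l)) :
    T.s w ≤ 64 * C0 * (r + R) / Q * T.s (W l) := by
  have hr0 : 0 < r := by linarith
  have hC0' : 0 < C0 := by linarith
  have hQ0 : 0 < Q := by linarith
  obtain ⟨i, hi⟩ : ∃ i, own w = i := ⟨_, rfl⟩
  have hsi := F.s_pos i
  have hsl := F.s_pos l
  have hAi := F.A_pos i
  have hAl := F.A_pos l
  have hwi : T.d w (W i) ≤ C0 * T.s (W i) := by rw [← hi]; exact F.near w hw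
  rw [hi] at hcol hne
  have hil : T.d (W i) (W l) ≤ 4 * (C0 * T.s (W i) + R * T.s (W l)) := by
    have h1 := T.tri (W i) w (W l)
    rw [T.d_symm (W i) w] at h1
    linarith
  have hmax : 0 < max (T.s (W i)) (T.s (W l)) := lt_max_of_lt_left hsi
  have hlt : T.d (W i) (W l) < K2 * max (T.s (W i)) (T.s (W l)) := by
    have h1 : T.s (W i) ≤ max (T.s (W i)) (T.s (W l)) := le_max_left _ _
    have h2 : T.s (W l) ≤ max (T.s (W i)) (T.s (W l)) := le_max_right _ _
    have h3 : C0 * T.s (W i) ≤ C0 * max (T.s (W i)) (T.s (W l)) := by gcongr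
    have h4 : R * T.s (W l) ≤ R * max (T.s (W i)) (T.s (W l)) := by gcongr
    have h5 : 4 * (C0 + R) * max (T.s (W i)) (T.s (W l)) < K2 * max (T.s (W i)) (T.s (W l)) := by
      gcongr
    nlinarith
  rcases S i l hne hcol hlt with h | h
  · exfalso
    have h1 := F.a_le w hw
    rw [hi] at h1
    have h2 := El_bound_aw T b W A F.A_pos w l
    have hdp : 0 < T.d w (W l) := TS.d_pos hsl w
    have h3 : 1 / R ≤ T.kap (W l) w := by
      unfold TS.kap
      rw [div_le_div_iff₀ hR hdp]; linarith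
    have h4 : (1 / R) ^ b ≤ T.kap (W l) w ^ b := pow_le_pow_left₀ (by positivity) h3 b
    have h5 : A l * (1 / R) ^ b ≤ C0 * A i :=
      le_trans (le_trans (by gcongr) h2) h1
    have h6 : (1 / R) ^ b * R ^ b = 1 := by rw [← mul_pow]; field_simp; simp
    have h7 : A l ≤ C0 * R ^ b * A i := by
      calc A l = A l * (1 / R) ^ b * R ^ b := by rw [mul_assoc, h6, mul_one]
        _ ≤ C0 * A i * R ^ b := by gcongr
        _ = C0 * R ^ b * A i := by ring
    have h8 : C0 * R ^ b * A i ≤ P * A i := by gcongr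
    linarith
  · obtain ⟨j, hj⟩ : ∃ j, own v = j := ⟨_, rfl⟩
    have hsj := F.s_pos j
    have hAj := F.A_pos j
    have hv0 : 0 < T.s v := lt_of_lt_of_le (by positivity) hv1
    have hvj : T.d v (W j) ≤ C0 * T.s (W j) := by rw [← hj]; exact F.near v hv0
    have h1 : r * T.s (W l) ≤ 8 * C0 * T.s (W j) := by
      have := T.s_le v (W j)
      nlinarith
    have h2 : T.s (W l) < T.s (W j) := by
      have h3 : 8 * C0 * T.s (W l) < r * T.s (W l) := by gcongr
      have h4 : 8 * C0 * T.s (W l) < 8 * C0 * T.s (W j) := by linarith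
      exact lt_of_mul_lt_mul_left h4 (by positivity)
    have h3 : T.d (W l) (W j) ≤ 132 * C0 * T.s (W j) := by
      have h4 := T.tri (W l) v (W j)
      rw [T.d_symm (W l) v] at h4
      nlinarith
    have hdp : 0 < T.d (W l) (W j) := TS.d_pos hsj _
    have h4 : 1 / (132 * C0) ≤ T.kap (W j) (W l) := by
      unfold TS.kap
      rw [div_le_div_iff₀ (by positivity) hdp]; linarith
    have h5 := F.sel j l h2
    have h6 : (1 / (132 * C0)) ^ m ≤ T.kap (W j) (W l) ^ m := pow_le_pow_left₀ (by positivity) h4 m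
    have h7 : A j * (1 / (132 * C0)) ^ m ≤ A l := le_trans (by gcongr) h5
    have h8 : (1 / (132 * C0)) ^ m * (132 * C0) ^ m = 1 := by
      rw [← mul_pow, one_div_mul_cancel (by positivity)]; simp
    have h9 : A j ≤ (132 * C0) ^ m * A l := by
      calc A j = A j * (1 / (132 * C0)) ^ m * (132 * C0) ^ m := by rw [mul_assoc, h8, mul_one]
        _ ≤ A l * (132 * C0) ^ m := by gcongr
        _ = _ := by ring
    have h10 : A i * T.kap (W i) v ^ b ≤ C0 * (132 * C0) ^ m * A l := by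
      have e1 := El_bound_aw T b W A F.A_pos v i
      have e2 := F.a_le v hv0
      rw [hj] at e2
      have e3 : C0 * A j ≤ C0 * ((132 * C0) ^ m * A l) := by gcongr
      linarith
    have hdvi : 0 < T.d v (W i) := TS.d_pos hsi _
    have h11 : Q * T.s (W i) < T.d v (W i) := by
      by_contra hcon
      push Not at hcon
      have e1 : 1 / Q ≤ T.kap (W i) v := by
        unfold TS.kap
        rw [div_le_div_iff₀ hQ0 hdvi]; linarith
      have e2 : (1 / Q) ^ b ≤ T.kap (W i) v ^ b := pow_le_pow_left₀ (by positivity) e1 b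
      have e3 : A i * (1 / Q) ^ b ≤ C0 * (132 * C0) ^ m * A l := le_trans (by gcongr) h10
      have e4 : (1 / Q) ^ b * Q ^ b = 1 := by
        rw [← mul_pow, one_div_mul_cancel hQ0.ne']; simp
      have e5 : A i ≤ C0 * (132 * C0) ^ m * Q ^ b * A l := by
        calc A i = A i * (1 / Q) ^ b * Q ^ b := by rw [mul_assoc, e4, mul_one]
          _ ≤ C0 * (132 * C0) ^ m * A l * Q ^ b := by gcongr
          _ = _ := by ring
      have e6 : C0 * (132 * C0) ^ m * Q ^ b * A l ≤ P * A l := by gcongr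
      linarith
    have h12 : T.d v (W i) ≤ 16 * r * T.s (W l) + 16 * C0 * T.s (W i) + 16 * R * T.s (W l) := by
      have e1 := T.tri v (W l) (W i)
      rw [T.d_symm (W l) (W i)] at e1
      nlinarith
    have h13 : T.s w ≤ 2 * C0 * T.s (W i) := by
      have := T.s_le w (W i)
      linarith
    have h14 : Q * T.s (W i) ≤ 32 * (r + R) * T.s (W l) := by
      have e1 : 32 * C0 * T.s (W i) ≤ Q * T.s (W i) := by gcongr
      nlinarith
    rw [div_mul_eq_mul_div, le_div_iff₀ hQ0]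
    calc T.s w * Q ≤ 2 * C0 * T.s (W i) * Q := by gcongr
      _ = 2 * C0 * (Q * T.s (W i)) := by ring
      _ ≤ 2 * C0 * (32 * (r + R) * T.s (W l)) := by gcongr
      _ = _ := by ring

lemma El_bound_cs (T : TS X) (hV : ∀ᵐ w ∂T.V, 0 < T.s w) (al : ℕ) (hal : 1 ≤ al) (c M vol : ℝ)
    (hc : 0 ≤ c) (hM : 0 ≤ M) (S : Set X) (hS : MeasurableSet S)
    (hSM : ∀ w ∈ S, T.s w ≤ M) (hvol : T.V S ≤ ENNReal.ofReal vol)
    (y : X → ℝ≥0∞) (hy : Measurable y) :
    (∫⁻ w in S, ENNReal.ofReal (T.s w ^ al * c) * y w ∂T.V) ^ 2 ≤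
      ENNReal.ofReal (M ^ (al - 1) * c * vol) *
      ∫⁻ w in S, ENNReal.ofReal (T.s w ^ al * c) * ENNReal.ofReal (T.s w) * y w ^ 2 ∂T.V := by
  have hKm : Measurable (fun w => ENNReal.ofReal (T.s w ^ al * c)) :=
    ((T.s_meas.pow_const al).mul_const c).ennreal_ofReal
  have hωm : Measurable (fun w => ENNReal.ofReal (T.s w)) := T.s_meas.ennreal_ofReal
  have h0 : ∀ᵐ w ∂(T.V.restrict S), ENNReal.ofReal (T.s w) ≠ 0 := by
    filter_upwards [ae_restrict_of_ae hV] with w hw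
    exact (ENNReal.ofReal_pos.2 hw).ne'
  have h1 : ∀ᵐ w ∂(T.V.restrict S), ENNReal.ofReal (T.s w) ≠ ⊤ :=
    Eventually.of_forall (fun w => ENNReal.ofReal_ne_top)
  refine (cs_weight (T.V.restrict S) _ _ y hKm hωm hy h0 h1).trans ?_
  gcongr
  calc ∫⁻ w in S, ENNReal.ofReal (T.s w ^ al * c) * (ENNReal.ofReal (T.s w))⁻¹ ∂T.V
      ≤ ∫⁻ w in S, ENNReal.ofReal (M ^ (al - 1) * c) ∂T.V := by
        apply lintegral_mono_ae
        rw [ae_restrict_iff' hS]
        filter_upwards [hV] with w hw hwS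
        rw [← ENNReal.ofReal_inv_of_pos hw, ← ENNReal.ofReal_mul (by positivity)]
        apply ENNReal.ofReal_le_ofReal
        have e1 : T.s w ^ al = T.s w ^ (al - 1) * T.s w := by
          rw [← pow_succ]; congr 1; omega
        have e2 : T.s w ^ al * c * (T.s w)⁻¹ = T.s w ^ (al - 1) * c := by
          rw [e1]; field_simp
        rw [e2]
        have := hSM w hwS
        gcongr
    _ = ENNReal.ofReal (M ^ (al - 1) * c) * T.V S := by
        rw [setLIntegral_const]
    _ ≤ ENNReal.ofReal (M ^ (al - 1) * c) * ENNReal.ofReal vol := by gcongr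
    _ = ENNReal.ofReal (M ^ (al - 1) * c * vol) := by
        rw [← ENNReal.ofReal_mul (by positivity)]

lemma El_bound_sq (a b : ℝ≥0∞) : (a + b) ^ 2 ≤ 4 * (a ^ 2 + b ^ 2) := by
  rcases le_total a b with h | h
  · calc (a + b) ^ 2 ≤ (b + b) ^ 2 := by gcongr
      _ = 4 * b ^ 2 := by ring
      _ ≤ 4 * (a ^ 2 + b ^ 2) := by gcongr; exact le_add_self
  · calc (a + b) ^ 2 ≤ (a + a) ^ 2 := by gcongr
      _ = 4 * a ^ 2 := by ring
      _ ≤ 4 * (a ^ 2 + b ^ 2) := by gcongr; exact le_self_add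

/-- pointwise kernel bound -/
lemma El_bound_kk (T : TS X) (al : ℕ) (r sl : ℝ) (hr : 0 < r) (hsl : 0 < sl) (v w : X)
    (hv : r * sl / 4 ≤ T.s v) :
    kk T al (T.n + al) v w ≤ ENNReal.ofReal (T.s w ^ al * (8 / (r * sl)) ^ (T.n + al)) := by
  unfold kk
  apply ENNReal.ofReal_le_ofReal
  have h1 : r * sl / 8 ≤ T.d v w := by
    have := T.s_le v w
    linarith
  have h0 : 0 < r * sl / 8 := by positivity
  have hd : 0 < T.d v w := lt_of_lt_of_le h0 h1
  rw [div_eq_mul_inv, ← inv_pow]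
  have h2 : (T.d v w)⁻¹ ≤ 8 / (r * sl) := by
    rw [← inv_div]
    exact inv_anti₀ h0 h1
  have h3 := T.s_nonneg w
  gcongr

/-- the part where the source belongs to the box itself -/
lemma El_bound_one (T : TS X) (hV : ∀ᵐ w ∂T.V, 0 < T.s w) (al : ℕ) (hal : 1 ≤ al) (C0 r sl : ℝ)
    (hC0 : 0 < C0) (hr : 1 ≤ r) (wl : X) (hsl : 0 < sl) (S : Set X) (hS : MeasurableSet S)
    (hSd : ∀ w ∈ S, T.d w wl < 2 * C0 * sl) (y : X → ℝ≥0∞) (hy : Measurable y) :
    ENNReal.ofReal (sl ^ T.n) *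
      (∫⁻ w in S, ENNReal.ofReal (T.s w ^ al * (8 / (r * sl)) ^ (T.n + al)) * y w ∂T.V) ^ 2 ≤
    ENNReal.ofReal (T.CV * (4 * C0) ^ (T.n + 2 * al) * 8 ^ (2 * (T.n + al)) / r) *
      ∫⁻ w in S, ENNReal.ofReal (T.s w) * y w ^ 2 ∂T.V := by
  have hr0 : 0 < r := by linarith
  have hCV := T.CV_pos
  have hSM : ∀ w ∈ S, T.s w ≤ 4 * C0 * sl := by
    intro w hw
    have h1 := T.s_le w wl
    have h2 := hSd w hw
    linarith
  have hvol : T.V S ≤ ENNReal.ofReal (T.CV * (4 * C0 * sl) ^ (T.n + 1)) := by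
    refine le_trans (measure_mono ?_) (T.V_le wl (4 * C0 * sl) (by positivity))
    intro w hw
    have h2 := hSd w hw
    have h3 : 0 < C0 * sl := by positivity
    show T.d w wl < _
    linarith
  have h := El_bound_cs T hV al hal ((8 / (r * sl)) ^ (T.n + al)) (4 * C0 * sl)
    (T.CV * (4 * C0 * sl) ^ (T.n + 1)) (by positivity) (by positivity) S hS hSM hvol y hy
  have h2 : ∫⁻ w in S, ENNReal.ofReal (T.s w ^ al * (8 / (r * sl)) ^ (T.n + al)) *
      ENNReal.ofReal (T.s w) * y w ^ 2 ∂T.V ≤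
      ENNReal.ofReal ((4 * C0 * sl) ^ al * (8 / (r * sl)) ^ (T.n + al)) *
      ∫⁻ w in S, ENNReal.ofReal (T.s w) * y w ^ 2 ∂T.V := by
    have hf : Measurable (fun w => ENNReal.ofReal (T.s w) * y w ^ 2) :=
      T.s_meas.ennreal_ofReal.mul (hy.pow_const 2)
    rw [← lintegral_const_mul _ hf]
    apply setLIntegral_mono' hS
    intro w hw
    rw [mul_assoc]
    have h3 := hSM w hw
    have h4 := T.s_nonneg w
    gcongr
  calc ENNReal.ofReal (sl ^ T.n) *
      (∫⁻ w in S, ENNReal.ofReal (T.s w ^ al * (8 / (r * sl)) ^ (T.n + al)) * y w ∂T.V) ^ 2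
      ≤ ENNReal.ofReal (sl ^ T.n) * (ENNReal.ofReal ((4 * C0 * sl) ^ (al - 1) *
        (8 / (r * sl)) ^ (T.n + al) * (T.CV * (4 * C0 * sl) ^ (T.n + 1))) *
        (ENNReal.ofReal ((4 * C0 * sl) ^ al * (8 / (r * sl)) ^ (T.n + al)) *
      ∫⁻ w in S, ENNReal.ofReal (T.s w) * y w ^ 2 ∂T.V)) := by
        gcongr
        exact h.trans (by gcongr)
    _ = ENNReal.ofReal (sl ^ T.n * ((4 * C0 * sl) ^ (al - 1) *
        (8 / (r * sl)) ^ (T.n + al) * (T.CV * (4 * C0 * sl) ^ (T.n + 1)) *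
        ((4 * C0 * sl) ^ al * (8 / (r * sl)) ^ (T.n + al)))) *
      ∫⁻ w in S, ENNReal.ofReal (T.s w) * y w ^ 2 ∂T.V := by
        rw [ENNReal.ofReal_mul (p := sl ^ T.n) (by positivity),
          ENNReal.ofReal_mul (q := (4 * C0 * sl) ^ al * (8 / (r * sl)) ^ (T.n + al)) (by positivity)]
        ring
    _ ≤ _ := by
        gcongr
        have e1 : sl ^ T.n * ((4 * C0 * sl) ^ (al - 1) *
            (8 / (r * sl)) ^ (T.n + al) * (T.CV * (4 * C0 * sl) ^ (T.n + 1)) *
            ((4 * C0 * sl) ^ al * (8 / (r * sl)) ^ (T.n + al))) =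
            T.CV * (4 * C0) ^ (T.n + 2 * al) * 8 ^ (2 * (T.n + al)) / r ^ (2 * (T.n + al)) := by
          have e2 : (4 * C0 * sl) ^ (al - 1) * (4 * C0 * sl) ^ (T.n + 1) * (4 * C0 * sl) ^ al =
              (4 * C0) ^ (T.n + 2 * al) * sl ^ (T.n + 2 * al) := by
            rw [← mul_pow, ← pow_add, ← pow_add]
            congr 1; omega
          have e3 : (8 / (r * sl)) ^ (T.n + al) * (8 / (r * sl)) ^ (T.n + al) =
              8 ^ (2 * (T.n + al)) / r ^ (2 * (T.n + al)) / sl ^ (2 * (T.n + al)) := by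
            rw [← pow_add, ← two_mul, div_pow, mul_pow]
            field_simp
          have e4 : sl ^ T.n * sl ^ (T.n + 2 * al) = sl ^ (2 * (T.n + al)) := by
            rw [← pow_add]; congr 1; ring
          calc sl ^ T.n * ((4 * C0 * sl) ^ (al - 1) *
            (8 / (r * sl)) ^ (T.n + al) * (T.CV * (4 * C0 * sl) ^ (T.n + 1)) *
            ((4 * C0 * sl) ^ al * (8 / (r * sl)) ^ (T.n + al)))
              = T.CV * sl ^ T.n * ((4 * C0 * sl) ^ (al - 1) * (4 * C0 * sl) ^ (T.n + 1) *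
                (4 * C0 * sl) ^ al) * ((8 / (r * sl)) ^ (T.n + al) * (8 / (r * sl)) ^ (T.n + al)) := by
                ring
            _ = T.CV * sl ^ T.n * ((4 * C0) ^ (T.n + 2 * al) * sl ^ (T.n + 2 * al)) *
                (8 ^ (2 * (T.n + al)) / r ^ (2 * (T.n + al)) / sl ^ (2 * (T.n + al))) := by
                rw [e2, e3]
            _ = T.CV * (4 * C0) ^ (T.n + 2 * al) * 8 ^ (2 * (T.n + al)) / r ^ (2 * (T.n + al)) *
                (sl ^ T.n * sl ^ (T.n + 2 * al) / sl ^ (2 * (T.n + al))) := by ring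
            _ = _ := by rw [e4, div_self (by positivity), mul_one]
        rw [e1]
        have e5 : r ^ 1 ≤ r ^ (2 * (T.n + al)) := pow_le_pow_right₀ hr (by omega)
        rw [pow_one] at e5
        gcongr

/-- the part of small sources -/
lemma El_bound_two (T : TS X) (hV : ∀ᵐ w ∂T.V, 0 < T.s w) (al : ℕ) (hal : 1 ≤ al) (r R η sl : ℝ)
    (hr : 0 < r) (hR : 0 < R) (hη : 0 ≤ η) (wl : X) (hsl : 0 < sl) (S : Set X)
    (hS : MeasurableSet S)
    (hSd : ∀ w ∈ S, T.s w ≤ η * sl ∧ T.d w wl < R * sl) (y : X → ℝ≥0∞) (hy : Measurable y) :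
    ENNReal.ofReal (sl ^ T.n) *
      (∫⁻ w in S, ENNReal.ofReal (T.s w ^ al * (8 / (r * sl)) ^ (T.n + al)) * y w ∂T.V) ^ 2 ≤
    ENNReal.ofReal (η ^ (al - 1) * (T.CV * R ^ (T.n + 1) * (8 / r) ^ (T.n + al))) *
      ∫⁻ w in S, ENNReal.ofReal (sl ^ T.n * (T.s w ^ al * (8 / (r * sl)) ^ (T.n + al))) *
        (ENNReal.ofReal (T.s w) * y w ^ 2) ∂T.V := by
  have hCV := T.CV_pos
  have hvol : T.V S ≤ ENNReal.ofReal (T.CV * (R * sl) ^ (T.n + 1)) := by
    refine le_trans (measure_mono ?_) (T.V_le wl (R * sl) (by positivity))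
    intro w hw
    exact (hSd w hw).2
  have h := El_bound_cs T hV al hal ((8 / (r * sl)) ^ (T.n + al)) (η * sl)
    (T.CV * (R * sl) ^ (T.n + 1)) (by positivity) (by positivity) S hS
    (fun w hw => (hSd w hw).1) hvol y hy
  have hmeas : Measurable (fun w => ENNReal.ofReal (T.s w ^ al * (8 / (r * sl)) ^ (T.n + al)) *
      ENNReal.ofReal (T.s w) * y w ^ 2) :=
    ((((T.s_meas.pow_const al).mul_const _).ennreal_ofReal).mul T.s_meas.ennreal_ofReal).mul
      (hy.pow_const 2)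
  calc ENNReal.ofReal (sl ^ T.n) *
      (∫⁻ w in S, ENNReal.ofReal (T.s w ^ al * (8 / (r * sl)) ^ (T.n + al)) * y w ∂T.V) ^ 2
      ≤ ENNReal.ofReal (sl ^ T.n) * (ENNReal.ofReal ((η * sl) ^ (al - 1) *
        (8 / (r * sl)) ^ (T.n + al) * (T.CV * (R * sl) ^ (T.n + 1))) *
      ∫⁻ w in S, ENNReal.ofReal (T.s w ^ al * (8 / (r * sl)) ^ (T.n + al)) *
        ENNReal.ofReal (T.s w) * y w ^ 2 ∂T.V) := by
        gcongr
    _ = ENNReal.ofReal ((η * sl) ^ (al - 1) *
        (8 / (r * sl)) ^ (T.n + al) * (T.CV * (R * sl) ^ (T.n + 1))) *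
        (ENNReal.ofReal (sl ^ T.n) * 
      ∫⁻ w in S, ENNReal.ofReal (T.s w ^ al * (8 / (r * sl)) ^ (T.n + al)) *
        ENNReal.ofReal (T.s w) * y w ^ 2 ∂T.V) := by ring
    _ = ENNReal.ofReal (η ^ (al - 1) * (T.CV * R ^ (T.n + 1) * (8 / r) ^ (T.n + al))) *
        (∫⁻ w in S, ENNReal.ofReal (sl ^ T.n) * (ENNReal.ofReal (T.s w ^ al *
          (8 / (r * sl)) ^ (T.n + al)) * ENNReal.ofReal (T.s w) * y w ^ 2) ∂T.V) := by
        rw [lintegral_const_mul _ hmeas]
        congr 2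
        have e3 : (8 / (r * sl)) ^ (T.n + al) = (8 / r) ^ (T.n + al) / sl ^ (T.n + al) := by
          rw [← div_pow, div_div]
        have e4 : sl ^ (al - 1) * sl ^ (T.n + 1) = sl ^ (T.n + al) := by
          rw [← pow_add]; congr 1; omega
        calc (η * sl) ^ (al - 1) * (8 / (r * sl)) ^ (T.n + al) * (T.CV * (R * sl) ^ (T.n + 1))
            = η ^ (al - 1) * (T.CV * R ^ (T.n + 1) * (8 / r) ^ (T.n + al)) *
              (sl ^ (al - 1) * sl ^ (T.n + 1) / sl ^ (T.n + al)) := by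
              rw [e3, mul_pow, mul_pow]; ring
          _ = _ := by rw [e4, div_self (by positivity), mul_one]
    _ = _ := by
        congr 1
        apply lintegral_congr
        intro w
        have h4 := T.s_nonneg w
        rw [ENNReal.ofReal_mul (p := sl ^ T.n) (by positivity)]
        ring

/-- TARGET -/
theorem El_bound (T : TS X) (hV : ∀ᵐ w ∂T.V, 0 < T.s w) (b m al : ℕ) (hb : 1 ≤ b)
    (hm : b + 1 ≤ m) (hal : 2 ≤ al) (C0 : ℝ) (hC0 : 1 ≤ C0) (ε : ℝ) (hε : 0 < ε) :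
    ∃ r0 : ℝ, 1 ≤ r0 ∧ ∀ r : ℝ, r0 ≤ r → ∃ P0 K0 : ℝ, 1 ≤ P0 ∧ 1 ≤ K0 ∧
    ∀ (ι κ : Type) [Fintype ι] [DecidableEq κ] (W : ι → X) (A : ι → ℝ)
      (own : X → ι) (col : ι → κ), Fam T b m C0 W A own →
      ∀ P K2 : ℝ, P0 ≤ P → K0 ≤ K2 → Sep T W A col P K2 →
      ∀ (v : ι → X), (∀ l, r ^ 2 * T.s (W l) ≤ 2 → r * T.s (W l) / 4 ≤ T.s (v l) ∧
        T.d (v l) (W l) ≤ 4 * r * T.s (W l)) →
      ∀ y : X → ℝ≥0∞, Measurable y →
      ∑ l ∈ Finset.univ.filter (fun l => r ^ 2 * T.s (W l) ≤ 2),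
        ENNReal.ofReal (T.s (W l) ^ T.n) * El T al (r ^ 2) W own col v y l ^ 2 ≤
        ENNReal.ofReal ε * nrm T y := by
  obtain ⟨CC, hCC, hcol_sum⟩ := col_sum T al (by omega) C0
  have hCV := T.CV_pos
  have hC0' : 0 < C0 := by linarith
  set C1 : ℝ := T.CV * (4 * C0) ^ (T.n + 2 * al) * 8 ^ (2 * (T.n + al)) with hC1
  have hC1p : 0 < C1 := by positivity
  have hr0' : 1 ≤ 1 + 8 * C0 + 8 * C1 / ε := by
    have : 0 ≤ 8 * C1 / ε := by positivity
    linarith
  refine ⟨1 + 8 * C0 + 8 * C1 / ε, hr0', fun r hr => ?_⟩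
  have hr1 : 1 ≤ r := le_trans hr0' hr
  have hrp : 0 < r := by linarith
  have hr8 : 8 * C0 < r := by
    have : 0 ≤ 8 * C1 / ε := by positivity
    linarith
  have hrC1 : C1 / r ≤ ε / 8 := by
    have h1 : 8 * C1 / ε ≤ r := by linarith
    rw [div_le_iff₀ hε] at h1
    rw [div_le_iff₀ hrp]
    linarith
  set R : ℝ := r ^ 2 with hRdef
  have hR : 0 < R := by positivity
  have hR1 : 1 ≤ R := one_le_pow₀ hr1
  set Cr : ℝ := T.CV * R ^ (T.n + 1) * (8 / r) ^ (T.n + al) * ((8 * R / r) ^ (T.n + al) * CC)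
    with hCr
  have hCrp : 0 < Cr := by positivity
  set Q : ℝ := 64 * C0 * (r + R) * (1 + 8 * Cr / ε) with hQdef
  have hQ64 : 64 * C0 * (r + R) ≤ Q := by
    rw [hQdef]
    have h1 : 0 ≤ 64 * C0 * (r + R) := by positivity
    have h2 : 0 ≤ 8 * Cr / ε := by positivity
    nlinarith
  have hQ32 : 32 * C0 ≤ Q := by nlinarith
  have hQp : 0 < Q := by linarith
  set η : ℝ := 64 * C0 * (r + R) / Q with hηdef
  have hη0 : 0 ≤ η := by positivity
  have hη1 : η ≤ 1 := by rw [hηdef, div_le_one hQp]; exact hQ64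
  have hηC : η * Cr ≤ ε / 8 := by
    rw [hηdef, hQdef]
    have h1 : 0 < 64 * C0 * (r + R) := by positivity
    have h2 : 64 * C0 * (r + R) / (64 * C0 * (r + R) * (1 + 8 * Cr / ε)) = 1 / (1 + 8 * Cr / ε) := by
      field_simp
    rw [h2, div_mul_eq_mul_div, div_le_iff₀ (by positivity), one_mul]
    have h3 : ε / 8 * (1 + 8 * Cr / ε) = ε / 8 + Cr := by field_simp
    rw [h3]; linarith
  refine ⟨1 + C0 * (132 * C0) ^ m * Q ^ b + C0 * R ^ b, 4 * (C0 + R) + 1, ?_, ?_, ?_⟩
  · have h1 : 0 ≤ C0 * (132 * C0) ^ m * Q ^ b := by positivity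
    have h2 : 0 ≤ C0 * R ^ b := by positivity
    linarith
  · linarith
  intro ι κ _ _ W A own col F P K2 hP hK2 hSep v hv y hy
  have hP1 : C0 * (132 * C0) ^ m * Q ^ b ≤ P := by
    have h2 : 0 ≤ C0 * R ^ b := by positivity
    linarith
  have hP2 : C0 * R ^ b ≤ P := by
    have h1 : 0 ≤ C0 * (132 * C0) ^ m * Q ^ b := by positivity
    linarith
  have hK2' : 4 * (C0 + R) < K2 := by linarith
  -- the sets
  set S1 : ι → Set X := fun l => {w | own w = l ∧ T.d w (W l) < 2 * C0 * T.s (W l)} with hS1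
  set S2 : ι → Set X := fun l => {w | T.s w ≤ η * T.s (W l) ∧ T.d w (W l) < R * T.s (W l)} with hS2
  have hS1m : ∀ l, MeasurableSet (S1 l) := fun l =>
    (F.own_meas l).inter (measurableSet_lt (T.d_meas _) measurable_const)
  have hS2m : ∀ l, MeasurableSet (S2 l) := fun l =>
    (measurableSet_le T.s_meas measurable_const).inter
      (measurableSet_lt (T.d_meas _) measurable_const)
  set I1 : ι → ℝ≥0∞ := fun l => ∫⁻ w in S1 l,
    ENNReal.ofReal (T.s w ^ al * (8 / (r * T.s (W l))) ^ (T.n + al)) * y w ∂T.V with hI1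
  set I2 : ι → ℝ≥0∞ := fun l => ∫⁻ w in S2 l,
    ENNReal.ofReal (T.s w ^ al * (8 / (r * T.s (W l))) ^ (T.n + al)) * y w ∂T.V with hI2
  have hEl : ∀ l, R * T.s (W l) ≤ 2 → El T al R W own col v y l ≤ I1 l + I2 l := by
    intro l hl
    obtain ⟨hv1, hv2⟩ := hv l hl
    have hsub : {w | col (own w) = col l ∧ T.d w (W l) < R * T.s (W l)} ≤ᵐ[T.V]
        (S1 l ∪ S2 l : Set X) := by
      filter_upwards [hV] with w hw
      intro hwl
      obtain ⟨h1, h2⟩ := hwl
      by_cases ho : own w = l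
      · left
        refine ⟨ho, ?_⟩
        have h3 := F.near w hw
        rw [ho] at h3
        have h4 : 0 < C0 * T.s (W l) := mul_pos hC0' (F.s_pos l)
        linarith
      · right
        refine ⟨?_, h2⟩
        exact El_bound_small T b m C0 R r Q P K2 hC0 hr8 hR hQ32 hP1 hP2 hK2' W A own col F hSep
          l (v l) w hv1 hv2 hw h1 ho h2
    unfold El
    calc ∫⁻ w in {w | col (own w) = col l ∧ T.d w (W l) < R * T.s (W l)},
        kk T al (T.n + al) (v l) w * y w ∂T.V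
        ≤ ∫⁻ w in S1 l ∪ S2 l, kk T al (T.n + al) (v l) w * y w ∂T.V := lintegral_mono_set' hsub
      _ ≤ ∫⁻ w in S1 l ∪ S2 l,
          ENNReal.ofReal (T.s w ^ al * (8 / (r * T.s (W l))) ^ (T.n + al)) * y w ∂T.V := by
          apply lintegral_mono
          intro w
          exact mul_le_mul_left (El_bound_kk T al r (T.s (W l)) hrp (F.s_pos l) (v l) w hv1) _
      _ ≤ I1 l + I2 l := lintegral_union_le _ _ _
  have hpart1 : ∀ l, ENNReal.ofReal (T.s (W l) ^ T.n) * I1 l ^ 2 ≤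
      ENNReal.ofReal (ε / 8) * ∫⁻ w in {w | own w = l}, ENNReal.ofReal (T.s w) * y w ^ 2 ∂T.V := by
    intro l
    refine (El_bound_one T hV al (by omega) C0 r (T.s (W l)) hC0' hr1 (W l) (F.s_pos l) (S1 l)
      (hS1m l) (fun w hw => hw.2) y hy).trans ?_
    apply mul_le_mul'
    · exact ENNReal.ofReal_le_ofReal hrC1
    · exact lintegral_mono_set (fun w hw => hw.1)
  have hsum1 : ∑ l, ENNReal.ofReal (T.s (W l) ^ T.n) * I1 l ^ 2 ≤
      ENNReal.ofReal (ε / 8) * nrm T y := by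
    refine (Finset.sum_le_sum (fun l _ => hpart1 l)).trans ?_
    rw [← Finset.mul_sum]
    gcongr
    unfold nrm
    have hf : Measurable (fun w => ENNReal.ofReal (T.s w) * y w ^ 2) :=
      T.s_meas.ennreal_ofReal.mul (hy.pow_const 2)
    calc ∑ l, ∫⁻ w in {w | own w = l}, ENNReal.ofReal (T.s w) * y w ^ 2 ∂T.V
        = ∑ l, ∫⁻ w, ({w | own w = l} : Set X).indicator
            (fun w => ENNReal.ofReal (T.s w) * y w ^ 2) w ∂T.V := by
          apply Finset.sum_congr rfl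
          intro l _
          rw [lintegral_indicator (F.own_meas l)]
      _ = ∫⁻ w, ∑ l, ({w | own w = l} : Set X).indicator
            (fun w => ENNReal.ofReal (T.s w) * y w ^ 2) w ∂T.V := by
          rw [lintegral_finsetSum _ (fun l _ => hf.indicator (F.own_meas l))]
      _ ≤ ∫⁻ w, ENNReal.ofReal (T.s w) * y w ^ 2 ∂T.V := by
          apply lintegral_mono
          intro w
          show ∑ l, ({w | own w = l} : Set X).indicator
            (fun w => ENNReal.ofReal (T.s w) * y w ^ 2) w ≤ ENNReal.ofReal (T.s w) * y w ^ 2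
          rw [Finset.sum_eq_single (own w)]
          · exact Set.indicator_le_self _ _ _
          · intro l _ hl
            apply Set.indicator_of_notMem
            intro h
            exact hl h.symm
          · intro h; exact absurd (Finset.mem_univ _) h
  have hsum2 : ∑ l, ENNReal.ofReal (T.s (W l) ^ T.n) * I2 l ^ 2 ≤
      ENNReal.ofReal (ε / 8) * nrm T y := by
    have hf : Measurable (fun w => ENNReal.ofReal (T.s w) * y w ^ 2) :=
      T.s_meas.ennreal_ofReal.mul (hy.pow_const 2)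
    set g : ι → X → ℝ≥0∞ := fun l w => (S2 l).indicator (fun w =>
      ENNReal.ofReal (T.s (W l) ^ T.n * (T.s w ^ al * (8 / (r * T.s (W l))) ^ (T.n + al))) *
        (ENNReal.ofReal (T.s w) * y w ^ 2)) w with hg
    have hgm : ∀ l, Measurable (g l) := by
      intro l
      apply Measurable.indicator _ (hS2m l)
      exact (((T.s_meas.pow_const al).mul_const _).const_mul _).ennreal_ofReal.mul hf
    have hq : ∀ l, ENNReal.ofReal (T.s (W l) ^ T.n) * I2 l ^ 2 ≤
        ENNReal.ofReal (η * (T.CV * R ^ (T.n + 1) * (8 / r) ^ (T.n + al))) * ∫⁻ w, g l w ∂T.V := by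
      intro l
      refine (El_bound_two T hV al (by omega) r R η (T.s (W l)) hrp hR hη0 (W l) (F.s_pos l) (S2 l)
        (hS2m l) (fun w hw => hw) y hy).trans ?_
      rw [← lintegral_indicator (hS2m l)]
      gcongr
      have h1 : η ^ (al - 1) ≤ η ^ 1 := pow_le_pow_of_le_one hη0 hη1 (by omega)
      rwa [pow_one] at h1
    refine (Finset.sum_le_sum (fun l _ => hq l)).trans ?_
    rw [← Finset.mul_sum, ← lintegral_finsetSum _ (fun l _ => hgm l)]
    have hpt : ∀ᵐ w ∂T.V, ∑ l, g l w ≤ ENNReal.ofReal ((8 * R / r) ^ (T.n + al) * CC) *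
        (ENNReal.ofReal (T.s w) * y w ^ 2) := by
      filter_upwards [hV] with w hw
      have h1 : ∀ l, g l w ≤ ENNReal.ofReal ((8 * R / r) ^ (T.n + al) *
          (T.s (W l) ^ T.n * (T.s w ^ al / T.d w (W l) ^ (T.n + al)))) *
          (ENNReal.ofReal (T.s w) * y w ^ 2) := by
        intro l
        by_cases hwl : w ∈ S2 l
        · show (S2 l).indicator _ w ≤ _
          rw [Set.indicator_of_mem hwl]
          apply mul_le_mul_left
          apply ENNReal.ofReal_le_ofReal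
          have hsl := F.s_pos l
          have hd : 0 < T.d w (W l) := TS.d_pos hsl w
          have h2 : 8 / (r * T.s (W l)) ≤ 8 * R / r * (1 / T.d w (W l)) := by
            rw [div_mul_div_comm, mul_one, div_le_div_iff₀ (by positivity) (by positivity)]
            have h3 := hwl.2
            nlinarith [mul_pos hrp hsl, mul_pos hrp hd]
          calc T.s (W l) ^ T.n * (T.s w ^ al * (8 / (r * T.s (W l))) ^ (T.n + al))
              ≤ T.s (W l) ^ T.n * (T.s w ^ al * (8 * R / r * (1 / T.d w (W l))) ^ (T.n + al)) := by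
                gcongr
            _ = _ := by rw [mul_pow, one_div, inv_pow]; ring
        · show (S2 l).indicator _ w ≤ _
          rw [Set.indicator_of_notMem hwl]
          exact zero_le
      refine (Finset.sum_le_sum (fun l _ => h1 l)).trans ?_
      rw [← Finset.sum_mul]
      gcongr
      rw [← ENNReal.ofReal_sum_of_nonneg]
      · apply ENNReal.ofReal_le_ofReal
        rw [← Finset.mul_sum]
        gcongr
        exact hcol_sum ι W F.s_pos F.carl w hw
      · intro l _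
        have hsl := F.s_pos l
        have hd : 0 < T.d w (W l) := TS.d_pos hsl w
        positivity
    calc ENNReal.ofReal (η * (T.CV * R ^ (T.n + 1) * (8 / r) ^ (T.n + al))) *
        ∫⁻ w, ∑ l, g l w ∂T.V
        ≤ ENNReal.ofReal (η * (T.CV * R ^ (T.n + 1) * (8 / r) ^ (T.n + al))) *
          ∫⁻ w, ENNReal.ofReal ((8 * R / r) ^ (T.n + al) * CC) *
        (ENNReal.ofReal (T.s w) * y w ^ 2) ∂T.V := by
          exact mul_le_mul' le_rfl (lintegral_mono_ae hpt)
      _ = ENNReal.ofReal (η * Cr) * nrm T y := by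
          rw [lintegral_const_mul _ hf, ← mul_assoc, ← ENNReal.ofReal_mul (by positivity)]
          unfold nrm
          congr 2
          rw [hCr]; ring
      _ ≤ _ := by
          gcongr
  calc ∑ l ∈ Finset.univ.filter (fun l => R * T.s (W l) ≤ 2),
        ENNReal.ofReal (T.s (W l) ^ T.n) * El T al R W own col v y l ^ 2
      ≤ ∑ l ∈ Finset.univ.filter (fun l => R * T.s (W l) ≤ 2),
        ENNReal.ofReal (T.s (W l) ^ T.n) * (4 * (I1 l ^ 2 + I2 l ^ 2)) := by
        apply Finset.sum_le_sum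
        intro l hl
        rw [Finset.mem_filter] at hl
        gcongr
        exact (pow_le_pow_left' (hEl l hl.2) 2).trans (El_bound_sq _ _)
    _ ≤ ∑ l, ENNReal.ofReal (T.s (W l) ^ T.n) * (4 * (I1 l ^ 2 + I2 l ^ 2)) :=
        Finset.sum_le_sum_of_subset (Finset.filter_subset _ _)
    _ = 4 * (∑ l, ENNReal.ofReal (T.s (W l) ^ T.n) * I1 l ^ 2 +
          ∑ l, ENNReal.ofReal (T.s (W l) ^ T.n) * I2 l ^ 2) := by
        rw [← Finset.sum_add_distrib, Finset.mul_sum]
        apply Finset.sum_congr rfl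
        intro l _
        ring
    _ ≤ 4 * (ENNReal.ofReal (ε / 8) * nrm T y + ENNReal.ofReal (ε / 8) * nrm T y) := by gcongr
    _ = ENNReal.ofReal ε * nrm T y := by
        have h1 : ENNReal.ofReal ε = 8 * ENNReal.ofReal (ε / 8) := by
          rw [show (8 : ℝ≥0∞) = ENNReal.ofReal 8 by simp, ← ENNReal.ofReal_mul (by norm_num)]
          congr 1; ring
        rw [h1]; ring

end RFE
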