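import Pool.Agent.Helper262.RU1
set_option autoImplicit false
open MeasureTheory Set Filter H262RU
open scoped ENNReal NNReal BigOperators

/-! Block E of MP_7ebef4_an (error operator): abstract definitions. -/

namespace RFE

variable {X : Type*} [MeasurableSpace X]

/-- the kernel `s(w)^p / d(z,w)^q` as an extended nonnegative real -/
noncomputable def kk (T : TS X) (p q : ℕ) (z w : X) : ℝ≥0∞ :=
  ENNReal.ofReal (T.s w ^ p / T.d z w ^ q)

/-- the weight `a(z) = ∑ A_i kap(W_i,z)^b` -/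
noncomputable def aw (T : TS X) {ι : Type*} [Fintype ι] (b : ℕ) (W : ι → X) (A : ι → ℝ) (z : X) : ℝ :=
  ∑ i, A i * T.kap (W i) z ^ b

/-- `om_l(z) = A_l kap(W_l,z)^m / a(z)` -/
noncomputable def om (T : TS X) {ι : Type*} [Fintype ι] (b m : ℕ) (W : ι → X) (A : ι → ℝ)
    (l : ι) (z : X) : ℝ :=
  A l * T.kap (W l) z ^ m / aw T b W A z

/-- what block E needs from the selected family of boxes -/
structure Fam (T : TS X) {ι : Type*} [Fintype ι] (b m : ℕ) (C0 : ℝ) (W : ι → X) (A : ι → ℝ)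
    (own : X → ι) : Prop where
  s_pos : ∀ i, 0 < T.s (W i)
  A_pos : ∀ i, 0 < A i
  own_meas : ∀ i, MeasurableSet {z | own z = i}
  near : ∀ z, 0 < T.s z → T.d z (W (own z)) ≤ C0 * T.s (W (own z))
  a_le : ∀ z, 0 < T.s z → aw T b W A z ≤ C0 * A (own z)
  sel : ∀ j l, T.s (W l) < T.s (W j) → A j * T.kap (W j) (W l) ^ m ≤ A l
  carl : ∀ (z : X) (ρ : ℝ), 0 < ρ →
    ∑ l ∈ Finset.univ.filter (fun l => T.d (W l) z < ρ), T.s (W l) ^ T.n ≤ C0 * ρ ^ T.n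
  count : ∀ (z : X) (t ρ : ℝ), 0 < t → t ≤ ρ →
    (((Finset.univ.filter (fun l => t ≤ T.s (W l) ∧ T.s (W l) < 2 * t ∧
      T.d (W l) z < ρ)).card : ℕ) : ℝ) ≤ C0 * (ρ / t) ^ T.n
  pack : ∀ (z : X) (ρ : ℝ), 0 < ρ → ∃ B : ℝ, 0 < B ∧
    (∀ l, T.d (W l) z < ρ → C0 * T.s (W l) ≤ ρ → B ≤ A l) ∧
    ∀ H : ℝ, 1 ≤ H →
      ∑ l ∈ Finset.univ.filter (fun l => T.d (W l) z < ρ ∧ C0 * T.s (W l) ≤ ρ ∧ H * B ≤ A l),
        T.s (W l) ^ T.n ≤ C0 / Real.sqrt H * ρ ^ T.n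

/-- separation inside a colour class -/
def Sep (T : TS X) {ι κ : Type*} (W : ι → X) (A : ι → ℝ) (col : ι → κ) (P K2 : ℝ) : Prop :=
  ∀ i l, i ≠ l → col i = col l → T.d (W i) (W l) < K2 * max (T.s (W i)) (T.s (W l)) →
    P * A i < A l ∨ P * A l < A i

/-- the source norm squared -/
noncomputable def nrm (T : TS X) (y : X → ℝ≥0∞) : ℝ≥0∞ :=
  ∫⁻ w, ENNReal.ofReal (T.s w) * y w ^ 2 ∂T.V

/-- the multiplier of part I: sum over the boxes `l` of the colour of the source `w`,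
different from the owner of `w` -/
noncomputable def chi (T : TS X) {ι κ : Type} [Fintype ι] [DecidableEq ι] [DecidableEq κ]
    (b m : ℕ) (W : ι → X) (A : ι → ℝ) (own : X → ι) (col : ι → κ) (z w : X) : ℝ≥0∞ :=
  ∑ l, if col l = col (own w) ∧ l ≠ own w then ENNReal.ofReal (om T b m W A l z) else 0

/-- `Ψ_l` -/
noncomputable def Psi (T : TS X) (al : ℕ) (R : ℝ) (wl : X) (y : X → ℝ≥0∞) : ℝ≥0∞ :=
  ∫⁻ w in {w | R * T.s wl ≤ T.d w wl},
    ENNReal.ofReal (T.s w ^ al / T.d w wl ^ (T.n + al) * Real.sqrt (T.s wl / T.d w wl)) * y w ∂T.V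

/-- the evaluation error `E_l` : sources of the colour of `l` with `d(w,W_l) < R s_l`,
kernel at `v_l` -/
noncomputable def El (T : TS X) {ι κ : Type} (al : ℕ) (R : ℝ) (W : ι → X) (own : X → ι)
    (col : ι → κ) (v : ι → X) (y : X → ℝ≥0∞) (l : ι) : ℝ≥0∞ :=
  ∫⁻ w in {w | col (own w) = col l ∧ T.d w (W l) < R * T.s (W l)},
    kk T al (T.n + al) (v l) w * y w ∂T.V

/-- the pointwise majorant of `Z_l(z)` -/
noncomputable def BL (T : TS X) {ι κ : Type} (al : ℕ) (r : ℝ) (W : ι → X) (own : X → ι)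
    (col : ι → κ) (v : ι → X) (x : ι → ℝ≥0∞) (y : X → ℝ≥0∞) (l : ι) (z : X) : ℝ≥0∞ :=
  (∫⁻ w in {w | col (own w) = col l ∧ own w ≠ l ∧ T.d w (W l) < r ^ 2 * T.s (W l)},
      kk T al (T.n + al) z w * y w ∂T.V) +
  (∫⁻ w in {w | r ^ 2 * T.s (W l) ≤ T.d w (W l) ∧ T.d w (W l) ≤ 8 * T.d z (W l)},
      kk T al (T.n + al) z w * y w ∂T.V) +
  ENNReal.ofReal (Real.sqrt (T.d z (W l) / T.s (W l) + r)) * Psi T al (r ^ 2) (W l) y +
  x l + El T al (r ^ 2) W own col v y l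

end RFE
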