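import Pool.Agent.Helper157.RF.E3
import Pool.Agent.Helper157.RF.E4
import Pool.Agent.Helper157.RF.E6
import Pool.Agent.Helper157.RF.E8
import Pool.Agent.Helper157.RF.E9
import Pool.Agent.Helper157.RF.E10
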