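import Pool.Agent.Helper157.RF.PartIIb
set_option autoImplicit false
open MeasureTheory Set Filter H262RU
open scoped ENNReal NNReal BigOperators

namespace RFE

variable {X : Type*} [MeasurableSpace X]

section
variable (T : TS X) {ι κ : Type} [Fintype ι] [DecidableEq ι] [DecidableEq κ] {b m : ℕ} {C0 : ℝ}
  {W : ι → X} {A : ι → ℝ} {own : X → ι}

/-- source sets of part I -/
def Pall (W : ι → X) (own : X → ι) (col : ι → κ) (l : ι) : Set (X × X) :=
  {p | col (own p.2) = col l ∧ own p.2 ≠ l}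

theorem Pall_meas (hF : Fam T b m C0 W A own) (col : ι → κ) (l : ι) :
    MeasurableSet (Pall W own col l) := by
  have h1 : MeasurableSet {w : X | col (own w) = col l ∧ own w ≠ l} :=
    own_set T hF (fun i => col i = col l ∧ i ≠ l)
  exact measurable_snd h1

theorem chS_all (col : ι → κ) (z w : X) :
    chS T b m W A (Pall W own col) z w = chi T b m W A own col z w := by
  unfold chS chi
  refine Finset.sum_congr rfl fun l _ => ?_
  by_cases h : (z, w) ∈ Pall W own col l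
  · rw [Set.indicator_of_mem h, if_pos ⟨h.1.symm, h.2.symm⟩]
  · rw [Set.indicator_of_notMem h, if_neg]
    intro h2
    exact h ⟨h2.1.symm, h2.2.symm⟩

/-- reduction of the `g_l D Z_l` sum to the kernel of part I -/
theorem loc_gen0 (hd : Measurable (Function.uncurry T.d)) (p q : ℕ)
    (P : ι → Set (X × X)) (hP : ∀ l, MeasurableSet (P l))
    (y : X → ℝ≥0∞) (hy : Measurable y) (z : X) :
    ∑ l, ENNReal.ofReal (om T b m W A l z) *
      (∫⁻ w in {w | (z, w) ∈ P l}, kk T p q z w * y w ∂T.V) =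
    ∫⁻ w, kk T p q z w * chS T b m W A P z w * y w ∂T.V := by
  have hkm : ∀ p q, Measurable (kk T p q z) := fun p q =>
    (kk_meas T hd p q).comp measurable_prodMk_left
  have hPm : ∀ l, MeasurableSet {w | (z, w) ∈ P l} := fun l =>
    measurable_prodMk_left (hP l)
  have e1 : ∀ l, ENNReal.ofReal (om T b m W A l z) *
      (∫⁻ w in {w | (z, w) ∈ P l}, kk T p q z w * y w ∂T.V) =
      ∫⁻ w, ({w | (z, w) ∈ P l}.indicator (fun w =>
        ENNReal.ofReal (om T b m W A l z) * (kk T p q z w * y w))) w ∂T.V := by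
    intro l
    rw [lintegral_indicator (hPm l), lintegral_const_mul]
    exact (hkm _ _).mul hy
  rw [Finset.sum_congr rfl (fun l _ => e1 l)]
  rw [← lintegral_finsetSum]
  swap
  · intro l _
    exact Measurable.indicator (((hkm _ _).mul hy).const_mul _) (hPm l)
  refine lintegral_congr fun w => ?_
  unfold chS
  rw [Finset.mul_sum, Finset.sum_mul]
  refine Finset.sum_congr rfl fun l _ => ?_
  by_cases hl : (z, w) ∈ P l
  · rw [Set.indicator_of_mem (show w ∈ {w | (z, w) ∈ P l} from hl), Set.indicator_of_mem hl]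
    ring
  · rw [Set.indicator_of_notMem (show w ∉ {w | (z, w) ∈ P l} from hl),
      Set.indicator_of_notMem hl, mul_zero, zero_mul]

theorem setint_meas (hd : Measurable (Function.uncurry T.d)) (p q : ℕ)
    (P : Set (X × X)) (hP : MeasurableSet P) (y : X → ℝ≥0∞) (hy : Measurable y) :
    Measurable (fun z => ∫⁻ w in {w | (z, w) ∈ P}, kk T p q z w * y w ∂T.V) := by
  have h1 : ∀ z, ∫⁻ w in {w | (z, w) ∈ P}, kk T p q z w * y w ∂T.V =
      ∫⁻ w, P.indicator (fun x : X × X => kk T p q x.1 x.2 * y x.2) (z, w) ∂T.V := by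
    intro z
    rw [← lintegral_indicator (show MeasurableSet {w | (z, w) ∈ P} from measurable_prodMk_left hP)]
    refine lintegral_congr fun w => ?_
    by_cases hl : (z, w) ∈ P
    · rw [Set.indicator_of_mem (show w ∈ {w | (z, w) ∈ P} from hl), Set.indicator_of_mem hl]
    · rw [Set.indicator_of_notMem (show w ∉ {w | (z, w) ∈ P} from hl),
        Set.indicator_of_notMem hl]
  simp only [h1]
  have h2 : Measurable (P.indicator (fun x : X × X => kk T p q x.1 x.2 * y x.2)) :=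
    Measurable.indicator ((kk_meas T hd p q).mul (hy.comp measurable_snd)) hP
  exact Measurable.lintegral_prod_right' h2

/-- U0: part I -/
theorem U0_bound (hd : Measurable (Function.uncurry T.d)) (al : ℕ) (CI : ℝ)
    (hI : ∀ (χ : X → X → ℝ≥0∞), Measurable (Function.uncurry χ) → ∀ (B ε : ℝ≥0∞) (R : ℝ), 1 ≤ R →
      (∀ z w, 0 < T.s z → 0 < T.s w → χ z w ≤ B) →
      (∀ z w, 0 < T.s z → 0 < T.s w → T.d z w < R * T.s z → T.d z w < R * T.s w → χ z w ≤ ε) →
      ∀ y : X → ℝ≥0∞, Measurable y →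
      ∫⁻ z, ENNReal.ofReal (T.s z) *
        (∫⁻ w, kk T al (T.n + 1 + al) z w * χ z w * y w ∂T.V) ^ 2 ∂T.V ≤
      ENNReal.ofReal CI * (ε ^ 2 + B ^ 2 * ENNReal.ofReal (1 / R)) * nrm T y)
    (hF : Fam T b m C0 W A own) (hm : b ≤ m) (col : ι → κ)
    (R2 ε1 : ℝ) (hR2 : 1 ≤ R2)
    (hchi : ∀ z w, 0 < T.s z → 0 < T.s w → T.d z w < R2 * T.s z → T.d z w < R2 * T.s w →
        chi T b m W A own col z w ≤ ENNReal.ofReal ε1)
    (y : X → ℝ≥0∞) (hy : Measurable y) :
    ∫⁻ z, ENNReal.ofReal (T.s z) * (∑ l, ENNReal.ofReal (om T b m W A l z) *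
      (∫⁻ w in {w | (z, w) ∈ Pall W own col l}, kk T al (T.n + 1 + al) z w * y w ∂T.V)) ^ 2 ∂T.V ≤
    ENNReal.ofReal CI * (ENNReal.ofReal ε1 ^ 2 +
      ENNReal.ofReal (2 ^ (m - b)) ^ 2 * ENNReal.ofReal (1 / R2)) * nrm T y := by
  have h1 := hI (chS T b m W A (Pall W own col)) (chS_meas T _ (Pall_meas T hF col))
    (ENNReal.ofReal (2 ^ (m - b))) (ENNReal.ofReal ε1) R2 hR2
    (fun z w _ _ => (chS_all T col z w).le.trans (chi_le T hF hm col z w))
    (fun z w a1 a2 a3 a4 => (chS_all T col z w).le.trans (hchi z w a1 a2 a3 a4)) y hy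
  refine le_trans (le_of_eq ?_) h1
  refine lintegral_congr fun z => ?_
  rw [loc_gen0 T hd al (T.n + 1 + al) (Pall W own col) (Pall_meas T hF col) y hy z]

theorem sq_six (a : Fin 6 → ℝ≥0∞) : (∑ i, a i) ^ 2 ≤ 12 * ∑ i, a i ^ 2 := by
  have h := cs_fin Finset.univ (fun _ : Fin 6 => (1 : ℝ≥0∞)) a
  simp only [one_mul, Finset.sum_const, Finset.card_univ, Fintype.card_fin, nsmul_eq_mul,
    mul_one] at h
  refine h.trans (le_of_eq ?_)
  norm_num

end

/-- **Block E, combined estimate.** -/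
theorem E_total (T : TS X) (hd : Measurable (Function.uncurry T.d))
    (hV : ∀ᵐ w ∂T.V, 0 < T.s w) (b m al : ℕ) (hb : 1 ≤ b)
    (hm : b + T.n + 2 ≤ m) (hal : 2 ≤ al) (C0 : ℝ) (hC0 : 1 ≤ C0) :
    ∃ C : ℝ, 0 < C ∧ ∀ ε : ℝ, 0 < ε →
    ∃ r0 : ℝ, 1 ≤ r0 ∧ ∀ r : ℝ, r0 ≤ r → ∃ P0 K0 : ℝ, 1 ≤ P0 ∧ 1 ≤ K0 ∧
    ∀ (ι κ : Type) [Fintype ι] [DecidableEq ι] [DecidableEq κ] (W : ι → X) (A : ι → ℝ)
      (own : X → ι) (col : ι → κ), Fam T b m C0 W A own →
      ∀ P K2 : ℝ, P0 ≤ P → K0 ≤ K2 → Sep T W A col P K2 →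
      ∀ (v : ι → X), (∀ l, r ^ 2 * T.s (W l) ≤ 2 → r * T.s (W l) / 4 ≤ T.s (v l) ∧
        T.d (v l) (W l) ≤ 4 * r * T.s (W l)) →
      ∀ (x : ι → ℝ≥0∞) (y : X → ℝ≥0∞), Measurable y → ∀ u : X → ℝ≥0∞,
      (∀ z, 0 < T.s z → u z ≤
        (∑ l, ENNReal.ofReal (om T b m W A l z) *
          (∫⁻ w in {w | col (own w) = col l ∧ own w ≠ l},
            kk T al (T.n + 1 + al) z w * y w ∂T.V)) +
        ∑ l, ENNReal.ofReal (om T b m W A l z / T.d z (W l)) *
          (if r ^ 2 * T.s (W l) ≤ 2 then BL T al r W own col v x y l z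
          else ∫⁻ w in {w | col (own w) = col l ∧ own w ≠ l},
              kk T al (T.n + al) z w * y w ∂T.V)) →
      nrm T u ≤ ENNReal.ofReal ε * nrm T y + ENNReal.ofReal C *
        ∑ l ∈ Finset.univ.filter (fun l => r ^ 2 * T.s (W l) ≤ 2),
          ENNReal.ofReal (T.s (W l) ^ T.n) * x l ^ 2 := by
  obtain ⟨CI, hCI, hI⟩ := partI T hd hV al hal
  obtain ⟨CM, hCM, hM⟩ := int_om T b m hm
  obtain ⟨CP, hCP, hP⟩ := psi_bound T hV al (by omega) C0
  set D : ℝ := 2 ^ (m - b) with hD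
  have hD1 : 1 ≤ D := one_le_pow₀ (by norm_num)
  have hD0 : 0 < D := by linarith
  refine ⟨96 * D * CM, by positivity, ?_⟩
  intro ε hε
  -- constants
  obtain ⟨εE, hεE⟩ : ∃ εE : ℝ, εE = ε / (4 * (96 * D * CM)) := ⟨_, rfl⟩
  have hεE0 : 0 < εE := by rw [hεE]; positivity
  obtain ⟨r1, hr1, hEl⟩ := El_bound T hV b m al hb (by omega) hal C0 hC0 εE hεE0
  obtain ⟨Q, hQ⟩ : ∃ Q : ℝ, Q = 12 * 36 ^ 2 * 128 * CI + 48 * D * CM * CP := ⟨_, rfl⟩
  have hQ0 : 0 < Q := by rw [hQ]; positivity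
  refine ⟨max r1 (max 3 (4 * Q / ε)), le_max_of_le_left hr1, ?_⟩
  intro r hr
  have hrr1 : r1 ≤ r := (le_max_left _ _).trans hr
  have hr3 : 3 ≤ r := ((le_max_left _ _).trans (le_max_right _ _)).trans hr
  have hrQ : 4 * Q / ε ≤ r := ((le_max_right _ _).trans (le_max_right _ _)).trans hr
  have hr0 : 0 < r := by linarith
  obtain ⟨PE, KE, hPE, hKE, hEl2⟩ := hEl r hrr1
  obtain ⟨E1, hE1⟩ : ∃ E1 : ℝ, E1 = 12 * CI * (1 + (4 * (1 + 2 * r ^ 2)) ^ 2) := ⟨_, rfl⟩
  have hE10 : 0 < E1 := by rw [hE1]; positivity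
  obtain ⟨ε1, hε1⟩ : ∃ ε1 : ℝ, ε1 = min 1 (ε / (8 * E1)) := ⟨_, rfl⟩
  have hε10 : 0 < ε1 := by rw [hε1]; positivity
  have hε11 : ε1 ≤ 1 := by rw [hε1]; exact min_le_left _ _
  have hε12 : ε1 ≤ ε / (8 * E1) := by rw [hε1]; exact min_le_right _ _
  obtain ⟨R2, hR2⟩ : ∃ R2 : ℝ, R2 = max 1 (8 * E1 * D ^ 2 / ε) := ⟨_, rfl⟩
  have hR21 : 1 ≤ R2 := by rw [hR2]; exact le_max_left _ _
  have hR22 : 8 * E1 * D ^ 2 / ε ≤ R2 := by rw [hR2]; exact le_max_right _ _
  have hR20 : 0 < R2 := by linarith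
  obtain ⟨PC, KC, hPC, hKC, hchi⟩ := chi_small T b m hb (by omega) C0 hC0 R2 hR21 ε1 hε10
  refine ⟨max PE PC, max KE KC, le_max_of_le_left hPE, le_max_of_le_left hKE, ?_⟩
  intro ι κ _ _ _ W A own col hF P K2 hPP hKK hsep v hv x y hy u hu
  have hchi2 := hchi ι κ W A own col hF P K2 ((le_max_right _ _).trans hPP)
    ((le_max_right _ _).trans hKK) hsep
  have hEl3 := hEl2 ι κ W A own col hF P K2 ((le_max_left _ _).trans hPP)
    ((le_max_left _ _).trans hKK) hsep v hv y hy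
  have hr9 : 8 ≤ r ^ 2 := by nlinarith
  have hmb : b ≤ m := by omega
  -- the six functions
  let U0 : X → ℝ≥0∞ := fun z => ∑ l, ENNReal.ofReal (om T b m W A l z) *
      (∫⁻ w in {w | (z, w) ∈ Pall W own col l}, kk T al (T.n + 1 + al) z w * y w ∂T.V)
  let U1 : X → ℝ≥0∞ := fun z => ∑ l, ENNReal.ofReal (om T b m W A l z / T.d z (W l)) *
      (∫⁻ w in {w | (z, w) ∈ Ploc T (r ^ 2) W own col l}, kk T al (T.n + al) z w * y w ∂T.V)
  let U2 : X → ℝ≥0∞ := fun z => ∑ l, ENNReal.ofReal (om T b m W A l z / T.d z (W l)) *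
      (∫⁻ w in {w | (z, w) ∈ Pmid T (r ^ 2) W l}, kk T al (T.n + al) z w * y w ∂T.V)
  let U3 : X → ℝ≥0∞ := fun z => ∑ l, ENNReal.ofReal (om T b m W A l z / T.d z (W l)) *
      (ENNReal.ofReal (Real.sqrt (T.d z (W l) / T.s (W l) + r)) * Psi T al (r ^ 2) (W l) y)
  let U4 : X → ℝ≥0∞ := fun z => ∑ l, ENNReal.ofReal (om T b m W A l z / T.d z (W l)) *
      (if r ^ 2 * T.s (W l) ≤ 2 then x l else 0)
  let U5 : X → ℝ≥0∞ := fun z => ∑ l, ENNReal.ofReal (om T b m W A l z / T.d z (W l)) *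
      (if r ^ 2 * T.s (W l) ≤ 2 then El T al (r ^ 2) W own col v y l else 0)
  let UU : Fin 6 → X → ℝ≥0∞ := ![U0, U1, U2, U3, U4, U5]
  have hom : ∀ l, Measurable (fun z => ENNReal.ofReal (om T b m W A l z)) := fun l =>
    ENNReal.measurable_ofReal.comp (om_meas T b m W A l)
  have homd : ∀ l, Measurable (fun z => ENNReal.ofReal (om T b m W A l z / T.d z (W l))) :=
    fun l => ENNReal.measurable_ofReal.comp ((om_meas T b m W A l).div (T.d_meas (W l)))
  have hU0 : Measurable U0 := Finset.measurable_sum _ fun l _ =>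
    (hom l).mul (setint_meas T hd _ _ _ (Pall_meas T hF col l) y hy)
  have hU1 : Measurable U1 := Finset.measurable_sum _ fun l _ =>
    (homd l).mul (setint_meas T hd _ _ _ (Ploc_meas T hF (r ^ 2) col l) y hy)
  have hU2 : Measurable U2 := Finset.measurable_sum _ fun l _ =>
    (homd l).mul (setint_meas T hd _ _ _ (Pmid_meas T (r ^ 2) W l) y hy)
  have hU3 : Measurable U3 := Finset.measurable_sum _ fun l _ =>
    (homd l).mul (Measurable.mul_const (ENNReal.measurable_ofReal.comp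
      (Real.continuous_sqrt.measurable.comp (((T.d_meas (W l)).div_const _).add_const _))) _)
  have hU4 : Measurable U4 := Finset.measurable_sum _ fun l _ => (homd l).mul_const _
  have hU5 : Measurable U5 := Finset.measurable_sum _ fun l _ => (homd l).mul_const _
  have hUU : ∀ i, Measurable (UU i) := by
    intro i
    fin_cases i
    · exact hU0
    · exact hU1
    · exact hU2
    · exact hU3
    · exact hU4
    · exact hU5
  have hsm : Measurable (fun z => ENNReal.ofReal (T.s z)) :=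
    ENNReal.measurable_ofReal.comp T.s_meas
  -- pointwise
  have hpt : ∀ z, 0 < T.s z → u z ≤ ∑ i, UU i z := by
    intro z hz
    refine (hu z hz).trans ?_
    have e1 : ∑ i, UU i z = U0 z + (U1 z + U2 z + U3 z + U4 z + U5 z) := by
      rw [Fin.sum_univ_six]
      show U0 z + U1 z + U2 z + U3 z + U4 z + U5 z = _
      ring
    rw [e1]
    refine add_le_add le_rfl ?_
    show _ ≤ (∑ l, _) + (∑ l, _) + (∑ l, _) + (∑ l, _) + (∑ l, _)
    rw [← Finset.sum_add_distrib, ← Finset.sum_add_distrib, ← Finset.sum_add_distrib,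
      ← Finset.sum_add_distrib]
    refine Finset.sum_le_sum fun l _ => ?_
    rw [← mul_add, ← mul_add, ← mul_add, ← mul_add]
    refine mul_le_mul' le_rfl ?_
    split_ifs with hl
    · exact le_rfl
    · rw [add_zero, add_zero]
      have hsub : {w | col (own w) = col l ∧ own w ≠ l} ⊆
          {w | (z, w) ∈ Ploc T (r ^ 2) W own col l} := by
        intro w hw
        refine ⟨hw.1, hw.2, ?_⟩
        push Not at hl
        exact (T.d_le w (W l)).trans_lt hl
      calc ∫⁻ w in {w | col (own w) = col l ∧ own w ≠ l}, kk T al (T.n + al) z w * y w ∂T.V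
          ≤ ∫⁻ w in {w | (z, w) ∈ Ploc T (r ^ 2) W own col l},
            kk T al (T.n + al) z w * y w ∂T.V := lintegral_mono_set hsub
        _ ≤ _ := by
            rw [add_assoc]
            exact le_self_add
  have b0 := U0_bound T hd al CI hI hF hmb col R2 ε1 hR21 hchi2 y hy
  have b1 := U1_bound T hd hV al CI hI hF hmb (r ^ 2) (by positivity) col R2 ε1 hR21 hchi2 y hy
  have b2 := U2_bound T hd hV al CI hI hF (by omega) (r ^ 2) hr9 y hy
  have hint := hM ι C0 W A own hF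
  have b3 := U3_bound T hV CM hCM.le hF hmb hint r hr0.le
    (fun l => Psi T al (r ^ 2) (W l) y)
  have b4 := U4_bound T hV CM hCM.le hF hmb hint
    (fun l => if r ^ 2 * T.s (W l) ≤ 2 then x l else 0)
  have b5 := U4_bound T hV CM hCM.le hF hmb hint
    (fun l => if r ^ 2 * T.s (W l) ≤ 2 then El T al (r ^ 2) W own col v y l else 0)
  have hpsi := hP ι W hF.s_pos hF.carl (r ^ 2) (by nlinarith) y hy
  have efil : ∀ g : ι → ℝ≥0∞, ∑ l, ENNReal.ofReal (T.s (W l) ^ T.n) *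
      (if r ^ 2 * T.s (W l) ≤ 2 then g l else 0) ^ 2 =
      ∑ l ∈ Finset.univ.filter (fun l => r ^ 2 * T.s (W l) ≤ 2),
        ENNReal.ofReal (T.s (W l) ^ T.n) * g l ^ 2 := by
    intro g
    rw [Finset.sum_filter]
    refine Finset.sum_congr rfl fun l _ => ?_
    split_ifs
    · rfl
    · simp
  rw [efil] at b4 b5
  -- total
  have htot : nrm T u ≤ 12 * ∑ i, ∫⁻ z, ENNReal.ofReal (T.s z) * UU i z ^ 2 ∂T.V := by
    unfold nrm
    calc ∫⁻ z, ENNReal.ofReal (T.s z) * u z ^ 2 ∂T.V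
        ≤ ∫⁻ z, 12 * ∑ i, ENNReal.ofReal (T.s z) * UU i z ^ 2 ∂T.V := by
          refine lintegral_mono_ae ?_
          filter_upwards [hV] with z hz
          calc ENNReal.ofReal (T.s z) * u z ^ 2
              ≤ ENNReal.ofReal (T.s z) * (12 * ∑ i, UU i z ^ 2) :=
                mul_le_mul' le_rfl ((pow_le_pow_left' (hpt z hz) 2).trans (sq_six _))
            _ = 12 * ∑ i, ENNReal.ofReal (T.s z) * UU i z ^ 2 := by
                rw [← Finset.mul_sum]; ring
      _ = 12 * ∑ i, ∫⁻ z, ENNReal.ofReal (T.s z) * UU i z ^ 2 ∂T.V := by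
          rw [lintegral_const_mul' _ _ (by norm_num), lintegral_finsetSum]
          intro i _
          exact hsm.mul ((hUU i).pow_const 2)
  have hsum : ∑ i, ∫⁻ z, ENNReal.ofReal (T.s z) * UU i z ^ 2 ∂T.V =
      (∫⁻ z, ENNReal.ofReal (T.s z) * U0 z ^ 2 ∂T.V) + (∫⁻ z, ENNReal.ofReal (T.s z) * U1 z ^ 2 ∂T.V)
      + (∫⁻ z, ENNReal.ofReal (T.s z) * U2 z ^ 2 ∂T.V) + (∫⁻ z, ENNReal.ofReal (T.s z) * U3 z ^ 2 ∂T.V)
      + (∫⁻ z, ENNReal.ofReal (T.s z) * U4 z ^ 2 ∂T.V) +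
      (∫⁻ z, ENNReal.ofReal (T.s z) * U5 z ^ 2 ∂T.V) := by
    rw [Fin.sum_univ_six]
    rfl
  rw [hsum] at htot
  -- numerical bounds
  have c01 : 12 * ((∫⁻ z, ENNReal.ofReal (T.s z) * U0 z ^ 2 ∂T.V) +
      (∫⁻ z, ENNReal.ofReal (T.s z) * U1 z ^ 2 ∂T.V)) ≤ ENNReal.ofReal (ε / 4) * nrm T y := by
    calc 12 * ((∫⁻ z, ENNReal.ofReal (T.s z) * U0 z ^ 2 ∂T.V) +
      (∫⁻ z, ENNReal.ofReal (T.s z) * U1 z ^ 2 ∂T.V))
        ≤ 12 * (ENNReal.ofReal CI * (ENNReal.ofReal ε1 ^ 2 +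
            ENNReal.ofReal (2 ^ (m - b)) ^ 2 * ENNReal.ofReal (1 / R2)) * nrm T y +
          ENNReal.ofReal (4 * (1 + 2 * r ^ 2)) ^ 2 * (ENNReal.ofReal CI * (ENNReal.ofReal ε1 ^ 2 +
            ENNReal.ofReal (2 ^ (m - b)) ^ 2 * ENNReal.ofReal (1 / R2))) * nrm T y) :=
          mul_le_mul' le_rfl (add_le_add b0 b1)
      _ = ENNReal.ofReal (E1 * (ε1 ^ 2 + D ^ 2 * (1 / R2))) * nrm T y := by
          have e12 : (12 : ℝ≥0∞) = ENNReal.ofReal 12 := by simp
          have eA : ENNReal.ofReal (E1 * (ε1 ^ 2 + D ^ 2 * (1 / R2))) =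
              ENNReal.ofReal 12 * ENNReal.ofReal CI * (1 + ENNReal.ofReal (4 * (1 + 2 * r ^ 2)) ^ 2) *
              (ENNReal.ofReal ε1 ^ 2 + ENNReal.ofReal D ^ 2 * ENNReal.ofReal (1 / R2)) := by
            rw [hE1, ENNReal.ofReal_mul (by positivity), ENNReal.ofReal_mul (by positivity),
              ENNReal.ofReal_mul (by norm_num), ENNReal.ofReal_add (by norm_num) (by positivity),
              ENNReal.ofReal_one, ENNReal.ofReal_pow (by positivity),
              ENNReal.ofReal_add (by positivity) (by positivity), ENNReal.ofReal_pow hε10.le,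
              ENNReal.ofReal_mul (show (0 : ℝ) ≤ D ^ 2 by positivity), ENNReal.ofReal_pow hD0.le]
          rw [eA, ← hD, e12]
          ring
      _ ≤ ENNReal.ofReal (ε / 4) * nrm T y := by
          refine mul_le_mul' (ENNReal.ofReal_le_ofReal ?_) le_rfl
          have h1 : E1 * ε1 ^ 2 ≤ ε / 8 := by
            have h2 : ε1 ^ 2 ≤ ε1 := by nlinarith
            have h3 : E1 * ε1 ≤ E1 * (ε / (8 * E1)) := by gcongr
            have h4 : E1 * (ε / (8 * E1)) = ε / 8 := by field_simp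
            nlinarith
          have h5 : E1 * (D ^ 2 * (1 / R2)) ≤ ε / 8 := by
            rw [div_le_iff₀ hε] at hR22
            rw [mul_one_div, mul_div_assoc', div_le_iff₀ hR20]
            linarith
          linarith
  have c23 : 12 * ((∫⁻ z, ENNReal.ofReal (T.s z) * U2 z ^ 2 ∂T.V) +
      (∫⁻ z, ENNReal.ofReal (T.s z) * U3 z ^ 2 ∂T.V)) ≤ ENNReal.ofReal (ε / 4) * nrm T y := by
    calc 12 * ((∫⁻ z, ENNReal.ofReal (T.s z) * U2 z ^ 2 ∂T.V) +
      (∫⁻ z, ENNReal.ofReal (T.s z) * U3 z ^ 2 ∂T.V))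
        ≤ 12 * (ENNReal.ofReal 36 ^ 2 * (ENNReal.ofReal CI * (2 * ENNReal.ofReal (8 / r ^ 2) ^ 2)) *
            nrm T y + 2 * ENNReal.ofReal (2 ^ (m - b)) * (ENNReal.ofReal (CM * (1 + r)) *
            (ENNReal.ofReal (CP / r ^ 2) * nrm T y))) :=
          mul_le_mul' le_rfl (add_le_add b2 (b3.trans
            (mul_le_mul' le_rfl (mul_le_mul' le_rfl hpsi))))
      _ = ENNReal.ofReal (12 * (36 ^ 2 * (CI * (2 * (8 / r ^ 2) ^ 2)) +
            2 * D * (CM * (1 + r) * (CP / r ^ 2)))) * nrm T y := by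
          have e12 : (12 : ℝ≥0∞) = ENNReal.ofReal 12 := by simp
          have e2 : (2 : ℝ≥0∞) = ENNReal.ofReal 2 := by simp
          have eA : ENNReal.ofReal (12 * (36 ^ 2 * (CI * (2 * (8 / r ^ 2) ^ 2)) +
            2 * D * (CM * (1 + r) * (CP / r ^ 2)))) =
            ENNReal.ofReal 12 * (ENNReal.ofReal 36 ^ 2 * (ENNReal.ofReal CI * (ENNReal.ofReal 2 *
              ENNReal.ofReal (8 / r ^ 2) ^ 2)) + ENNReal.ofReal 2 * ENNReal.ofReal D *
              (ENNReal.ofReal (CM * (1 + r)) * ENNReal.ofReal (CP / r ^ 2))) := by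
            rw [ENNReal.ofReal_mul (by norm_num), ENNReal.ofReal_add (by positivity) (by positivity),
              ENNReal.ofReal_mul (by positivity), ENNReal.ofReal_pow (by norm_num),
              ENNReal.ofReal_mul (by positivity), ENNReal.ofReal_mul (by norm_num),
              ENNReal.ofReal_pow (by positivity), ENNReal.ofReal_mul (by positivity),
              ENNReal.ofReal_mul (by norm_num), ENNReal.ofReal_mul (by positivity)]
          rw [eA, ← hD, e12, e2]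
          ring
      _ ≤ ENNReal.ofReal (ε / 4) * nrm T y := by
          refine mul_le_mul' (ENNReal.ofReal_le_ofReal ?_) le_rfl
          have h1 : 12 * (36 ^ 2 * (CI * (2 * (8 / r ^ 2) ^ 2)) +
              2 * D * (CM * (1 + r) * (CP / r ^ 2))) ≤ Q / r := by
            have e3 : (8 / r ^ 2) ^ 2 ≤ 64 / r := by
              rw [div_pow, div_le_div_iff₀ (by positivity) hr0]
              have : r ≤ (r ^ 2) ^ 2 := by nlinarith [sq_nonneg (r ^ 2 - 1), sq_nonneg r]
              nlinarith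
            have e4 : (1 + r) * (CP / r ^ 2) ≤ 2 * CP / r := by
              rw [mul_div_assoc', div_le_div_iff₀ (by positivity) hr0]
              have : (1 + r) * r ≤ 2 * r ^ 2 := by nlinarith
              nlinarith
            calc 12 * (36 ^ 2 * (CI * (2 * (8 / r ^ 2) ^ 2)) +
                2 * D * (CM * (1 + r) * (CP / r ^ 2)))
                = 12 * 36 ^ 2 * 2 * CI * (8 / r ^ 2) ^ 2 +
                  24 * D * CM * ((1 + r) * (CP / r ^ 2)) := by ring
              _ ≤ 12 * 36 ^ 2 * 2 * CI * (64 / r) + 24 * D * CM * (2 * CP / r) := by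
                  gcongr
              _ = Q / r := by rw [hQ]; ring
          refine h1.trans ?_
          rw [div_le_iff₀ hε] at hrQ
          rw [div_le_div_iff₀ hr0 (by norm_num)]
          linarith
  have c5 : 12 * (∫⁻ z, ENNReal.ofReal (T.s z) * U5 z ^ 2 ∂T.V) ≤
      ENNReal.ofReal (ε / 4) * nrm T y := by
    calc 12 * (∫⁻ z, ENNReal.ofReal (T.s z) * U5 z ^ 2 ∂T.V)
        ≤ 12 * (4 * (2 * ENNReal.ofReal (2 ^ (m - b)) * (ENNReal.ofReal CM *
            (ENNReal.ofReal εE * nrm T y)))) :=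
          mul_le_mul' le_rfl (b5.trans (mul_le_mul' le_rfl (mul_le_mul' le_rfl
            (mul_le_mul' le_rfl hEl3))))
      _ = ENNReal.ofReal (96 * D * CM * εE) * nrm T y := by
          rw [ENNReal.ofReal_mul (by positivity), ENNReal.ofReal_mul (by positivity),
            ENNReal.ofReal_mul (by norm_num), ← hD]
          have e96 : ENNReal.ofReal 96 = 12 * (4 * 2) := by
            rw [show (96 : ℝ) = ((96 : ℕ) : ℝ) by norm_num, ENNReal.ofReal_natCast]
            norm_num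
          rw [e96]
          ring
      _ = ENNReal.ofReal (ε / 4) * nrm T y := by
          congr 2
          rw [hεE]
          field_simp
  have c4 : 12 * (∫⁻ z, ENNReal.ofReal (T.s z) * U4 z ^ 2 ∂T.V) ≤
      ENNReal.ofReal (96 * D * CM) * ∑ l ∈ Finset.univ.filter (fun l => r ^ 2 * T.s (W l) ≤ 2),
        ENNReal.ofReal (T.s (W l) ^ T.n) * x l ^ 2 := by
    calc 12 * (∫⁻ z, ENNReal.ofReal (T.s z) * U4 z ^ 2 ∂T.V)
        ≤ 12 * (4 * (2 * ENNReal.ofReal (2 ^ (m - b)) * (ENNReal.ofReal CM *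
            ∑ l ∈ Finset.univ.filter (fun l => r ^ 2 * T.s (W l) ≤ 2),
              ENNReal.ofReal (T.s (W l) ^ T.n) * x l ^ 2))) :=
          mul_le_mul' le_rfl b4
      _ = _ := by
          rw [ENNReal.ofReal_mul (by positivity), ENNReal.ofReal_mul (by norm_num), ← hD]
          have e96 : ENNReal.ofReal 96 = 12 * (4 * 2) := by
            rw [show (96 : ℝ) = ((96 : ℕ) : ℝ) by norm_num, ENNReal.ofReal_natCast]
            norm_num
          rw [e96]
          ring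
  calc nrm T u ≤ _ := htot
    _ = 12 * ((∫⁻ z, ENNReal.ofReal (T.s z) * U0 z ^ 2 ∂T.V) +
          (∫⁻ z, ENNReal.ofReal (T.s z) * U1 z ^ 2 ∂T.V)) +
        12 * ((∫⁻ z, ENNReal.ofReal (T.s z) * U2 z ^ 2 ∂T.V) +
          (∫⁻ z, ENNReal.ofReal (T.s z) * U3 z ^ 2 ∂T.V)) +
        12 * (∫⁻ z, ENNReal.ofReal (T.s z) * U5 z ^ 2 ∂T.V) +
        12 * (∫⁻ z, ENNReal.ofReal (T.s z) * U4 z ^ 2 ∂T.V) := by ring
    _ ≤ ENNReal.ofReal (ε / 4) * nrm T y + ENNReal.ofReal (ε / 4) * nrm T y +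
        ENNReal.ofReal (ε / 4) * nrm T y + ENNReal.ofReal (96 * D * CM) *
        ∑ l ∈ Finset.univ.filter (fun l => r ^ 2 * T.s (W l) ≤ 2),
        ENNReal.ofReal (T.s (W l) ^ T.n) * x l ^ 2 :=
        add_le_add (add_le_add (add_le_add c01 c23) c5) c4
    _ ≤ _ := by
        refine add_le_add ?_ le_rfl
        rw [← add_mul, ← add_mul, ← ENNReal.ofReal_add (by positivity) (by positivity),
          ← ENNReal.ofReal_add (by positivity) (by positivity)]
        refine mul_le_mul' (ENNReal.ofReal_le_ofReal ?_) le_rfl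
        linarith

end RFE
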