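import Pool.Agent.Helper633.Geo1
import Pool.Agent.Helper19.RU.J6
set_option autoImplicit false
open MeasureTheory Complex

namespace RFK
open Pool.Agent.HpBall Pool.Agent.Helper19.RU
open Pool.Agent.Helper633.Geo (d s d_triangle d_comm d_nonneg s_le s_nonneg d_le_two d_self)

theorem rfk_s_pos {n : ℕ} {w : E n} (hw : ‖w‖ < 1) : 0 < s w := by
  unfold Pool.Agent.Helper633.Geo.s
  nlinarith [norm_nonneg w]

theorem rfk_d_pos {n : ℕ} {z w : E n} (hz : ‖z‖ < 1) (hw : ‖w‖ < 1) : 0 < d z w := by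
  have h1 := s_le z w hz.le hw.le
  have h2 := rfk_s_pos hz
  linarith

theorem rfk_key {n : ℕ} {C0 : ℝ} (hC0 : 1 ≤ C0) {w w0 z : E n} (hw : ‖w‖ < 1) (hw0 : ‖w0‖ < 1)
    (hz : ‖z‖ < 1) (h : d w w0 ≤ C0 * s w0) : s w * d z w0 ≤ 8 * C0 * s w0 * d z w := by
  have h1 := d_triangle z w w0 hz.le hw.le hw0.le
  have h2 := s_le w w0 hw.le hw0.le
  have h3 := s_le w z hw.le hz.le
  rw [d_comm w z] at h3
  have h4 := rfk_s_pos hw
  have h5 := rfk_s_pos hw0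
  have h6 := rfk_d_pos hz hw
  have e1 : d z w0 ≤ 2 * (d z w + C0 * s w0) := by linarith
  have e2 : s w ≤ 2 * (C0 * s w0) := by linarith
  have e3 : s w * d z w0 ≤ s w * (2 * (d z w + C0 * s w0)) := mul_le_mul_of_nonneg_left e1 h4.le
  have e4 : s w * d z w ≤ 2 * (C0 * s w0) * d z w := mul_le_mul_of_nonneg_right e2 h6.le
  have e5 : s w * (C0 * s w0) ≤ 2 * d z w * (C0 * s w0) :=
    mul_le_mul_of_nonneg_right h3 (by positivity)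
  nlinarith

theorem rfk_comp {n : ℕ} {C0 : ℝ} (hC0 : 1 ≤ C0) {w w0 z : E n} (hw : ‖w‖ < 1) (hw0 : ‖w0‖ < 1)
    (hz : ‖z‖ < 1) (h : d w w0 ≤ C0 * s w0) : d z w ≤ 2 * (1 + 2 * C0) * d z w0 := by
  have h1 := d_triangle z w0 w hz.le hw0.le hw.le
  rw [d_comm w0 w] at h1
  have h2 := s_le w0 z hw0.le hz.le
  rw [d_comm w0 z] at h2
  nlinarith [rfk_s_pos hw0]

theorem rfk_kq_norm {n : ℕ} (N m : ℕ) (w w0 z : E n) :
    ‖kq N m w w0 z‖ = (d z w0) ^ m / (d z w) ^ N := by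
  unfold kq
  rw [norm_mul, norm_inv, norm_pow, norm_pow]
  rw [show ‖(1 : ℂ) - inner ℂ w z‖ = d z w from d_comm w z,
    show ‖(1 : ℂ) - inner ℂ w0 z‖ = d z w0 from d_comm w0 z]
  rw [div_eq_inv_mul]

theorem rfk_main {n : ℕ} (al m N : ℕ) {C0 : ℝ} (hC0 : 1 ≤ C0) {w w0 z : E n} (hw : ‖w‖ < 1)
    (hw0 : ‖w0‖ < 1) (hz : ‖z‖ < 1) (h : d w w0 ≤ C0 * s w0) :
    s w ^ (al + m) * ((d z w0) ^ m / (d z w) ^ (N + m)) ≤
      (8 * C0) ^ m * s w0 ^ m * (s w ^ al / d z w ^ N) := by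
  have h4 := rfk_s_pos hw
  have h5 := rfk_s_pos hw0
  have h6 := rfk_d_pos hz hw
  have h7 := rfk_d_pos hz hw0
  have e1 : s w ^ (al + m) * ((d z w0) ^ m / (d z w) ^ (N + m)) =
      (s w * d z w0 / d z w) ^ m * (s w ^ al / d z w ^ N) := by
    rw [div_pow, mul_pow, pow_add, pow_add]
    field_simp
  rw [e1, ← mul_pow]
  apply mul_le_mul_of_nonneg_right _ (by positivity)
  apply pow_le_pow_left₀ (by positivity)
  rw [div_le_iff₀ h6]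
  exact rfk_key hC0 hw hw0 hz h

/-- TARGET 1: bound of the divided kernel -/
theorem kq_le {n : ℕ} (al m : ℕ) (C0 : ℝ) (hC0 : 1 ≤ C0) : ∃ C : ℝ, 0 < C ∧
    ∀ w w0 z : E n, ‖w‖ < 1 → ‖w0‖ < 1 → ‖z‖ < 1 → d w w0 ≤ C0 * s w0 →
    s w ^ (al + m) * ‖kq (n + al + m) m w w0 z‖ ≤
      C * s w0 ^ m * (s w ^ al / d z w ^ (n + al)) := by
  refine ⟨(8 * C0) ^ m, by positivity, fun w w0 z hw hw0 hz h => ?_⟩
  rw [rfk_kq_norm]
  exact rfk_main al m (n + al) hC0 hw hw0 hz h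

theorem rfk_inner_le {n : ℕ} {w z : E n} (hw : ‖w‖ < 1) (hz : ‖z‖ < 1) : ‖inner ℂ w z‖ ≤ 1 := by
  calc ‖inner ℂ w z‖ ≤ ‖w‖ * ‖z‖ := norm_inner_le_norm _ _
    _ ≤ 1 * 1 := by gcongr
    _ = 1 := mul_one _

theorem rfk_dkq_norm {n : ℕ} (N m : ℕ) {C0 : ℝ} (hC0 : 1 ≤ C0) {w w0 z : E n} (hw : ‖w‖ < 1)
    (hw0 : ‖w0‖ < 1) (hz : ‖z‖ < 1) (h : d w w0 ≤ C0 * s w0) :
    ‖dkq N N m w w0 z‖ ≤ (3 * N + m * (2 * (1 + 2 * C0)) + 1) * ((d z w0) ^ m / (d z w) ^ (N + 1)) := by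
  have h6 := rfk_d_pos hz hw
  have h7 := rfk_d_pos hz hw0
  have hdc := rfk_comp hC0 hw hw0 hz h
  have hd2 := d_le_two z w hz.le hw.le
  set D := d z w with hD
  set D0 := d z w0 with hD0
  have i1 := rfk_inner_le hw hz
  have i2 := rfk_inner_le hw0 hz
  have n1 : ‖(1 : ℂ) - inner ℂ w z‖ = D := d_comm w z
  have n2 : ‖(1 : ℂ) - inner ℂ w0 z‖ = D0 := d_comm w0 z
  have t1 : ‖(N : ℂ) * (inner ℂ w z) * ((1 - inner ℂ w z) ^ (N + 1))⁻¹ * (1 - inner ℂ w0 z) ^ m‖ ≤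
      N * (D0 ^ m / D ^ (N + 1)) := by
    rw [norm_mul, norm_mul, norm_mul, norm_inv, norm_pow, norm_pow, n1, n2, Complex.norm_natCast]
    have : (N : ℝ) * ‖inner ℂ w z‖ * (D ^ (N + 1))⁻¹ * D0 ^ m =
        ‖inner ℂ w z‖ * (N * (D0 ^ m / D ^ (N + 1))) := by ring
    rw [this]
    exact mul_le_of_le_one_left (by positivity) i1
  have t3 : ‖(N : ℂ) * kq N m w w0 z‖ ≤ 2 * N * (D0 ^ m / D ^ (N + 1)) := by
    rw [norm_mul, Complex.norm_natCast, rfk_kq_norm, ← hD, ← hD0]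
    have : D0 ^ m / D ^ N = D * (D0 ^ m / D ^ (N + 1)) := by rw [pow_succ]; field_simp
    rw [this]
    have hp : 0 ≤ D0 ^ m / D ^ (N + 1) := by positivity
    have : (N : ℝ) * (D * (D0 ^ m / D ^ (N + 1))) ≤ N * (2 * (D0 ^ m / D ^ (N + 1))) := by gcongr
    linarith
  have t2 : ‖(m : ℂ) * (inner ℂ w0 z) * ((1 - inner ℂ w z) ^ N)⁻¹ * (1 - inner ℂ w0 z) ^ (m - 1)‖ ≤
      m * (2 * (1 + 2 * C0)) * (D0 ^ m / D ^ (N + 1)) := by
    rw [norm_mul, norm_mul, norm_mul, norm_inv, norm_pow, norm_pow, n1, n2, Complex.norm_natCast]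
    rcases Nat.eq_zero_or_pos m with rfl | hm
    · simp
    · obtain ⟨k, rfl⟩ : ∃ k, m = k + 1 := ⟨m - 1, by omega⟩
      have : ((k + 1 : ℕ) : ℝ) * ‖inner ℂ w0 z‖ * (D ^ N)⁻¹ * D0 ^ (k + 1 - 1) =
          ‖inner ℂ w0 z‖ * (((k + 1 : ℕ) : ℝ) * (D0 ^ k / D ^ N)) := by
        rw [Nat.add_sub_cancel]; ring
      rw [this]
      refine (mul_le_of_le_one_left (by positivity) i2).trans ?_
      rw [mul_assoc]
      apply mul_le_mul_of_nonneg_left _ (by positivity)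
      rw [div_le_iff₀ (by positivity)]
      have e : 2 * (1 + 2 * C0) * (D0 ^ (k + 1) / D ^ (N + 1)) * D ^ N =
        (2 * (1 + 2 * C0) * D0) * D0 ^ k / D := by
        rw [pow_succ, pow_succ]; field_simp
      rw [e, le_div_iff₀ h6]
      nlinarith [pow_pos h7 k]
  unfold dkq
  refine (norm_add_le _ _).trans ?_
  refine (add_le_add (norm_sub_le _ _) le_rfl).trans ?_
  have hp : 0 ≤ D0 ^ m / D ^ (N + 1) := by positivity
  nlinarith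

/-- TARGET 2: bound of its image under R + N -/
theorem dkq_le {n : ℕ} (al m : ℕ) (C0 : ℝ) (hC0 : 1 ≤ C0) : ∃ C : ℝ, 0 < C ∧
    ∀ w w0 z : E n, ‖w‖ < 1 → ‖w0‖ < 1 → ‖z‖ < 1 → d w w0 ≤ C0 * s w0 →
    s w ^ (al + m) * ‖dkq (n + al + m) (n + al + m) m w w0 z‖ ≤
      C * s w0 ^ m * (s w ^ al / d z w ^ (n + 1 + al)) := by
  refine ⟨(3 * ((n + al + m : ℕ) : ℝ) + m * (2 * (1 + 2 * C0)) + 1) * (8 * C0) ^ m, by positivity,
    fun w w0 z hw hw0 hz h => ?_⟩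
  have h1 := rfk_dkq_norm (n + al + m) m hC0 hw hw0 hz h
  have h2 := rfk_main al m (n + 1 + al) hC0 hw hw0 hz h
  have h4 := rfk_s_pos hw
  have e : n + al + m + 1 = n + 1 + al + m := by ring
  rw [e] at h1
  set K : ℝ := (3 * ((n + al + m : ℕ) : ℝ) + m * (2 * (1 + 2 * C0)) + 1) with hK
  have hK0 : 0 ≤ K := by positivity
  calc s w ^ (al + m) * ‖dkq (n + al + m) (n + al + m) m w w0 z‖
      ≤ s w ^ (al + m) * (K * ((d z w0) ^ m / (d z w) ^ (n + 1 + al + m))) := by gcongr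
    _ = K * (s w ^ (al + m) * ((d z w0) ^ m / (d z w) ^ (n + 1 + al + m))) := by ring
    _ ≤ K * ((8 * C0) ^ m * s w0 ^ m * (s w ^ al / d z w ^ (n + 1 + al))) := by gcongr
    _ = _ := by ring

end RFK
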