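import Pool.Agent.Helper633.Geo1
import Pool.Agent.Helper19.RU.J6
set_option autoImplicit false
open MeasureTheory Complex

namespace RFK
open Pool.Agent.HpBall Pool.Agent.Helper19.RU
open Pool.Agent.Helper633.Geo (d s d_triangle d_comm d_nonneg s_le s_nonneg d_le_two d_self)

theorem inner_diff_le_sq {n : ℕ} (z v : E n) (hz : ‖z‖ < 1) (hv : ‖v‖ < 1) :
    ‖z - v‖ ^ 2 ≤ 2 * d z v := by
  have h1 := @norm_sub_sq ℂ (E n) _ _ _ z v
  have h2 : (1 - inner ℂ z v : ℂ).re ≤ d z v := Complex.re_le_norm _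
  rw [Complex.sub_re, Complex.one_re] at h2
  have h3 : RCLike.re (inner ℂ z v) = (inner ℂ z v : ℂ).re := rfl
  rw [h3] at h1
  have h4 : ‖z‖ ^ 2 ≤ 1 := by nlinarith [norm_nonneg z]
  have h5 : ‖v‖ ^ 2 ≤ 1 := by nlinarith [norm_nonneg v]
  linarith

/-- TARGET 1 -/
theorem inner_diff_le {n : ℕ} (z v w : E n) (hz : ‖z‖ < 1) (hv : ‖v‖ < 1) (hw : ‖w‖ < 1) :
    ‖(1 - inner ℂ w z) - (1 - inner ℂ w v)‖ ≤ 3 * d z v + 2 * Real.sqrt (d z v * d v w) := by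
  have e1 : (1 - inner ℂ w z : ℂ) - (1 - inner ℂ w v) =
      inner ℂ (w - v) (v - z) + ((1 - inner ℂ v z) - (1 - inner ℂ v v)) := by
    rw [inner_sub_left, inner_sub_right, inner_sub_right]
    ring
  have h1 : ‖(1 - inner ℂ v z : ℂ) - (1 - inner ℂ v v)‖ ≤ 3 * d z v := by
    refine (norm_sub_le _ _).trans ?_
    have h2 : ‖(1 - inner ℂ v v : ℂ)‖ = s v := d_self v hv.le
    have h3 : ‖(1 - inner ℂ v z : ℂ)‖ = d z v := d_comm v z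
    have h4 := s_le v z hv.le hz.le
    rw [d_comm] at h4
    rw [h2, h3]
    linarith
  have h2 : ‖(inner ℂ (w - v) (v - z) : ℂ)‖ ≤ 2 * Real.sqrt (d z v * d v w) := by
    refine (norm_inner_le_norm _ _).trans ?_
    have h3 := inner_diff_le_sq z v hz hv
    have h4 := inner_diff_le_sq w v hw hv
    rw [norm_sub_rev] at h3
    rw [d_comm w v] at h4
    have h5 : ‖w - v‖ * ‖v - z‖ ≤ Real.sqrt (2 ^ 2 * (d z v * d v w)) := by
      apply Real.le_sqrt_of_sq_le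
      rw [mul_pow]
      calc ‖w - v‖ ^ 2 * ‖v - z‖ ^ 2 ≤ (2 * d v w) * (2 * d z v) := by
            apply mul_le_mul h4 h3 (by positivity)
            have := d_nonneg v w
            positivity
        _ = _ := by ring
    rw [Real.sqrt_mul (by norm_num), Real.sqrt_sq (by norm_num)] at h5
    exact h5
  rw [e1]
  exact (norm_add_le _ _).trans (by linarith)

theorem kq_diff_pow (p q : ℂ) (c t : ℝ) (hc : 0 ≤ c) (ht0 : 0 ≤ t) (ht1 : t ≤ 1)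
    (h : ‖p - q‖ ≤ c * t * ‖q‖) : ‖p‖ ≤ (1 + c) * ‖q‖ ∧
      ∀ k : ℕ, ‖p ^ k - q ^ k‖ ≤ ((1 + c) ^ k - 1) * t * ‖q‖ ^ k := by
  have hq := norm_nonneg q
  have hp : ‖p‖ ≤ (1 + c) * ‖q‖ := by
    have h1 : p = (p - q) + q := by ring
    rw [h1]
    refine (norm_add_le _ _).trans ?_
    have h2 : c * t * ‖q‖ ≤ c * 1 * ‖q‖ := by gcongr
    linarith
  refine ⟨hp, fun k => ?_⟩
  induction k with
  | zero => simp
  | succ k ih =>
    have e1 : p ^ (k + 1) - q ^ (k + 1) = p * (p ^ k - q ^ k) + (p - q) * q ^ k := by ring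
    rw [e1]
    refine (norm_add_le _ _).trans ?_
    rw [norm_mul, norm_mul, norm_pow]
    have h0 : 0 ≤ ((1 + c) ^ k - 1) * t * ‖q‖ ^ k := (norm_nonneg _).trans ih
    have h1 : ‖p‖ * ‖p ^ k - q ^ k‖ ≤ ((1 + c) * ‖q‖) * (((1 + c) ^ k - 1) * t * ‖q‖ ^ k) :=
      mul_le_mul hp ih (norm_nonneg _) (by positivity)
    have h2 : ‖p - q‖ * ‖q‖ ^ k ≤ (c * t * ‖q‖) * ‖q‖ ^ k :=
      mul_le_mul_of_nonneg_right h (by positivity)
    calc _ ≤ ((1 + c) * ‖q‖) * (((1 + c) ^ k - 1) * t * ‖q‖ ^ k) + (c * t * ‖q‖) * ‖q‖ ^ k :=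
          add_le_add h1 h2
      _ = _ := by ring

/-- relative difference -/
theorem kq_diff_rel {D x y t K : ℝ} (hx : 0 < x) (hD : D = t ^ 2 * x)
    (ht0 : 0 ≤ t) (ht1 : t ≤ 1) (hK : 1 ≤ K) (hxy : x ≤ K * y) (hy : 0 ≤ y) :
    3 * D + 2 * Real.sqrt (D * y) ≤ 5 * K * t * y := by
  have h1 : D ≤ t * (K * y) := by
    rw [hD]
    have h2 : t ^ 2 * x ≤ t * x := by
      apply mul_le_mul_of_nonneg_right _ hx.le
      nlinarith
    have h3 : t * x ≤ t * (K * y) := mul_le_mul_of_nonneg_left hxy ht0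
    linarith
  have h2 : Real.sqrt (D * y) ≤ t * (K * y) := by
    apply Real.sqrt_le_iff.2
    refine ⟨by positivity, ?_⟩
    rw [hD]
    have h3 : t ^ 2 * x * y ≤ t ^ 2 * (K * y) * y := by gcongr
    have h4 : t ^ 2 * (K * y) * y ≤ (t * (K * y)) ^ 2 := by
      have h5 : (t * (K * y)) ^ 2 = K * (t ^ 2 * (K * y) * y) := by ring
      rw [h5]
      apply le_mul_of_one_le_left _ hK
      positivity
    exact h3.trans h4
  have h3 : 3 * (t * (K * y)) + 2 * (t * (K * y)) = 5 * K * t * y := by ring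
  linarith

theorem kq_diff_alg {a a' b b' : ℂ} {t C3 : ℝ} (N m : ℕ) (ha : a ≠ 0) (ha' : a' ≠ 0)
    (ht0 : 0 ≤ t) (ht1 : t ≤ 1) (hC3 : 0 ≤ C3) (h1 : ‖a - a'‖ ≤ 40 * t * ‖a‖)
    (h2 : ‖b - b'‖ ≤ C3 * t * ‖b'‖) :
    ‖(a ^ N)⁻¹ * b ^ m - (a' ^ N)⁻¹ * b' ^ m‖ ≤
      (1 + C3) ^ m * (41 ^ N + 1) * (t * (‖a'‖⁻¹ ^ N * ‖b'‖ ^ m)) := by
  have h3 : ‖a⁻¹ - a'⁻¹‖ ≤ 40 * t * ‖a'⁻¹‖ := by
    have e1 : a⁻¹ - a'⁻¹ = -(a - a') * (a⁻¹ * a'⁻¹) := by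
      field_simp
      ring
    rw [e1, norm_mul, norm_neg, norm_mul, norm_inv, norm_inv]
    have hna : 0 < ‖a‖ := norm_pos_iff.2 ha
    calc ‖a - a'‖ * (‖a‖⁻¹ * ‖a'‖⁻¹) ≤ (40 * t * ‖a‖) * (‖a‖⁻¹ * ‖a'‖⁻¹) := by
          apply mul_le_mul_of_nonneg_right h1 (by positivity)
      _ = 40 * t * ‖a'‖⁻¹ := by
          field_simp
  obtain ⟨-, h4⟩ := kq_diff_pow a⁻¹ a'⁻¹ 40 t (by norm_num) ht0 ht1 h3
  obtain ⟨h5, h6⟩ := kq_diff_pow b b' C3 t hC3 ht0 ht1 h2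
  have e1 : (a ^ N)⁻¹ * b ^ m - (a' ^ N)⁻¹ * b' ^ m =
      (a⁻¹ ^ N - a'⁻¹ ^ N) * b ^ m + a'⁻¹ ^ N * (b ^ m - b' ^ m) := by
    rw [inv_pow, inv_pow]
    ring
  rw [e1]
  refine (norm_add_le _ _).trans ?_
  rw [norm_mul, norm_mul, norm_pow, norm_pow]
  have h7 : ‖b‖ ^ m ≤ ((1 + C3) * ‖b'‖) ^ m := pow_le_pow_left₀ (norm_nonneg _) h5 m
  have h8 := h4 N
  have h9 := h6 m
  have hz : 0 ≤ ‖a'⁻¹‖ ^ N := by positivity
  have g1 : ‖a⁻¹ ^ N - a'⁻¹ ^ N‖ * ‖b‖ ^ m ≤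
      (41 ^ N * t * ‖a'⁻¹‖ ^ N) * ((1 + C3) * ‖b'‖) ^ m := by
    apply mul_le_mul _ h7 (by positivity) (by positivity)
    refine h8.trans ?_
    have : ((1 : ℝ) + 40) ^ N - 1 ≤ 41 ^ N := by norm_num
    gcongr
  have g2 : ‖a'⁻¹‖ ^ N * ‖b ^ m - b' ^ m‖ ≤ ‖a'⁻¹‖ ^ N * ((1 + C3) ^ m * t * ‖b'‖ ^ m) := by
    apply mul_le_mul_of_nonneg_left _ hz
    refine h9.trans ?_
    have : (1 + C3) ^ m - 1 ≤ (1 + C3) ^ m := by linarith
    gcongr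
  have hni : ‖a'⁻¹‖ = ‖a'‖⁻¹ := norm_inv _
  rw [hni] at g1 g2 ⊢
  calc _ ≤ (41 ^ N * t * ‖a'‖⁻¹ ^ N) * ((1 + C3) * ‖b'‖) ^ m +
        ‖a'‖⁻¹ ^ N * ((1 + C3) ^ m * t * ‖b'‖ ^ m) := add_le_add g1 g2
    _ = _ := by rw [mul_pow]; ring

/-- TARGET 2: difference of the divided kernel -/
theorem kq_diff {n : ℕ} (al m : ℕ) (C0 : ℝ) (hC0 : 1 ≤ C0) : ∃ C : ℝ, 0 < C ∧
    ∀ (w w0 z v : E n) (x : ℝ), ‖w‖ < 1 → ‖w0‖ < 1 → ‖z‖ < 1 → ‖v‖ < 1 → 0 < x →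
    d w w0 ≤ C0 * s w0 → x ≤ 8 * d z w → x ≤ 8 * d v w → d z v ≤ x →
    s w ^ (al + m) * ‖kq (n + al + m) m w w0 z - kq (n + al + m) m w w0 v‖ ≤
      C * s w0 ^ m * (Real.sqrt (d z v / x) * (s w ^ al / x ^ (n + al))) := by
  obtain ⟨K1, hK1⟩ : ∃ K1 : ℝ, K1 = 16 * (1 + 2 * C0) := ⟨_, rfl⟩
  have hK11 : 1 ≤ K1 := by rw [hK1]; linarith
  refine ⟨(1 + 5 * K1) ^ m * (41 ^ (n + al + m) + 1) * 8 ^ (n + al) * (8 * C0) ^ m, by positivity,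
    fun w w0 z v x hw hw0 hz hv hx hC hxz hxv hzv => ?_⟩
  obtain ⟨t, ht⟩ : ∃ t, t = Real.sqrt (d z v / x) := ⟨_, rfl⟩
  have hD0 : 0 ≤ d z v := d_nonneg z v
  have ht0 : 0 ≤ t := by rw [ht]; exact Real.sqrt_nonneg _
  have ht1 : t ≤ 1 := by
    rw [ht]
    apply Real.sqrt_le_one.2
    rw [div_le_one hx]
    exact hzv
  have hDt : d z v = t ^ 2 * x := by
    rw [ht, Real.sq_sqrt (by positivity)]
    field_simp
  have hda : ‖(1 - inner ℂ w z : ℂ)‖ = d z w := d_comm w z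
  have hda' : ‖(1 - inner ℂ w v : ℂ)‖ = d v w := d_comm w v
  have hdb : ‖(1 - inner ℂ w0 z : ℂ)‖ = d z w0 := d_comm w0 z
  have hdb' : ‖(1 - inner ℂ w0 v : ℂ)‖ = d v w0 := d_comm w0 v
  have ha0 : 0 < d z w := by linarith
  have ha0' : 0 < d v w := by linarith
  have h1 : ‖(1 - inner ℂ w z : ℂ) - (1 - inner ℂ w v)‖ ≤ 40 * t * ‖(1 - inner ℂ w z : ℂ)‖ := by
    rw [norm_sub_rev]
    refine (inner_diff_le v z w hv hz hw).trans ?_
    rw [d_comm v z, hda]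
    have := kq_diff_rel (D := d z v) (x := x) (y := d z w) (t := t) (K := 8) hx hDt ht0 ht1
      (by norm_num) hxz ha0.le
    linarith
  have hxb' : x ≤ K1 * d v w0 := by
    have g1 := d_triangle v w0 w hv.le hw0.le hw.le
    have g2 := s_le w0 v hw0.le hv.le
    rw [d_comm w0 w] at g1
    rw [d_comm w0 v] at g2
    have g3 : C0 * s w0 ≤ C0 * (2 * d v w0) := mul_le_mul_of_nonneg_left g2 (by linarith)
    rw [hK1]
    linarith
  have h2 : ‖(1 - inner ℂ w0 z : ℂ) - (1 - inner ℂ w0 v)‖ ≤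
      (5 * K1) * t * ‖(1 - inner ℂ w0 v : ℂ)‖ := by
    refine (inner_diff_le z v w0 hz hv hw0).trans ?_
    rw [hdb']
    exact kq_diff_rel hx hDt ht0 ht1 hK11 hxb' (d_nonneg _ _)
  have h3 := kq_diff_alg (n + al + m) m (norm_pos_iff.1 (hda.symm ▸ ha0))
    (norm_pos_iff.1 (hda'.symm ▸ ha0')) ht0 ht1 (by positivity) h1 h2
  have h4 : ‖kq (n + al + m) m w w0 z - kq (n + al + m) m w w0 v‖ ≤
      (1 + 5 * K1) ^ m * (41 ^ (n + al + m) + 1) *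
        (t * ((d v w)⁻¹ ^ (n + al + m) * d v w0 ^ m)) := by
    rw [hda', hdb'] at h3
    exact h3
  have hsw : 0 ≤ s w := s_nonneg w hw.le
  have hsw0 : 0 ≤ s w0 := s_nonneg w0 hw0.le
  have h5 : s w * d v w0 ≤ (8 * C0 * s w0) * d v w := by
    have g1 := d_triangle v w w0 hv.le hw.le hw0.le
    have g2 : s w ≤ 2 * d v w := by
      have := s_le w v hw.le hv.le
      rw [d_comm] at this
      exact this
    have g3 : s w ≤ 2 * C0 * s w0 := by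
      have := s_le w w0 hw.le hw0.le
      linarith
    have g4 : s w * d v w0 ≤ s w * (2 * (d v w + C0 * s w0)) := by
      apply mul_le_mul_of_nonneg_left _ hsw
      linarith
    have g5 : s w * d v w ≤ (2 * C0 * s w0) * d v w := mul_le_mul_of_nonneg_right g3 ha0'.le
    have g6 : s w * (C0 * s w0) ≤ (2 * d v w) * (C0 * s w0) :=
      mul_le_mul_of_nonneg_right g2 (by positivity)
    linarith
  have h6 : (d v w)⁻¹ * (s w * d v w0) ≤ 8 * C0 * s w0 := by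
    rw [inv_mul_le_iff₀ ha0']
    linarith
  have h7 : ((d v w)⁻¹ * (s w * d v w0)) ^ m ≤ (8 * C0 * s w0) ^ m := by
    apply pow_le_pow_left₀ _ h6
    have := d_nonneg v w0
    positivity
  have h8 : (d v w)⁻¹ ^ (n + al) ≤ (8 / x) ^ (n + al) := by
    apply pow_le_pow_left₀ (by positivity)
    rw [inv_le_comm₀ ha0' (by positivity), inv_div]
    linarith
  have hP : 0 ≤ (1 + 5 * K1) ^ m * ((41 : ℝ) ^ (n + al + m) + 1) := by positivity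
  have hdw0 := d_nonneg v w0
  calc s w ^ (al + m) * ‖kq (n + al + m) m w w0 z - kq (n + al + m) m w w0 v‖
      ≤ s w ^ (al + m) * ((1 + 5 * K1) ^ m * (41 ^ (n + al + m) + 1) *
        (t * ((d v w)⁻¹ ^ (n + al + m) * d v w0 ^ m))) :=
        mul_le_mul_of_nonneg_left h4 (by positivity)
    _ = ((1 + 5 * K1) ^ m * (41 ^ (n + al + m) + 1)) * (t * s w ^ al) *
        ((d v w)⁻¹ ^ (n + al) * ((d v w)⁻¹ * (s w * d v w0)) ^ m) := by
        rw [mul_pow, mul_pow]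
        ring
    _ ≤ ((1 + 5 * K1) ^ m * (41 ^ (n + al + m) + 1)) * (t * s w ^ al) *
        ((8 / x) ^ (n + al) * (8 * C0 * s w0) ^ m) := by
        apply mul_le_mul_of_nonneg_left _ (by positivity)
        exact mul_le_mul h8 h7 (by positivity) (by positivity)
    _ = _ := by
        rw [← ht, div_pow, mul_pow (8 * C0) (s w0)]
        ring

end RFK
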