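import Pool.Agent.Helper633.Geo1
import Pool.Agent.Helper19.RU.J6
set_option autoImplicit false
open MeasureTheory Complex

namespace RFK
open Pool.Agent.HpBall Pool.Agent.Helper19.RU
open Pool.Agent.Helper633.Geo (d s d_triangle d_comm d_nonneg s_le s_nonneg d_le_two d_self)

/-- TARGET: the point v on the ray of W -/
theorem exists_v {n : ℕ} (r : ℝ) (hr : 4 ≤ r) (W : E n) (hW : ‖W‖ < 1) (h : r ^ 2 * s W ≤ 2) :
    ∃ v : E n, ‖v‖ < 1 ∧ r * s W / 4 ≤ s v ∧ d v W ≤ 4 * r * s W := by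
  have hr0 : 0 < r := by linarith
  have hs : s W = 1 - ‖W‖ ^ 2 := rfl
  set w : ℝ := ‖W‖ with hw
  have hw0 : 0 ≤ w := norm_nonneg _
  have hsp : 0 < s W := by rw [hs]; nlinarith
  set σ : ℝ := s W with hσ
  have h1 : r * σ ≤ 1 / 2 := by nlinarith [mul_pos hr0 hsp]
  have h2 : σ ≤ 1 / 8 := by nlinarith
  have hwpos : 0 < w := by nlinarith
  set t : ℝ := 1 - r * σ / 2 with ht
  have ht0 : 3 / 4 ≤ t := by rw [ht]; linarith
  have ht1 : t < 1 := by rw [ht]; nlinarith [mul_pos hr0 hsp]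
  have hnorm : ‖(((t / w : ℝ)) : ℂ) • W‖ = t := by
    rw [norm_smul, Complex.norm_real, Real.norm_eq_abs, abs_of_nonneg (by positivity), ← hw]
    field_simp
  refine ⟨(((t / w : ℝ)) : ℂ) • W, ?_, ?_, ?_⟩
  · rw [hnorm]; exact ht1
  · show r * σ / 4 ≤ 1 - ‖(((t / w : ℝ)) : ℂ) • W‖ ^ 2
    rw [hnorm]
    nlinarith [mul_pos hr0 hsp]
  · show ‖1 - inner ℂ ((((t / w : ℝ)) : ℂ) • W) W‖ ≤ 4 * r * σ
    have h3 : inner ℂ ((((t / w : ℝ)) : ℂ) • W) W = ((t * w : ℝ) : ℂ) := by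
      rw [inner_smul_left, inner_self_eq_norm_sq_to_K, Complex.conj_ofReal, ← hw]
      have : (t * w : ℝ) = t / w * w ^ 2 := by field_simp
      rw [this]
      push_cast
      rfl
    rw [h3]
    have h4 : (1:ℂ) - ((t * w : ℝ) : ℂ) = ((1 - t * w : ℝ) : ℂ) := by push_cast; ring
    rw [h4, Complex.norm_real, Real.norm_eq_abs]
    have hw1 : w < 1 := hW
    have h5 : t * w < 1 := by nlinarith
    rw [abs_of_nonneg (by linarith)]
    have h6 : 1 - w ≤ σ := by rw [hs]; nlinarith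
    nlinarith [mul_pos hr0 hsp]

end RFK
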