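import Pool.Agent.Helper157.RF.EDefs
set_option autoImplicit false
open MeasureTheory Set Filter H262RU
open scoped ENNReal NNReal BigOperators

namespace RFE

variable {X : Type*} [MeasurableSpace X]

/-- `x ≤ 8 d(v, w)` for far sources -/
theorem Zb_xv (T : TS X) {r : ℝ} (hr : 32 ≤ r) {Wl v w : X}
    (hvl : T.d v Wl ≤ 4 * r * T.s Wl) (hx : r ^ 2 * T.s Wl ≤ T.d w Wl) :
    16 * (r * T.s Wl) ≤ T.d w Wl / 2 ∧ T.d w Wl ≤ 8 * T.d v w := by
  have hs := T.s_nonneg Wl
  have h1 : 32 * (r * T.s Wl) ≤ T.d w Wl := by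
    have h2 : 32 * (r * T.s Wl) ≤ r * (r * T.s Wl) :=
      mul_le_mul_of_nonneg_right hr (mul_nonneg (by linarith) hs)
    nlinarith
  have h3 := T.tri w v Wl
  rw [T.d_symm w v] at h3
  constructor
  · linarith
  · nlinarith

theorem Zb_sqrt_mid {D s r x : ℝ} (hs : 0 < s) (hr : 0 ≤ r) (hD : 0 ≤ D) (hx : 0 < x)
    (h : x ≤ 8 * D) : 1 ≤ 3 * (Real.sqrt (D / s + r) * Real.sqrt (s / x)) := by
  rw [← Real.sqrt_mul (by positivity)]
  have h1 : (1 / 9 : ℝ) ≤ (D / s + r) * (s / x) := by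
    have e : (D / s + r) * (s / x) = (D + r * s) / x := by
      field_simp
    rw [e, le_div_iff₀ hx]
    nlinarith [mul_nonneg hr hs.le]
  have h2 : Real.sqrt (1 / 9) ≤ Real.sqrt ((D / s + r) * (s / x)) := Real.sqrt_le_sqrt h1
  have h3 : Real.sqrt (1 / 9) = 1 / 3 := by
    rw [show (1 / 9 : ℝ) = (1 / 3) ^ 2 by norm_num]
    exact Real.sqrt_sq (by norm_num)
  rw [h3] at h2
  linarith

theorem Zb_sqrt_far {D s r x e : ℝ} (hs : 0 < s) (hr : 0 ≤ r) (hD : 0 ≤ D) (hx : 0 < x)
    (h : e ≤ 4 * D + 16 * (r * s)) :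
    Real.sqrt (e / x) ≤ 4 * (Real.sqrt (D / s + r) * Real.sqrt (s / x)) := by
  rw [← Real.sqrt_mul (by positivity)]
  have h4 : (4 : ℝ) = Real.sqrt 16 := by
    rw [show (16 : ℝ) = 4 ^ 2 by norm_num]
    exact (Real.sqrt_sq (by norm_num)).symm
  rw [h4, ← Real.sqrt_mul (by norm_num)]
  apply Real.sqrt_le_sqrt
  have e1 : 16 * ((D / s + r) * (s / x)) = (16 * D + 16 * (r * s)) / x := by
    field_simp
  rw [e1]
  gcongr
  linarith

theorem Zb_pow {a X' d N : ℝ} {n : ℕ} (ha : 0 ≤ a) (hX : 0 < X') (h : X' ≤ 8 * d) :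
    a / d ^ n ≤ 8 ^ n * (a / X' ^ n) := by
  have hd : 0 < d := by linarith
  have h1 : X' ^ n ≤ (8 * d) ^ n := pow_le_pow_left₀ hX.le h n
  rw [mul_pow] at h1
  rw [mul_div_assoc', div_le_div_iff₀ (by positivity) (by positivity)]
  nlinarith

/-- the pointwise bound in the middle zone at `v` -/
theorem Zb_mid (T : TS X) (al : ℕ) {r : ℝ} (hr : 32 ≤ r) {Wl v w z : X} (hs : 0 < T.s Wl)
    (hvl : T.d v Wl ≤ 4 * r * T.s Wl) (hx : r ^ 2 * T.s Wl ≤ T.d w Wl)
    (hmid : T.d w Wl ≤ 8 * T.d z Wl) :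
    kk T al (T.n + al) v w ≤ ENNReal.ofReal (8 ^ (T.n + al) * 3) *
      (ENNReal.ofReal (Real.sqrt (T.d z Wl / T.s Wl + r)) *
      ENNReal.ofReal (T.s w ^ al / T.d w Wl ^ (T.n + al) * Real.sqrt (T.s Wl / T.d w Wl))) := by
  have hx0 : 0 < T.d w Wl := lt_of_lt_of_le (by positivity) hx
  have hD : 0 ≤ T.d z Wl := T.d_nonneg _ _
  obtain ⟨-, h8⟩ := Zb_xv T hr hvl hx
  have h1 := Zb_pow (N := 0) (n := T.n + al) (pow_nonneg (T.s_nonneg w) al) hx0 h8
  have h2 := Zb_sqrt_mid hs (by linarith : (0:ℝ) ≤ r) hD hx0 hmid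
  rw [kk, ← ENNReal.ofReal_mul (by positivity), ← ENNReal.ofReal_mul (by positivity)]
  apply ENNReal.ofReal_le_ofReal
  have h3 : 0 ≤ T.s w ^ al / T.d w Wl ^ (T.n + al) :=
    div_nonneg (pow_nonneg (T.s_nonneg w) al) (pow_nonneg hx0.le _)
  calc T.s w ^ al / T.d v w ^ (T.n + al)
      ≤ 8 ^ (T.n + al) * (T.s w ^ al / T.d w Wl ^ (T.n + al)) := h1
    _ ≤ 8 ^ (T.n + al) * (T.s w ^ al / T.d w Wl ^ (T.n + al)) *
        (3 * (Real.sqrt (T.d z Wl / T.s Wl + r) * Real.sqrt (T.s Wl / T.d w Wl))) :=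
        le_mul_of_one_le_right (by positivity) h2
    _ = _ := by ring

/-- the pointwise bound in the far zone -/
theorem Zb_far (T : TS X) (al : ℕ) {r : ℝ} (hr : 32 ≤ r) {Wl v w z : X} (hs : 0 < T.s Wl)
    (hvl : T.d v Wl ≤ 4 * r * T.s Wl) (hx : r ^ 2 * T.s Wl ≤ T.d w Wl)
    (hfar : 8 * T.d z Wl < T.d w Wl) :
    0 < T.d w Wl ∧ T.d w Wl ≤ 8 * T.d z w ∧ T.d w Wl ≤ 8 * T.d v w ∧ T.d z v ≤ T.d w Wl ∧
    ENNReal.ofReal (Real.sqrt (T.d z v / T.d w Wl) * (T.s w ^ al / T.d w Wl ^ (T.n + al))) ≤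
      ENNReal.ofReal 4 *
      (ENNReal.ofReal (Real.sqrt (T.d z Wl / T.s Wl + r)) *
      ENNReal.ofReal (T.s w ^ al / T.d w Wl ^ (T.n + al) * Real.sqrt (T.s Wl / T.d w Wl))) := by
  have hx0 : 0 < T.d w Wl := lt_of_lt_of_le (by positivity) hx
  have hD : 0 ≤ T.d z Wl := T.d_nonneg _ _
  obtain ⟨h16, h8⟩ := Zb_xv T hr hvl hx
  have t1 := T.tri w z Wl
  rw [T.d_symm w z] at t1
  have t2 := T.tri z Wl v
  rw [T.d_symm Wl v] at t2
  have h5 : T.d z v ≤ 4 * T.d z Wl + 16 * (r * T.s Wl) := by linarith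
  have h3 : 0 ≤ T.s w ^ al / T.d w Wl ^ (T.n + al) :=
    div_nonneg (pow_nonneg (T.s_nonneg w) al) (pow_nonneg hx0.le _)
  refine ⟨hx0, by linarith, h8, by linarith, ?_⟩
  rw [← ENNReal.ofReal_mul (by positivity), ← ENNReal.ofReal_mul (by positivity)]
  apply ENNReal.ofReal_le_ofReal
  have h6 := Zb_sqrt_far hs (by linarith : (0:ℝ) ≤ r) hD hx0 h5
  calc Real.sqrt (T.d z v / T.d w Wl) * (T.s w ^ al / T.d w Wl ^ (T.n + al))
      ≤ 4 * (Real.sqrt (T.d z Wl / T.s Wl + r) * Real.sqrt (T.s Wl / T.d w Wl)) *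
        (T.s w ^ al / T.d w Wl ^ (T.n + al)) := mul_le_mul_of_nonneg_right h6 h3
    _ = _ := by ring

/-- TARGET: pointwise bound of `Z_l` by `BL` -/
theorem Z_bound (T : TS X) (hd : ∀ w, Measurable (fun z => T.d z w)) (hV : ∀ᵐ w ∂T.V, 0 < T.s w)
    (al : ℕ) (C0 C1 C2 : ℝ) (hC0 : 1 ≤ C0) (hC1 : 0 ≤ C1) (hC2 : 0 ≤ C2) :
    ∃ C : ℝ, 0 < C ∧
    ∀ (ι κ : Type) [Fintype ι] [DecidableEq ι] [DecidableEq κ] (W : ι → X) (own : X → ι)
      (col : ι → κ), (∀ i, MeasurableSet {z | own z = i}) →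
      (∀ z, 0 < T.s z → T.d z (W (own z)) ≤ C0 * T.s (W (own z))) →
      ∀ (r : ℝ), 32 ≤ r → C0 < r ^ 2 → ∀ (v : ι → X) (l : ι), 0 < T.s (W l) → 0 < T.s (v l) →
      T.d (v l) (W l) ≤ 4 * r * T.s (W l) →
      ∀ (K : X → X → ℂ) (y : X → ℝ≥0∞), Measurable y → (∀ z, Measurable (K z)) →
      (∀ z, 0 < T.s z → ∫⁻ w, ‖K z w‖ₑ ∂T.V < ⊤) →
      (∀ z w, 0 < T.s z → 0 < T.s w →
        ‖K z w‖ₑ ≤ ENNReal.ofReal C1 * (kk T al (T.n + al) z w * y w)) →
      (∀ z w x, 0 < T.s z → 0 < T.s w → 0 < x → x ≤ 8 * T.d z w → x ≤ 8 * T.d (v l) w →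
        T.d z (v l) ≤ x → ‖K z w - K (v l) w‖ₑ ≤ ENNReal.ofReal C2 *
          (ENNReal.ofReal (Real.sqrt (T.d z (v l) / x) * (T.s w ^ al / x ^ (T.n + al))) * y w)) →
      ∀ z, 0 < T.s z →
      ‖∫ w in {w | col (own w) = col l ∧ own w ≠ l}, K z w ∂T.V‖ₑ ≤
        ENNReal.ofReal C * BL T al r W own col v
          (fun l' => ‖∫ w in {w | col (own w) = col l'}, K (v l') w ∂T.V‖ₑ) y l z := by
  classical
  refine ⟨1 + C1 + (3 * 8 ^ (T.n + al) * C1 + 4 * C2), by positivity, ?_⟩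
  intro ι κ _ _ _ W own col hown hnear r hr hC0r v l hsl hsv hvl K y hy hKm hKi hKb hKd z hz
  have hA : MeasurableSet {w | col (own w) = col l} := by
    have : {w | col (own w) = col l} = ⋃ i ∈ {i : ι | col i = col l}, {w | own w = i} := by
      ext w; simp
    rw [this]
    exact MeasurableSet.biUnion (Set.to_countable _) (fun i _ => hown i)
  have hN : MeasurableSet {w | own w ≠ l} := (hown l).compl
  have hxm : Measurable (fun w => T.d w (W l)) := T.d_meas (W l)
  have hlt : MeasurableSet {w | T.d w (W l) < r ^ 2 * T.s (W l)} :=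
    measurableSet_lt hxm measurable_const
  have hge : MeasurableSet {w | r ^ 2 * T.s (W l) ≤ T.d w (W l)} :=
    measurableSet_le measurable_const hxm
  have hle8 : MeasurableSet {w | T.d w (W l) ≤ 8 * T.d z (W l)} :=
    measurableSet_le hxm measurable_const
  set S : Set X := {w | col (own w) = col l ∧ own w ≠ l} with hSdef
  have hS : MeasurableSet S := hA.inter hN
  set A : Set X := {w | col (own w) = col l} with hAdef
  set S1 : Set X := {w | col (own w) = col l ∧ own w ≠ l ∧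
    T.d w (W l) < r ^ 2 * T.s (W l)} with hS1def
  have hS1 : MeasurableSet S1 := hA.inter (hN.inter hlt)
  set S2 : Set X := {w | r ^ 2 * T.s (W l) ≤ T.d w (W l) ∧
    T.d w (W l) ≤ 8 * T.d z (W l)} with hS2def
  have hS2 : MeasurableSet S2 := hge.inter hle8
  set S3 : Set X := {w | r ^ 2 * T.s (W l) ≤ T.d w (W l)} with hS3def
  set S5 : Set X := {w | col (own w) = col l ∧ T.d w (W l) < r ^ 2 * T.s (W l)} with hS5def
  have hS5 : MeasurableSet S5 := hA.inter hlt
  have hkkm : ∀ a : X, Measurable (fun w => kk T al (T.n + al) a w * y w) := by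
    intro a
    have h1 : Measurable (fun w => T.d a w) := by
      have h2 : (fun w => T.d a w) = fun w => T.d w a := by funext w; exact T.d_symm a w
      rw [h2]; exact T.d_meas a
    exact (((T.s_meas.pow_const al).div (h1.pow_const _)).ennreal_ofReal).mul hy
  have hPm : Measurable (fun w => ENNReal.ofReal (T.s w ^ al / T.d w (W l) ^ (T.n + al) *
      Real.sqrt (T.s (W l) / T.d w (W l))) * y w) :=
    ((((T.s_meas.pow_const al).div (hxm.pow_const _)).mul
      ((measurable_const.div hxm).sqrt)).ennreal_ofReal).mul hy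
  have hKz : Integrable (K z) T.V := ⟨(hKm z).aestronglyMeasurable, hKi z hz⟩
  have hKv : Integrable (K (v l)) T.V := ⟨(hKm (v l)).aestronglyMeasurable, hKi (v l) hsv⟩
  -- the four majorants
  set c1 : ℝ≥0∞ := ENNReal.ofReal C1 with hc1
  set c3 : ℝ≥0∞ := ENNReal.ofReal (3 * 8 ^ (T.n + al) * C1 + 4 * C2) with hc3
  set q : ℝ≥0∞ := ENNReal.ofReal (Real.sqrt (T.d z (W l) / T.s (W l) + r)) with hq
  let F1 : X → ℝ≥0∞ := S1.indicator (fun w => c1 * (kk T al (T.n + al) z w * y w))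
  let F2 : X → ℝ≥0∞ := S2.indicator (fun w => c1 * (kk T al (T.n + al) z w * y w))
  let F3 : X → ℝ≥0∞ := S3.indicator (fun w => c3 * (q * (ENNReal.ofReal
    (T.s w ^ al / T.d w (W l) ^ (T.n + al) * Real.sqrt (T.s (W l) / T.d w (W l))) * y w)))
  let F5 : X → ℝ≥0∞ := S5.indicator (fun w => c1 * (kk T al (T.n + al) (v l) w * y w))
  have hF1m : Measurable F1 := ((hkkm z).const_mul c1).indicator hS1
  have hF2m : Measurable F2 := ((hkkm z).const_mul c1).indicator hS2
  have hF3m : Measurable F3 := ((hPm.const_mul q).const_mul c3).indicator hge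
  have hF5m : Measurable F5 := ((hkkm (v l)).const_mul c1).indicator hS5
  have hpt : ∀ᵐ w ∂T.V, ‖S.indicator (K z) w - A.indicator (K (v l)) w‖ₑ ≤
      F1 w + (F2 w + (F3 w + F5 w)) := by
    filter_upwards [hV] with w hw
    have bz : ‖K z w‖ₑ ≤ c1 * (kk T al (T.n + al) z w * y w) := hKb z w hz hw
    have bv : ‖K (v l) w‖ₑ ≤ c1 * (kk T al (T.n + al) (v l) w * y w) := hKb (v l) w hsv hw
    by_cases hxw : T.d w (W l) < r ^ 2 * T.s (W l)
    · refine (enorm_sub_le).trans ?_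
      refine add_le_add ?_ ?_
      · by_cases hwS : w ∈ S
        · rw [Set.indicator_of_mem hwS]
          have : w ∈ S1 := ⟨hwS.1, hwS.2, hxw⟩
          show _ ≤ S1.indicator _ w
          rw [Set.indicator_of_mem this]
          exact bz
        · rw [Set.indicator_of_notMem hwS, enorm_zero]
          exact zero_le
      · refine le_trans ?_ (le_add_of_nonneg_left zero_le)
        refine le_trans ?_ (le_add_of_nonneg_left zero_le)
        by_cases hwA : w ∈ A
        · rw [Set.indicator_of_mem hwA]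
          have : w ∈ S5 := ⟨hwA, hxw⟩
          show _ ≤ S5.indicator _ w
          rw [Set.indicator_of_mem this]
          exact bv
        · rw [Set.indicator_of_notMem hwA, enorm_zero]
          exact zero_le
    · push Not at hxw
      have hwS3 : w ∈ S3 := hxw
      have hownl : own w ≠ l := by
        intro h
        have h1 := hnear w hw
        rw [h] at h1
        nlinarith
      refine le_trans ?_ (le_add_of_nonneg_left zero_le)
      by_cases hwA : w ∈ A
      · have hwS : w ∈ S := ⟨hwA, hownl⟩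
        rw [Set.indicator_of_mem hwS, Set.indicator_of_mem hwA]
        by_cases hmid : T.d w (W l) ≤ 8 * T.d z (W l)
        · have hwS2 : w ∈ S2 := ⟨hxw, hmid⟩
          refine (enorm_sub_le).trans ?_
          refine add_le_add ?_ ?_
          · show _ ≤ S2.indicator _ w
            rw [Set.indicator_of_mem hwS2]
            exact bz
          · refine le_trans ?_ (le_add_of_nonneg_right zero_le)
            show _ ≤ S3.indicator _ w
            rw [Set.indicator_of_mem hwS3]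
            refine bv.trans ?_
            have h1 := Zb_mid T al hr hsl hvl hxw hmid
            calc c1 * (kk T al (T.n + al) (v l) w * y w)
                ≤ c1 * ((ENNReal.ofReal (8 ^ (T.n + al) * 3) * (q * ENNReal.ofReal (T.s w ^ al /
                  T.d w (W l) ^ (T.n + al) * Real.sqrt (T.s (W l) / T.d w (W l))))) * y w) := by
                  gcongr
              _ = (c1 * ENNReal.ofReal (8 ^ (T.n + al) * 3)) * (q * (ENNReal.ofReal (T.s w ^ al /
                  T.d w (W l) ^ (T.n + al) * Real.sqrt (T.s (W l) / T.d w (W l))) * y w)) := by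
                  ring
              _ ≤ _ := by
                  gcongr
                  rw [hc1, hc3, ← ENNReal.ofReal_mul hC1]
                  apply ENNReal.ofReal_le_ofReal
                  nlinarith
        · push Not at hmid
          refine le_trans ?_ (le_add_of_nonneg_left zero_le)
          refine le_trans ?_ (le_add_of_nonneg_right zero_le)
          show _ ≤ S3.indicator _ w
          rw [Set.indicator_of_mem hwS3]
          obtain ⟨f1, f2, f3, f4, f5⟩ := Zb_far T al hr hsl hvl hxw hmid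
          refine (hKd z w (T.d w (W l)) hz hw f1 f2 f3 f4).trans ?_
          calc ENNReal.ofReal C2 * (ENNReal.ofReal (Real.sqrt (T.d z (v l) / T.d w (W l)) *
                (T.s w ^ al / T.d w (W l) ^ (T.n + al))) * y w)
              ≤ ENNReal.ofReal C2 * ((ENNReal.ofReal 4 * (q * ENNReal.ofReal (T.s w ^ al /
                T.d w (W l) ^ (T.n + al) * Real.sqrt (T.s (W l) / T.d w (W l))))) * y w) := by
                gcongr
            _ = (ENNReal.ofReal C2 * ENNReal.ofReal 4) * (q * (ENNReal.ofReal (T.s w ^ al /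
                T.d w (W l) ^ (T.n + al) * Real.sqrt (T.s (W l) / T.d w (W l))) * y w)) := by
                ring
            _ ≤ _ := by
                gcongr
                rw [hc3, ← ENNReal.ofReal_mul hC2]
                apply ENNReal.ofReal_le_ofReal
                have : 0 ≤ 3 * 8 ^ (T.n + al) * C1 := by positivity
                linarith
      · have hwS : w ∉ S := fun h => hwA h.1
        rw [Set.indicator_of_notMem hwS, Set.indicator_of_notMem hwA, sub_self, enorm_zero]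
        exact zero_le
  have hint : ∫⁻ w, (F1 w + (F2 w + (F3 w + F5 w))) ∂T.V =
      c1 * (∫⁻ w in S1, kk T al (T.n + al) z w * y w ∂T.V) +
      (c1 * (∫⁻ w in S2, kk T al (T.n + al) z w * y w ∂T.V) +
      (c3 * (q * Psi T al (r ^ 2) (W l) y) + c1 * El T al (r ^ 2) W own col v y l)) := by
    rw [lintegral_add_left hF1m, lintegral_add_left hF2m, lintegral_add_left hF3m]
    congr 1
    · rw [lintegral_indicator hS1, lintegral_const_mul _ (hkkm z)]
    · congr 1
      · rw [lintegral_indicator hS2, lintegral_const_mul _ (hkkm z)]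
      · congr 1
        · rw [lintegral_indicator hge, lintegral_const_mul _ (hPm.const_mul q),
            lintegral_const_mul _ hPm]
          rfl
        · rw [lintegral_indicator hS5, lintegral_const_mul _ (hkkm (v l))]
          rfl
  have hmain : ‖∫ w in S, K z w ∂T.V‖ₑ ≤ ‖∫ w in A, K (v l) w ∂T.V‖ₑ +
      (c1 * (∫⁻ w in S1, kk T al (T.n + al) z w * y w ∂T.V) +
      (c1 * (∫⁻ w in S2, kk T al (T.n + al) z w * y w ∂T.V) +
      (c3 * (q * Psi T al (r ^ 2) (W l) y) + c1 * El T al (r ^ 2) W own col v y l))) := by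
    have e1 : ∫ w in S, K z w ∂T.V = ∫ w in A, K (v l) w ∂T.V +
        ∫ w, (S.indicator (K z) w - A.indicator (K (v l)) w) ∂T.V := by
      rw [integral_sub (hKz.indicator hS) (hKv.indicator hA), integral_indicator hS,
        integral_indicator hA]
      ring
    rw [e1]
    refine (enorm_add_le _ _).trans (add_le_add le_rfl ?_)
    refine (enorm_integral_le_lintegral_enorm _).trans ?_
    rw [← hint]
    exact lintegral_mono_ae hpt
  refine hmain.trans ?_
  rw [BL]
  set t1 := ∫⁻ w in S1, kk T al (T.n + al) z w * y w ∂T.V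
  set t2 := ∫⁻ w in S2, kk T al (T.n + al) z w * y w ∂T.V
  set t3 := q * Psi T al (r ^ 2) (W l) y
  set t5 := El T al (r ^ 2) W own col v y l
  have hCc : ENNReal.ofReal (1 + C1 + (3 * 8 ^ (T.n + al) * C1 + 4 * C2)) = 1 + c1 + c3 := by
    rw [ENNReal.ofReal_add (by positivity) (by positivity), ENNReal.ofReal_add (by norm_num) hC1,
      ENNReal.ofReal_one]
  rw [hCc]
  have hle1 : c1 ≤ 1 + c1 + c3 := (le_add_of_nonneg_left zero_le).trans
    (le_add_of_nonneg_right zero_le)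
  have hle3 : c3 ≤ 1 + c1 + c3 := le_add_of_nonneg_left zero_le
  have hle0 : (1 : ℝ≥0∞) ≤ 1 + c1 + c3 := (le_add_of_nonneg_right zero_le).trans
    (le_add_of_nonneg_right zero_le)
  calc ‖∫ w in A, K (v l) w ∂T.V‖ₑ + (c1 * t1 + (c1 * t2 + (c3 * t3 + c1 * t5)))
      ≤ (1 + c1 + c3) * ‖∫ w in A, K (v l) w ∂T.V‖ₑ + ((1 + c1 + c3) * t1 +
        ((1 + c1 + c3) * t2 + ((1 + c1 + c3) * t3 + (1 + c1 + c3) * t5))) := by
        refine add_le_add (le_mul_of_one_le_left' hle0) ?_
        gcongr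
    _ = (1 + c1 + c3) * (t1 + t2 + t3 + ‖∫ w in A, K (v l) w ∂T.V‖ₑ + t5) := by ring

end RFE
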