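import Pool.Agent.Helper157.RF.EGiven
set_option autoImplicit false
open MeasureTheory Set Filter H262RU
open scoped ENNReal NNReal BigOperators

namespace RFE

variable {X : Type*} [MeasurableSpace X]

/-- elementary Cauchy-Schwarz with a factor two in `ℝ≥0∞` -/
theorem cs_fin {ι : Type*} (S : Finset ι) (a c : ι → ℝ≥0∞) :
    (∑ i ∈ S, a i * c i) ^ 2 ≤ 2 * (∑ i ∈ S, a i) * ∑ i ∈ S, a i * c i ^ 2 := by
  have h1 : ∀ x y : ℝ≥0∞, x * y ≤ x ^ 2 + y ^ 2 := by
    intro x y
    rcases le_total x y with h | h
    · calc x * y ≤ y * y := by gcongr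
        _ = y ^ 2 := (sq y).symm
        _ ≤ x ^ 2 + y ^ 2 := le_add_self
    · calc x * y ≤ x * x := by gcongr
        _ = x ^ 2 := (sq x).symm
        _ ≤ x ^ 2 + y ^ 2 := le_self_add
  calc (∑ i ∈ S, a i * c i) ^ 2 = ∑ i ∈ S, ∑ j ∈ S, (a i * a j) * (c i * c j) := by
        rw [sq, Finset.sum_mul_sum]
        refine Finset.sum_congr rfl fun i _ => Finset.sum_congr rfl fun j _ => by ring
    _ ≤ ∑ i ∈ S, ∑ j ∈ S, (a i * a j) * (c i ^ 2 + c j ^ 2) := by
        refine Finset.sum_le_sum fun i _ => Finset.sum_le_sum fun j _ => ?_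
        exact mul_le_mul_right (h1 _ _) _
    _ = (∑ i ∈ S, ∑ j ∈ S, (a i * c i ^ 2) * a j) + ∑ i ∈ S, ∑ j ∈ S, a i * (a j * c j ^ 2) := by
        rw [← Finset.sum_add_distrib]
        refine Finset.sum_congr rfl fun i _ => ?_
        rw [← Finset.sum_add_distrib]
        refine Finset.sum_congr rfl fun j _ => by ring
    _ = 2 * (∑ i ∈ S, a i) * ∑ i ∈ S, a i * c i ^ 2 := by
        rw [← Finset.sum_mul_sum, ← Finset.sum_mul_sum]
        ring

theorem kk_meas (T : TS X) (hd : Measurable (Function.uncurry T.d)) (p q : ℕ) :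
    Measurable (Function.uncurry (kk T p q)) := by
  unfold kk
  have h1 : Measurable (fun x : X × X => T.s x.2) := T.s_meas.comp measurable_snd
  have h2 : Measurable (fun x : X × X => T.d x.1 x.2) := hd
  exact ENNReal.measurable_ofReal.comp ((h1.pow_const p).div (h2.pow_const q))

section
variable (T : TS X) {ι κ : Type} [Fintype ι] {b m : ℕ} {C0 : ℝ} {W : ι → X} {A : ι → ℝ}
  {own : X → ι}

theorem own_set (hF : Fam T b m C0 W A own) (p : ι → Prop) : MeasurableSet {w | p (own w)} := by
  have h : {w | p (own w)} = ⋃ i ∈ {i | p i}, {w | own w = i} := by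
    ext w
    simp
  rw [h]
  exact MeasurableSet.biUnion (Set.to_countable _) (fun i _ => hF.own_meas i)

/-- multiplier attached to a family of source sets -/
noncomputable def chS (b m : ℕ) (W : ι → X) (A : ι → ℝ) (P : ι → Set (X × X)) (z w : X) : ℝ≥0∞ :=
  ∑ l, (P l).indicator (fun _ => ENNReal.ofReal (om T b m W A l z)) (z, w)

theorem chS_meas (P : ι → Set (X × X)) (hP : ∀ l, MeasurableSet (P l)) :
    Measurable (Function.uncurry (chS T b m W A P)) := by
  unfold chS
  have : (Function.uncurry fun z w => ∑ l, (P l).indicator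
      (fun _ => ENNReal.ofReal (om T b m W A l z)) (z, w)) =
      fun x : X × X => ∑ l, (P l).indicator
        (fun x => ENNReal.ofReal (om T b m W A l x.1)) x := by
    ext ⟨z, w⟩
    simp only [Function.uncurry]
    refine Finset.sum_congr rfl fun l _ => ?_
    by_cases h : (z, w) ∈ P l
    · simp [Set.indicator_of_mem h]
    · simp [Set.indicator_of_notMem h]
  rw [this]
  refine Finset.measurable_sum _ fun l _ => ?_
  refine Measurable.indicator ?_ (hP l)
  exact ENNReal.measurable_ofReal.comp ((om_meas T b m W A l).comp measurable_fst)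

/-- reduction of `(R g_l) Z_l` type sums to the kernel of part I -/
theorem loc_gen (hd : Measurable (Function.uncurry T.d)) (hV : ∀ᵐ w ∂T.V, 0 < T.s w)
    (hF : Fam T b m C0 W A own) (al : ℕ) (P : ι → Set (X × X)) (hP : ∀ l, MeasurableSet (P l))
    (cst : ℝ) (hc : 0 ≤ cst)
    (h : ∀ l z w, 0 < T.s z → 0 < T.s w → (z, w) ∈ P l → T.d z w ≤ cst * T.d z (W l))
    (y : X → ℝ≥0∞) (hy : Measurable y) (z : X) (hz : 0 < T.s z) :
    ∑ l, ENNReal.ofReal (om T b m W A l z / T.d z (W l)) *
      (∫⁻ w in {w | (z, w) ∈ P l}, kk T al (T.n + al) z w * y w ∂T.V) ≤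
    ENNReal.ofReal cst * ∫⁻ w, kk T al (T.n + 1 + al) z w * chS T b m W A P z w * y w ∂T.V := by
  have hkm : ∀ p q, Measurable (kk T p q z) := fun p q =>
    (kk_meas T hd p q).comp measurable_prodMk_left
  have hPm : ∀ l, MeasurableSet {w | (z, w) ∈ P l} := fun l =>
    measurable_prodMk_left (hP l)
  have e1 : ∀ l, ENNReal.ofReal (om T b m W A l z / T.d z (W l)) *
      (∫⁻ w in {w | (z, w) ∈ P l}, kk T al (T.n + al) z w * y w ∂T.V) =
      ∫⁻ w, ({w | (z, w) ∈ P l}.indicator (fun w =>
        ENNReal.ofReal (om T b m W A l z / T.d z (W l)) * (kk T al (T.n + al) z w * y w))) w ∂T.V := by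
    intro l
    rw [lintegral_indicator (hPm l), lintegral_const_mul]
    exact (hkm _ _).mul hy
  have e2 : ∑ l, ENNReal.ofReal (om T b m W A l z / T.d z (W l)) *
      (∫⁻ w in {w | (z, w) ∈ P l}, kk T al (T.n + al) z w * y w ∂T.V) =
      ∫⁻ w, ∑ l, ({w | (z, w) ∈ P l}.indicator (fun w =>
        ENNReal.ofReal (om T b m W A l z / T.d z (W l)) * (kk T al (T.n + al) z w * y w))) w ∂T.V := by
    rw [Finset.sum_congr rfl (fun l _ => e1 l)]
    symm
    apply lintegral_finsetSum
    intro l _
    exact Measurable.indicator (((hkm _ _).mul hy).const_mul _) (hPm l)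
  rw [e2]
  have hcm : Measurable (fun w => chS T b m W A P z w) := by
    have h0 := chS_meas (b := b) (m := m) (W := W) (A := A) T P hP
    have h1 : Measurable (fun w : X => (z, w)) := measurable_prodMk_left
    have h2 := h0.comp h1
    simpa only [Function.comp_def, Function.uncurry_apply_pair] using h2
  have hmm : Measurable (fun w => kk T al (T.n + 1 + al) z w * chS T b m W A P z w * y w) :=
    ((hkm _ _).mul hcm).mul hy
  rw [← lintegral_const_mul _ hmm]
  refine lintegral_mono_ae ?_
  filter_upwards [hV] with w hw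
  have key : ∀ l, {w | (z, w) ∈ P l}.indicator (fun w =>
      ENNReal.ofReal (om T b m W A l z / T.d z (W l)) * (kk T al (T.n + al) z w * y w)) w ≤
      ENNReal.ofReal cst * (kk T al (T.n + 1 + al) z w * (P l).indicator
        (fun _ => ENNReal.ofReal (om T b m W A l z)) (z, w) * y w) := by
    intro l
    by_cases hl : (z, w) ∈ P l
    · rw [Set.indicator_of_mem (show w ∈ {w | (z, w) ∈ P l} from hl), Set.indicator_of_mem hl]
      have hsl := hF.s_pos l
      have hdl : 0 < T.d z (W l) := TS.d_pos hsl z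
      have hdz : 0 < T.d z w := TS.d_pos hw z
      have hom := om_nonneg T hF l z
      have hh := h l z w hz hw hl
      have : ENNReal.ofReal (om T b m W A l z / T.d z (W l)) * kk T al (T.n + al) z w ≤
          ENNReal.ofReal cst * (kk T al (T.n + 1 + al) z w * ENNReal.ofReal (om T b m W A l z)) := by
        unfold kk
        rw [← ENNReal.ofReal_mul (by positivity), ← ENNReal.ofReal_mul (by positivity),
          ← ENNReal.ofReal_mul hc]
        apply ENNReal.ofReal_le_ofReal
        have e2 : T.d z w ^ (T.n + 1 + al) = T.d z w ^ (T.n + al) * T.d z w := by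
          rw [← pow_succ]; congr 1; ring
        rw [e2]
        have e3 : 1 / T.d z (W l) ≤ cst / T.d z w := by
          rw [div_le_div_iff₀ hdl hdz]; linarith
        calc om T b m W A l z / T.d z (W l) * (T.s w ^ al / T.d z w ^ (T.n + al))
            = (om T b m W A l z * (T.s w ^ al / T.d z w ^ (T.n + al))) * (1 / T.d z (W l)) := by
              field_simp
          _ ≤ (om T b m W A l z * (T.s w ^ al / T.d z w ^ (T.n + al))) * (cst / T.d z w) := by
              gcongr
          _ = _ := by field_simp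
      calc ENNReal.ofReal (om T b m W A l z / T.d z (W l)) * (kk T al (T.n + al) z w * y w)
          = (ENNReal.ofReal (om T b m W A l z / T.d z (W l)) * kk T al (T.n + al) z w) * y w := by
            ring
        _ ≤ (ENNReal.ofReal cst * (kk T al (T.n + 1 + al) z w *
            ENNReal.ofReal (om T b m W A l z))) * y w := by gcongr
        _ = _ := by ring
    · rw [Set.indicator_of_notMem (show w ∉ {w | (z, w) ∈ P l} from hl)]
      exact bot_le
  calc ∑ l, {w | (z, w) ∈ P l}.indicator (fun w =>
      ENNReal.ofReal (om T b m W A l z / T.d z (W l)) * (kk T al (T.n + al) z w * y w)) w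
      ≤ ∑ l, ENNReal.ofReal cst * (kk T al (T.n + 1 + al) z w * (P l).indicator
        (fun _ => ENNReal.ofReal (om T b m W A l z)) (z, w) * y w) :=
        Finset.sum_le_sum fun l _ => key l
    _ = _ := by
        unfold chS
        rw [← Finset.mul_sum, ← Finset.sum_mul, ← Finset.mul_sum]

/-- L2 bound of a sum of the form `∑ om_l q_l c_l` -/
theorem sq_int (hF : Fam T b m C0 W A own) (hm : b ≤ m)
    (q : ι → X → ℝ≥0∞) (hq : ∀ l, Measurable (q l)) (c : ι → ℝ≥0∞) :
    ∫⁻ z, ENNReal.ofReal (T.s z) *
      (∑ l, ENNReal.ofReal (om T b m W A l z) * (q l z * c l)) ^ 2 ∂T.V ≤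
    2 * ENNReal.ofReal (2 ^ (m - b)) *
      ∑ l, (∫⁻ z, ENNReal.ofReal (T.s z) * (ENNReal.ofReal (om T b m W A l z) * q l z ^ 2) ∂T.V) *
        c l ^ 2 := by
  have hom : ∀ l, Measurable (fun z => ENNReal.ofReal (om T b m W A l z)) := fun l =>
    ENNReal.measurable_ofReal.comp (om_meas T b m W A l)
  have hs : Measurable (fun z => ENNReal.ofReal (T.s z)) :=
    ENNReal.measurable_ofReal.comp T.s_meas
  have hf : ∀ l, Measurable (fun z => ENNReal.ofReal (T.s z) *
      (ENNReal.ofReal (om T b m W A l z) * q l z ^ 2)) := fun l =>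
    hs.mul ((hom l).mul ((hq l).pow_const 2))
  calc ∫⁻ z, ENNReal.ofReal (T.s z) *
      (∑ l, ENNReal.ofReal (om T b m W A l z) * (q l z * c l)) ^ 2 ∂T.V
      ≤ ∫⁻ z, (2 * ENNReal.ofReal (2 ^ (m - b))) * ∑ l, (ENNReal.ofReal (T.s z) *
          (ENNReal.ofReal (om T b m W A l z) * q l z ^ 2)) * c l ^ 2 ∂T.V := by
        refine lintegral_mono fun z => ?_
        have h1 := cs_fin Finset.univ (fun l => ENNReal.ofReal (om T b m W A l z))
          (fun l => q l z * c l)
        have h2 : ∑ l, ENNReal.ofReal (om T b m W A l z) ≤ ENNReal.ofReal (2 ^ (m - b)) := by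
          rw [← ENNReal.ofReal_sum_of_nonneg (fun l _ => om_nonneg T hF l z)]
          exact ENNReal.ofReal_le_ofReal (sum_om_le T hF hm z)
        calc ENNReal.ofReal (T.s z) *
            (∑ l, ENNReal.ofReal (om T b m W A l z) * (q l z * c l)) ^ 2
            ≤ ENNReal.ofReal (T.s z) * (2 * ENNReal.ofReal (2 ^ (m - b)) *
              ∑ l, ENNReal.ofReal (om T b m W A l z) * (q l z * c l) ^ 2) := by
              have h3 : (∑ l, ENNReal.ofReal (om T b m W A l z) * (q l z * c l)) ^ 2 ≤
                  2 * ENNReal.ofReal (2 ^ (m - b)) *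
                    ∑ l, ENNReal.ofReal (om T b m W A l z) * (q l z * c l) ^ 2 :=
                h1.trans (mul_le_mul' (mul_le_mul' le_rfl h2) le_rfl)
              exact mul_le_mul' le_rfl h3
          _ = (2 * ENNReal.ofReal (2 ^ (m - b))) * ∑ l, (ENNReal.ofReal (T.s z) *
              (ENNReal.ofReal (om T b m W A l z) * q l z ^ 2)) * c l ^ 2 := by
              rw [mul_left_comm]
              congr 1
              rw [Finset.mul_sum]
              refine Finset.sum_congr rfl fun l _ => by ring
    _ = (2 * ENNReal.ofReal (2 ^ (m - b))) * ∑ l, (∫⁻ z, ENNReal.ofReal (T.s z) *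
          (ENNReal.ofReal (om T b m W A l z) * q l z ^ 2) ∂T.V) * c l ^ 2 := by
        rw [lintegral_const_mul]
        · congr 1
          rw [lintegral_finsetSum]
          · refine Finset.sum_congr rfl fun l _ => ?_
            rw [lintegral_mul_const _ (hf l)]
          · intro l _
            exact (hf l).mul_const _
        · exact Finset.measurable_sum _ fun l _ => (hf l).mul_const _

end

end RFE
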