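import Pool.Agent.Helper157.RF.PartIIa
set_option autoImplicit false
open MeasureTheory Set Filter H262RU
open scoped ENNReal NNReal BigOperators

namespace RFE

variable {X : Type*} [MeasurableSpace X]

section
variable (T : TS X) {ι κ : Type} [Fintype ι] [DecidableEq ι] [DecidableEq κ] {b m : ℕ} {C0 : ℝ}
  {W : ι → X} {A : ι → ℝ} {own : X → ι}

/-- the sources of the local part -/
def Ploc (T : TS X) (R : ℝ) (W : ι → X) (own : X → ι) (col : ι → κ) (l : ι) : Set (X × X) :=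
  {p | col (own p.2) = col l ∧ own p.2 ≠ l ∧ T.d p.2 (W l) < R * T.s (W l)}

/-- the sources of the middle part -/
def Pmid (T : TS X) (R : ℝ) (W : ι → X) (l : ι) : Set (X × X) :=
  {p | R * T.s (W l) ≤ T.d p.2 (W l) ∧ T.d p.2 (W l) ≤ 8 * T.d p.1 (W l)}

theorem Ploc_meas (hF : Fam T b m C0 W A own) (R : ℝ) (col : ι → κ) (l : ι) :
    MeasurableSet (Ploc T R W own col l) := by
  have h1 : MeasurableSet {w : X | col (own w) = col l ∧ own w ≠ l} :=
    own_set T hF (fun i => col i = col l ∧ i ≠ l)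
  have h2 : MeasurableSet {w : X | T.d w (W l) < R * T.s (W l)} :=
    measurableSet_lt (T.d_meas _) measurable_const
  have h3 : Ploc T R W own col l = Prod.snd ⁻¹' ({w : X | col (own w) = col l ∧ own w ≠ l} ∩
      {w : X | T.d w (W l) < R * T.s (W l)}) := by
    ext p
    simp [Ploc, and_assoc]
  rw [h3]
  exact measurable_snd (h1.inter h2)

theorem Pmid_meas (R : ℝ) (W : ι → X) (l : ι) : MeasurableSet (Pmid T R W l) := by
  have h1 : Measurable (fun p : X × X => T.d p.2 (W l)) := (T.d_meas _).comp measurable_snd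
  have h2 : Measurable (fun p : X × X => T.d p.1 (W l)) := (T.d_meas _).comp measurable_fst
  exact (measurableSet_le measurable_const h1).inter (measurableSet_le h1 (h2.const_mul 8))

/-- the local multiplier is at most `chi` -/
theorem chS_loc_le (R : ℝ) (col : ι → κ) (z w : X) :
    chS T b m W A (Ploc T R W own col) z w ≤ chi T b m W A own col z w := by
  unfold chS chi
  refine Finset.sum_le_sum fun l _ => ?_
  by_cases h : (z, w) ∈ Ploc T R W own col l
  · rw [Set.indicator_of_mem h, if_pos ⟨h.1.symm, h.2.1.symm⟩]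
  · rw [Set.indicator_of_notMem h]
    exact bot_le

theorem chi_le (hF : Fam T b m C0 W A own) (hm : b ≤ m) (col : ι → κ) (z w : X) :
    chi T b m W A own col z w ≤ ENNReal.ofReal (2 ^ (m - b)) := by
  unfold chi
  calc ∑ l, (if col l = col (own w) ∧ l ≠ own w then ENNReal.ofReal (om T b m W A l z) else 0)
      ≤ ∑ l, ENNReal.ofReal (om T b m W A l z) := by
        refine Finset.sum_le_sum fun l _ => ?_
        split_ifs
        · exact le_rfl
        · exact bot_le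
    _ = ENNReal.ofReal (∑ l, om T b m W A l z) :=
        (ENNReal.ofReal_sum_of_nonneg (fun l _ => om_nonneg T hF l z)).symm
    _ ≤ _ := ENNReal.ofReal_le_ofReal (sum_om_le T hF hm z)

theorem chS_mid_le (hF : Fam T b m C0 W A own) (hm : b + 1 ≤ m) (R : ℝ) (hR : 8 ≤ R)
    (z w : X) (hw : 0 < T.s w) :
    chS T b m W A (Pmid T R W) z w ≤ ENNReal.ofReal (8 / R) := by
  classical
  unfold chS
  have hR0 : 0 < R := by linarith
  have h1 : ∑ l, (Pmid T R W l).indicator (fun _ => ENNReal.ofReal (om T b m W A l z)) (z, w) =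
      ∑ l ∈ Finset.univ.filter (fun l => (z, w) ∈ Pmid T R W l),
        ENNReal.ofReal (om T b m W A l z) := by
    rw [Finset.sum_filter]
    refine Finset.sum_congr rfl fun l _ => ?_
    by_cases h : (z, w) ∈ Pmid T R W l
    · rw [Set.indicator_of_mem h, if_pos h]
    · rw [Set.indicator_of_notMem h, if_neg h]
  rw [h1, ← ENNReal.ofReal_sum_of_nonneg (fun l _ => om_nonneg T hF l z)]
  apply ENNReal.ofReal_le_ofReal
  have h2 := sum_om_small T hF (by omega : b ≤ m) (8 / R) (by positivity)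
    (Finset.univ.filter (fun l => (z, w) ∈ Pmid T R W l)) z (by
      intro l hl
      have hl2 : (z, w) ∈ Pmid T R W l := (Finset.mem_filter.1 hl).2
      have hsl := hF.s_pos l
      have hdl : 0 < T.d z (W l) := TS.d_pos hsl z
      obtain ⟨h3, h4⟩ := hl2
      simp only at h3 h4
      unfold TS.kap
      rw [div_le_div_iff₀ hdl hR0]
      linarith)
  refine h2.trans ?_
  have h5 : 8 / R ≤ 1 := by rw [div_le_one hR0]; exact hR
  obtain ⟨e, he⟩ := Nat.exists_eq_add_of_le (show 1 ≤ m - b by omega)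
  rw [he, pow_add, pow_one]
  have h6 : (8 / R) ^ e ≤ 1 := pow_le_one₀ (by positivity) h5
  have h7 : 0 ≤ 8 / R := by positivity
  nlinarith

/-- U1: local part -/
theorem U1_bound (hd : Measurable (Function.uncurry T.d)) (hV : ∀ᵐ w ∂T.V, 0 < T.s w)
    (al : ℕ) (CI : ℝ)
    (hI : ∀ (χ : X → X → ℝ≥0∞), Measurable (Function.uncurry χ) → ∀ (B ε : ℝ≥0∞) (R : ℝ), 1 ≤ R →
      (∀ z w, 0 < T.s z → 0 < T.s w → χ z w ≤ B) →
      (∀ z w, 0 < T.s z → 0 < T.s w → T.d z w < R * T.s z → T.d z w < R * T.s w → χ z w ≤ ε) →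
      ∀ y : X → ℝ≥0∞, Measurable y →
      ∫⁻ z, ENNReal.ofReal (T.s z) *
        (∫⁻ w, kk T al (T.n + 1 + al) z w * χ z w * y w ∂T.V) ^ 2 ∂T.V ≤
      ENNReal.ofReal CI * (ε ^ 2 + B ^ 2 * ENNReal.ofReal (1 / R)) * nrm T y)
    (hF : Fam T b m C0 W A own) (hm : b ≤ m) (R : ℝ) (hR : 0 ≤ R) (col : ι → κ)
    (R2 ε1 : ℝ) (hR2 : 1 ≤ R2)
    (hchi : ∀ z w, 0 < T.s z → 0 < T.s w → T.d z w < R2 * T.s z → T.d z w < R2 * T.s w →
        chi T b m W A own col z w ≤ ENNReal.ofReal ε1)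
    (y : X → ℝ≥0∞) (hy : Measurable y) :
    ∫⁻ z, ENNReal.ofReal (T.s z) * (∑ l, ENNReal.ofReal (om T b m W A l z / T.d z (W l)) *
      (∫⁻ w in {w | (z, w) ∈ Ploc T R W own col l}, kk T al (T.n + al) z w * y w ∂T.V)) ^ 2 ∂T.V ≤
    ENNReal.ofReal (4 * (1 + 2 * R)) ^ 2 * (ENNReal.ofReal CI * (ENNReal.ofReal ε1 ^ 2 +
      ENNReal.ofReal (2 ^ (m - b)) ^ 2 * ENNReal.ofReal (1 / R2))) * nrm T y := by
  have h1 := hI (chS T b m W A (Ploc T R W own col)) (chS_meas T _ (Ploc_meas T hF R col))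
    (ENNReal.ofReal (2 ^ (m - b))) (ENNReal.ofReal ε1) R2 hR2
    (fun z w _ _ => (chS_loc_le T R col z w).trans (chi_le T hF hm col z w))
    (fun z w a1 a2 a3 a4 => (chS_loc_le T R col z w).trans (hchi z w a1 a2 a3 a4)) y hy
  calc ∫⁻ z, ENNReal.ofReal (T.s z) * (∑ l, ENNReal.ofReal (om T b m W A l z / T.d z (W l)) *
      (∫⁻ w in {w | (z, w) ∈ Ploc T R W own col l}, kk T al (T.n + al) z w * y w ∂T.V)) ^ 2 ∂T.V
      ≤ ∫⁻ z, ENNReal.ofReal (4 * (1 + 2 * R)) ^ 2 * (ENNReal.ofReal (T.s z) *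
        (∫⁻ w, kk T al (T.n + 1 + al) z w * chS T b m W A (Ploc T R W own col) z w *
          y w ∂T.V) ^ 2) ∂T.V := by
        refine lintegral_mono_ae ?_
        filter_upwards [hV] with z hz
        have h2 := loc_gen T hd hV hF al (Ploc T R W own col) (Ploc_meas T hF R col)
          (4 * (1 + 2 * R)) (by positivity) (by
            intro l z w hz hw hp
            have h3 : T.d w (W l) < R * T.s (W l) := hp.2.2
            have h4 := T.tri z (W l) w
            have h5 := T.s_le' z (W l)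
            have h6 := T.d_symm (W l) w
            have h7 : R * T.s (W l) ≤ R * (2 * T.d z (W l)) := by gcongr
            nlinarith) y hy z hz
        calc ENNReal.ofReal (T.s z) * (∑ l, ENNReal.ofReal (om T b m W A l z / T.d z (W l)) *
            (∫⁻ w in {w | (z, w) ∈ Ploc T R W own col l}, kk T al (T.n + al) z w * y w ∂T.V)) ^ 2
            ≤ ENNReal.ofReal (T.s z) * (ENNReal.ofReal (4 * (1 + 2 * R)) *
              ∫⁻ w, kk T al (T.n + 1 + al) z w * chS T b m W A (Ploc T R W own col) z w *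
              y w ∂T.V) ^ 2 := mul_le_mul' le_rfl (pow_le_pow_left' h2 2)
          _ = _ := by rw [mul_pow]; ring
    _ = ENNReal.ofReal (4 * (1 + 2 * R)) ^ 2 * ∫⁻ z, (ENNReal.ofReal (T.s z) *
        (∫⁻ w, kk T al (T.n + 1 + al) z w * chS T b m W A (Ploc T R W own col) z w *
          y w ∂T.V) ^ 2) ∂T.V := by
        rw [lintegral_const_mul']
        exact ENNReal.pow_ne_top ENNReal.ofReal_ne_top
    _ ≤ ENNReal.ofReal (4 * (1 + 2 * R)) ^ 2 * (ENNReal.ofReal CI * (ENNReal.ofReal ε1 ^ 2 +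
      ENNReal.ofReal (2 ^ (m - b)) ^ 2 * ENNReal.ofReal (1 / R2)) * nrm T y) :=
        mul_le_mul' le_rfl h1
    _ = _ := by ring

/-- U2: middle part -/
theorem U2_bound (hd : Measurable (Function.uncurry T.d)) (hV : ∀ᵐ w ∂T.V, 0 < T.s w)
    (al : ℕ) (CI : ℝ)
    (hI : ∀ (χ : X → X → ℝ≥0∞), Measurable (Function.uncurry χ) → ∀ (B ε : ℝ≥0∞) (R : ℝ), 1 ≤ R →
      (∀ z w, 0 < T.s z → 0 < T.s w → χ z w ≤ B) →
      (∀ z w, 0 < T.s z → 0 < T.s w → T.d z w < R * T.s z → T.d z w < R * T.s w → χ z w ≤ ε) →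
      ∀ y : X → ℝ≥0∞, Measurable y →
      ∫⁻ z, ENNReal.ofReal (T.s z) *
        (∫⁻ w, kk T al (T.n + 1 + al) z w * χ z w * y w ∂T.V) ^ 2 ∂T.V ≤
      ENNReal.ofReal CI * (ε ^ 2 + B ^ 2 * ENNReal.ofReal (1 / R)) * nrm T y)
    (hF : Fam T b m C0 W A own) (hm : b + 1 ≤ m) (R : ℝ) (hR : 8 ≤ R)
    (y : X → ℝ≥0∞) (hy : Measurable y) :
    ∫⁻ z, ENNReal.ofReal (T.s z) * (∑ l, ENNReal.ofReal (om T b m W A l z / T.d z (W l)) *
      (∫⁻ w in {w | (z, w) ∈ Pmid T R W l}, kk T al (T.n + al) z w * y w ∂T.V)) ^ 2 ∂T.V ≤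
    ENNReal.ofReal 36 ^ 2 * (ENNReal.ofReal CI * (2 * ENNReal.ofReal (8 / R) ^ 2)) * nrm T y := by
  have h1 := hI (chS T b m W A (Pmid T R W)) (chS_meas T _ (Pmid_meas T R W))
    (ENNReal.ofReal (8 / R)) (ENNReal.ofReal (8 / R)) 1 le_rfl
    (fun z w _ hw => chS_mid_le T hF hm R hR z w hw)
    (fun z w _ hw _ _ => chS_mid_le T hF hm R hR z w hw) y hy
  calc ∫⁻ z, ENNReal.ofReal (T.s z) * (∑ l, ENNReal.ofReal (om T b m W A l z / T.d z (W l)) *
      (∫⁻ w in {w | (z, w) ∈ Pmid T R W l}, kk T al (T.n + al) z w * y w ∂T.V)) ^ 2 ∂T.V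
      ≤ ∫⁻ z, ENNReal.ofReal 36 ^ 2 * (ENNReal.ofReal (T.s z) *
        (∫⁻ w, kk T al (T.n + 1 + al) z w * chS T b m W A (Pmid T R W) z w *
          y w ∂T.V) ^ 2) ∂T.V := by
        refine lintegral_mono_ae ?_
        filter_upwards [hV] with z hz
        have h2 := loc_gen T hd hV hF al (Pmid T R W) (Pmid_meas T R W)
          36 (by norm_num) (by
            intro l z w hz hw hp
            have h3 : T.d w (W l) ≤ 8 * T.d z (W l) := hp.2
            have h4 := T.tri z (W l) w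
            have h6 := T.d_symm (W l) w
            linarith) y hy z hz
        calc ENNReal.ofReal (T.s z) * (∑ l, ENNReal.ofReal (om T b m W A l z / T.d z (W l)) *
            (∫⁻ w in {w | (z, w) ∈ Pmid T R W l}, kk T al (T.n + al) z w * y w ∂T.V)) ^ 2
            ≤ ENNReal.ofReal (T.s z) * (ENNReal.ofReal 36 *
              ∫⁻ w, kk T al (T.n + 1 + al) z w * chS T b m W A (Pmid T R W) z w *
              y w ∂T.V) ^ 2 := mul_le_mul' le_rfl (pow_le_pow_left' h2 2)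
          _ = _ := by rw [mul_pow]; ring
    _ = ENNReal.ofReal 36 ^ 2 * ∫⁻ z, (ENNReal.ofReal (T.s z) *
        (∫⁻ w, kk T al (T.n + 1 + al) z w * chS T b m W A (Pmid T R W) z w *
          y w ∂T.V) ^ 2) ∂T.V := by
        rw [lintegral_const_mul']
        exact ENNReal.pow_ne_top ENNReal.ofReal_ne_top
    _ ≤ ENNReal.ofReal 36 ^ 2 * (ENNReal.ofReal CI * (ENNReal.ofReal (8 / R) ^ 2 +
      ENNReal.ofReal (8 / R) ^ 2 * ENNReal.ofReal (1 / 1)) * nrm T y) :=
        mul_le_mul' le_rfl h1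
    _ = _ := by
        rw [div_one, ENNReal.ofReal_one]
        ring

/-- weighted sums with weight `sqrt (K_l + r) / d` -/
theorem U3_bound (hV : ∀ᵐ w ∂T.V, 0 < T.s w) (CM : ℝ) (hCM : 0 ≤ CM)
    (hF : Fam T b m C0 W A own) (hm : b ≤ m)
    (hint : ∀ (l : ι) (r : ℝ), 0 ≤ r →
      ∫⁻ z, ENNReal.ofReal (om T b m W A l z * (T.d z (W l) / T.s (W l) + r) /
        T.d z (W l) ^ 2 * T.s z) ∂T.V ≤ ENNReal.ofReal (CM * (1 + r) * T.s (W l) ^ T.n))
    (r : ℝ) (hr : 0 ≤ r) (c : ι → ℝ≥0∞) :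
    ∫⁻ z, ENNReal.ofReal (T.s z) * (∑ l, ENNReal.ofReal (om T b m W A l z / T.d z (W l)) *
      (ENNReal.ofReal (Real.sqrt (T.d z (W l) / T.s (W l) + r)) * c l)) ^ 2 ∂T.V ≤
    2 * ENNReal.ofReal (2 ^ (m - b)) * (ENNReal.ofReal (CM * (1 + r)) *
      ∑ l, ENNReal.ofReal (T.s (W l) ^ T.n) * c l ^ 2) := by
  have hqm : ∀ l, Measurable (fun z => ENNReal.ofReal
      (Real.sqrt (T.d z (W l) / T.s (W l) + r) / T.d z (W l))) := by
    intro l
    have h1 : Measurable (fun z => T.d z (W l)) := T.d_meas (W l)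
    exact ENNReal.measurable_ofReal.comp
      ((Real.continuous_sqrt.measurable.comp ((h1.div_const _).add_const _)).div h1)
  have h1 := sq_int T hF hm (fun l z => ENNReal.ofReal
      (Real.sqrt (T.d z (W l) / T.s (W l) + r) / T.d z (W l))) hqm c
  have h2 : ∀ z, (∑ l, ENNReal.ofReal (om T b m W A l z / T.d z (W l)) *
      (ENNReal.ofReal (Real.sqrt (T.d z (W l) / T.s (W l) + r)) * c l)) =
      ∑ l, ENNReal.ofReal (om T b m W A l z) * (ENNReal.ofReal
        (Real.sqrt (T.d z (W l) / T.s (W l) + r) / T.d z (W l)) * c l) := by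
    intro z
    refine Finset.sum_congr rfl fun l _ => ?_
    have hsl := hF.s_pos l
    have hdl : 0 < T.d z (W l) := TS.d_pos hsl z
    have hom := om_nonneg T hF l z
    rw [← mul_assoc, ← mul_assoc, ← ENNReal.ofReal_mul (by positivity),
      ← ENNReal.ofReal_mul hom]
    congr 2
    ring
  simp only [h2]
  refine h1.trans (mul_le_mul' le_rfl ?_)
  rw [Finset.mul_sum]
  refine Finset.sum_le_sum fun l _ => ?_
  have hsl := hF.s_pos l
  have h3 : ∫⁻ z, ENNReal.ofReal (T.s z) * (ENNReal.ofReal (om T b m W A l z) *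
      ENNReal.ofReal (Real.sqrt (T.d z (W l) / T.s (W l) + r) / T.d z (W l)) ^ 2) ∂T.V ≤
      ENNReal.ofReal (CM * (1 + r) * T.s (W l) ^ T.n) := by
    refine le_trans (le_of_eq ?_) (hint l r hr)
    refine lintegral_congr fun z => ?_
    have hdl : 0 < T.d z (W l) := TS.d_pos hsl z
    have hom := om_nonneg T hF l z
    have hsz := T.s_nonneg z
    have e1 : 0 ≤ T.d z (W l) / T.s (W l) + r := by positivity
    rw [← ENNReal.ofReal_pow (by positivity), ← ENNReal.ofReal_mul hom,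
      ← ENNReal.ofReal_mul hsz, div_pow, Real.sq_sqrt e1]
    congr 1
    ring
  calc (∫⁻ z, ENNReal.ofReal (T.s z) * (ENNReal.ofReal (om T b m W A l z) *
      ENNReal.ofReal (Real.sqrt (T.d z (W l) / T.s (W l) + r) / T.d z (W l)) ^ 2) ∂T.V) * c l ^ 2
      ≤ ENNReal.ofReal (CM * (1 + r) * T.s (W l) ^ T.n) * c l ^ 2 := mul_le_mul' h3 le_rfl
    _ = ENNReal.ofReal (CM * (1 + r)) * (ENNReal.ofReal (T.s (W l) ^ T.n) * c l ^ 2) := by
        rw [ENNReal.ofReal_mul (by positivity)]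
        ring

/-- weighted sums with weight `1 / d` -/
theorem U4_bound (hV : ∀ᵐ w ∂T.V, 0 < T.s w) (CM : ℝ) (hCM : 0 ≤ CM)
    (hF : Fam T b m C0 W A own) (hm : b ≤ m)
    (hint : ∀ (l : ι) (r : ℝ), 0 ≤ r →
      ∫⁻ z, ENNReal.ofReal (om T b m W A l z * (T.d z (W l) / T.s (W l) + r) /
        T.d z (W l) ^ 2 * T.s z) ∂T.V ≤ ENNReal.ofReal (CM * (1 + r) * T.s (W l) ^ T.n))
    (c : ι → ℝ≥0∞) :
    ∫⁻ z, ENNReal.ofReal (T.s z) * (∑ l, ENNReal.ofReal (om T b m W A l z / T.d z (W l)) *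
      c l) ^ 2 ∂T.V ≤
    4 * (2 * ENNReal.ofReal (2 ^ (m - b)) * (ENNReal.ofReal CM *
      ∑ l, ENNReal.ofReal (T.s (W l) ^ T.n) * c l ^ 2)) := by
  have h1 := U3_bound T hV CM hCM hF hm hint 0 le_rfl c
  have h2 : ∀ z, ENNReal.ofReal (T.s z) * (∑ l, ENNReal.ofReal (om T b m W A l z / T.d z (W l)) *
      c l) ^ 2 ≤ 4 * (ENNReal.ofReal (T.s z) *
        (∑ l, ENNReal.ofReal (om T b m W A l z / T.d z (W l)) *
      (ENNReal.ofReal (Real.sqrt (T.d z (W l) / T.s (W l) + 0)) * c l)) ^ 2) := by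
    intro z
    have h3 : (∑ l, ENNReal.ofReal (om T b m W A l z / T.d z (W l)) * c l) ≤
        2 * (∑ l, ENNReal.ofReal (om T b m W A l z / T.d z (W l)) *
      (ENNReal.ofReal (Real.sqrt (T.d z (W l) / T.s (W l) + 0)) * c l)) := by
      rw [Finset.mul_sum]
      refine Finset.sum_le_sum fun l _ => ?_
      have hsl := hF.s_pos l
      have hdl : 0 < T.d z (W l) := TS.d_pos hsl z
      have h4 : T.s (W l) ≤ 2 * T.d z (W l) := T.s_le' z (W l)
      have h5 : 1 ≤ 2 * Real.sqrt (T.d z (W l) / T.s (W l) + 0) := by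
        rw [add_zero]
        have h6 : (1 / 2 : ℝ) ^ 2 ≤ T.d z (W l) / T.s (W l) := by
          rw [le_div_iff₀ hsl]; nlinarith
        have h7 : (1 / 2 : ℝ) ≤ Real.sqrt (T.d z (W l) / T.s (W l)) := Real.le_sqrt_of_sq_le h6
        linarith
      have h8 : (1 : ℝ≥0∞) ≤ 2 * ENNReal.ofReal (Real.sqrt (T.d z (W l) / T.s (W l) + 0)) := by
        have : (2 : ℝ≥0∞) = ENNReal.ofReal 2 := by simp
        rw [this, ← ENNReal.ofReal_mul (by norm_num)]
        exact ENNReal.one_le_ofReal.2 h5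
      calc ENNReal.ofReal (om T b m W A l z / T.d z (W l)) * c l
          = ENNReal.ofReal (om T b m W A l z / T.d z (W l)) * (1 * c l) := by rw [one_mul]
        _ ≤ ENNReal.ofReal (om T b m W A l z / T.d z (W l)) *
            (2 * ENNReal.ofReal (Real.sqrt (T.d z (W l) / T.s (W l) + 0)) * c l) :=
            mul_le_mul' le_rfl (mul_le_mul' h8 le_rfl)
        _ = _ := by ring
    calc ENNReal.ofReal (T.s z) * (∑ l, ENNReal.ofReal (om T b m W A l z / T.d z (W l)) *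
        c l) ^ 2 ≤ ENNReal.ofReal (T.s z) * (2 *
        (∑ l, ENNReal.ofReal (om T b m W A l z / T.d z (W l)) *
      (ENNReal.ofReal (Real.sqrt (T.d z (W l) / T.s (W l) + 0)) * c l))) ^ 2 :=
          mul_le_mul' le_rfl (pow_le_pow_left' h3 2)
      _ = _ := by rw [mul_pow]; ring
  calc _ ≤ ∫⁻ z, 4 * (ENNReal.ofReal (T.s z) *
        (∑ l, ENNReal.ofReal (om T b m W A l z / T.d z (W l)) *
      (ENNReal.ofReal (Real.sqrt (T.d z (W l) / T.s (W l) + 0)) * c l)) ^ 2) ∂T.V :=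
        lintegral_mono h2
    _ = 4 * ∫⁻ z, (ENNReal.ofReal (T.s z) *
        (∑ l, ENNReal.ofReal (om T b m W A l z / T.d z (W l)) *
      (ENNReal.ofReal (Real.sqrt (T.d z (W l) / T.s (W l) + 0)) * c l)) ^ 2) ∂T.V := by
        rw [lintegral_const_mul']
        norm_num
    _ ≤ 4 * (2 * ENNReal.ofReal (2 ^ (m - b)) * (ENNReal.ofReal (CM * (1 + 0)) *
      ∑ l, ENNReal.ofReal (T.s (W l) ^ T.n) * c l ^ 2)) := mul_le_mul' le_rfl h1
    _ = _ := by rw [add_zero, mul_one]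

end

end RFE
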